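import Mathlib

/-!
# Compact sets of continuous paths
-/

open Finset Filter Topology
open scoped NNReal

namespace Pool.Agent.Lib.MP_06caae_pr

variable {d : ℕ}

/-- the modulus conditions -/
def ModC (δ : ℕ → ℕ → ℝ) (g : ℝ≥0 → Fin d → ℝ) : Prop :=
  g 0 = 0 ∧ ∀ m j : ℕ, ∀ s t : ℝ≥0, s ≤ m → t ≤ m → dist s t ≤ δ m j → dist (g s) (g t) ≤ 1 / ((j : ℝ) + 1)

/-- near `t` -/
theorem ModC.near {δ : ℕ → ℕ → ℝ} (hδ : ∀ m j, 0 < δ m j) (t : ℝ≥0) {ε : ℝ} (hε : 0 < ε) :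
    ∀ᶠ s in 𝓝 t, ∀ g : ℝ≥0 → Fin d → ℝ, ModC δ g → dist (g t) (g s) < ε := by
  obtain ⟨j, hj⟩ := exists_nat_one_div_lt hε
  obtain ⟨m, hm⟩ := exists_nat_ge (t + 1)
  have h1 : ∀ᶠ s in 𝓝 t, dist s t < min (δ m j) 1 := Metric.ball_mem_nhds t (lt_min (hδ m j) one_pos)
  filter_upwards [h1] with s hs g hg
  have h2 : dist s t ≤ δ m j := hs.le.trans (min_le_left _ _)
  have h3 : dist s t ≤ 1 := hs.le.trans (min_le_right _ _)
  have h4 : s ≤ t + 1 := by
    rw [NNReal.dist_eq, abs_le] at h3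
    have : (s : ℝ) ≤ (t : ℝ) + 1 := by linarith [h3.2]
    exact_mod_cast this
  refine lt_of_le_of_lt (hg.2 m j t s ((le_add_of_nonneg_right zero_le_one).trans hm) (h4.trans hm) ?_) hj
  rw [dist_comm]
  exact h2

theorem ModC.continuous {δ : ℕ → ℕ → ℝ} (hδ : ∀ m j, 0 < δ m j) {g : ℝ≥0 → Fin d → ℝ} (hg : ModC δ g) : Continuous g := by
  rw [continuous_iff_continuousAt]
  intro t
  rw [ContinuousAt, Metric.tendsto_nhds]
  intro ε hε
  filter_upwards [ModC.near (d := d) hδ t hε] with s hs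
  rw [dist_comm]
  exact hs g hg

theorem isClosed_modC (δ : ℕ → ℕ → ℝ) : IsClosed {g : ℝ≥0 → Fin d → ℝ | ModC δ g} := by
  have h1 : {g : ℝ≥0 → Fin d → ℝ | ModC δ g} = {g | g 0 = 0} ∩ ⋂ (m : ℕ) (j : ℕ) (s : ℝ≥0) (t : ℝ≥0) (_ : s ≤ m)
      (_ : t ≤ m) (_ : dist s t ≤ δ m j), {g : ℝ≥0 → Fin d → ℝ | dist (g s) (g t) ≤ 1 / ((j : ℝ) + 1)} := by
    ext g
    simp only [Set.mem_ofPred_eq, Set.mem_inter_iff, Set.mem_iInter]
    rfl
  rw [h1]
  refine (isClosed_eq (continuous_apply 0) continuous_const).inter ?_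
  refine isClosed_iInter fun m => isClosed_iInter fun j => isClosed_iInter fun s => isClosed_iInter fun t =>
    isClosed_iInter fun _ => isClosed_iInter fun _ => isClosed_iInter fun _ => ?_
  exact isClosed_le ((continuous_apply s).dist (continuous_apply t)) continuous_const

theorem ModC.bound {δ : ℕ → ℕ → ℝ} {g : ℝ≥0 → Fin d → ℝ} (hg : ModC δ g) (m : ℕ) {e : ℝ≥0} (he : (e : ℝ) ≤ δ m 0)
    (k : ℕ) : ∀ t : ℝ≥0, t ≤ m → t ≤ k * e → dist (g t) 0 ≤ k := by
  induction k with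
  | zero =>
    intro t _ ht
    have : t = 0 := by
      rw [Nat.cast_zero, zero_mul] at ht
      exact le_antisymm ht bot_le
    rw [this, hg.1, dist_self]
    simp
  | succ k ih =>
    intro t htm ht
    have h1 : t - e ≤ k * e := by
      rw [tsub_le_iff_right]
      calc t ≤ ((k + 1 : ℕ) : ℝ≥0) * e := ht
        _ = k * e + e := by push_cast; ring
    have h2 : t - e ≤ m := tsub_le_self.trans htm
    have h3 := ih _ h2 h1
    have h4 : dist t (t - e) ≤ δ m 0 := by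
      refine le_trans ?_ he
      rw [NNReal.dist_eq]
      rcases le_total e t with h | h
      · rw [NNReal.coe_sub h, sub_sub_cancel, abs_of_nonneg (NNReal.coe_nonneg e)]
      · rw [tsub_eq_zero_of_le h, NNReal.coe_zero, sub_zero, abs_of_nonneg (NNReal.coe_nonneg t)]
        exact_mod_cast h
    have h5 := hg.2 m 0 t (t - e) htm h2 h4
    have h6 := dist_triangle (g t) (g (t - e)) 0
    push_cast at h5 ⊢
    norm_num at h5
    linarith

/-- the set of the continuous paths with prescribed moduli -/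
def modSet (δ : ℕ → ℕ → ℝ) : Set C(ℝ≥0, Fin d → ℝ) := {f | ModC δ f}

theorem isCompact_modSet {δ : ℕ → ℕ → ℝ} (hδ : ∀ m j, 0 < δ m j) : IsCompact (modSet δ : Set C(ℝ≥0, Fin d → ℝ)) := by
  refine ArzelaAscoli.isCompact_of_equicontinuous _ ?_ ?_
  · have h1 : ContinuousMap.toFun '' (modSet δ : Set C(ℝ≥0, Fin d → ℝ)) = {g : ℝ≥0 → Fin d → ℝ | ModC δ g} := by
      ext g
      constructor
      · rintro ⟨f, hf, rfl⟩
        exact hf
      · intro hg
        exact ⟨⟨g, ModC.continuous hδ hg⟩, hg, rfl⟩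
    rw [h1]
    have h2 : ∀ t : ℝ≥0, ∃ k : ℝ, ∀ g : ℝ≥0 → Fin d → ℝ, ModC δ g → g t ∈ Metric.closedBall 0 k := by
      intro t
      obtain ⟨m, hm⟩ := exists_nat_ge t
      obtain ⟨e, he⟩ : ∃ e : ℝ≥0, (e : ℝ) = δ m 0 := ⟨⟨δ m 0, (hδ m 0).le⟩, rfl⟩
      have he0 : 0 < e := by
        have := hδ m 0
        rw [← he] at this
        exact_mod_cast this
      obtain ⟨k, hk⟩ := exists_nat_ge (t / e)
      rw [div_le_iff₀ he0] at hk
      exact ⟨k, fun g hg => hg.bound m he.le k t hm hk⟩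
    choose k hk using h2
    refine IsCompact.of_isClosed_subset (isCompact_univ_pi fun t => isCompact_closedBall (0 : Fin d → ℝ) (k t))
      (isClosed_modC δ) fun g hg t _ => hk t g hg
  · intro t
    rw [Metric.equicontinuousAt_iff_right]
    intro ε hε
    filter_upwards [ModC.near (d := d) hδ t hε] with s hs f
    exact hs _ f.2

end Pool.Agent.Lib.MP_06caae_pr
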