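import Pool.Agent.Lib.MP_566bac_pr.Zd.Defs

/-!
# Random walk on the incipient infinite cluster: the definitions used in the statement of the result

`V d = Fin d → ℤ`, `lattice d` (nearest neighbour lattice), `openGraph S` (graph of the open edges of the configuration
`S`), `criticalProbability d` are those of `Pool.Agent.Lib.MP_566bac_pr.Zd.Defs`.
-/

open MeasureTheory ProbabilityTheory Filter Topology
open scoped NNReal
open Pool.Agent.Lib.MP_566bac_pr.Zd (V lattice openGraph criticalProbability)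

namespace Pool.MP_06caae_pr

variable {d : ℕ}

/-! ### critical percolation and the incipient infinite cluster -/

/-- bond percolation with parameter `p`: the law of the set of open edges -/
noncomputable abbrev percolation (d : ℕ) (p : unitInterval) : Measure (Set (Sym2 (V d))) :=
  setBernoulli (lattice d).edgeSet p

/-- `x` and `y` are connected by open edges -/
def Connected (S : Set (Sym2 (V d))) (x y : V d) : Prop := (openGraph S).Reachable x y

/-- the two-point function `τ(x, y)` -/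
noncomputable def twoPoint (p : unitInterval) (x y : V d) : ℝ :=
  (percolation d p).real {S | Connected S x y}

/-- the triangle condition: `∑_{x, y} τ(0, x) τ(x, y) τ(y, 0) < ∞` -/
def TriangleCondition (d : ℕ) (p : unitInterval) : Prop :=
  Summable fun q : V d × V d => twoPoint p 0 q.1 * twoPoint p q.1 q.2 * twoPoint p q.2 0

/-- a cylinder event: an event which depends on finitely many edges of the lattice -/
def IsCylinder (K : Set (Set (Sym2 (V d)))) : Prop :=
  ∃ E : Finset (Sym2 (V d)), (∀ e ∈ E, e ∈ (lattice d).edgeSet) ∧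
    ∀ S S' : Set (Sym2 (V d)), (∀ e ∈ E, e ∈ S ↔ e ∈ S') → (S ∈ K ↔ S' ∈ K)

/-- `ν` is the law of the incipient infinite cluster at parameter `p`: for every cylinder event `K` the conditional
probability `P_p(K | 0 ↔ x)` tends to `ν K` as `|x| → ∞` -/
structure IsIICLaw (p : unitInterval) (ν : Measure (Set (Sym2 (V d)))) : Prop where
  prob : IsProbabilityMeasure ν
  lim : ∀ K : Set (Set (Sym2 (V d))), IsCylinder K → Tendsto (fun x : V d =>
    (percolation d p).real (K ∩ {S | Connected S 0 x}) / (percolation d p).real {S | Connected S 0 x})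
    cofinite (𝓝 (ν.real K))

/-! ### the walk -/

open Classical in
/-- the transition probability from `x` to `y` of the simple random walk on the open graph: `1 / deg x` if `{x, y}` is an
open edge, `0` otherwise -/
noncomputable def stepProb (S : Set (Sym2 (V d))) (x y : V d) : ℝ :=
  if (openGraph S).Adj x y then 1 / ((openGraph S).neighborSet x).ncard else 0

/-- `Q` is the annealed law of the walk started at `0` in the environment `ν`: the path starts with `x 0, x 1, …, x n`
(`x 0 = 0`) with probability `∫ ∏_{i < n} stepProb S (x i) (x (i + 1)) dν(S)` -/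
structure IsAnnealedLaw (ν : Measure (Set (Sym2 (V d)))) (Q : Measure (ℕ → V d)) : Prop where
  prob : IsProbabilityMeasure Q
  cyl : ∀ (n : ℕ) (x : ℕ → V d), x 0 = 0 →
    Q.real {w | ∀ i ≤ n, w i = x i} = ∫ S, ∏ i ∈ Finset.range n, stepProb S (x i) (x (i + 1)) ∂ν

/-! ### the Skorokhod space and convergence in distribution -/

/-- a cadlag function on `[0, ∞)` with values in `ℝ^d` -/
structure Cadlag (d : ℕ) where
  /-- the function -/
  toFun : ℝ≥0 → Fin d → ℝ
  rightCts : ∀ t, ContinuousWithinAt toFun (Set.Ici t) t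
  leftLim : ∀ t, ∃ l, Tendsto toFun (𝓝[<] t) (𝓝 l)

/-- a continuous function as a cadlag function -/
def Cadlag.ofCont (f : C(ℝ≥0, Fin d → ℝ)) : Cadlag d where
  toFun := f
  rightCts _ := f.continuous.continuousWithinAt
  leftLim t := ⟨f t, f.continuous.continuousAt.continuousWithinAt⟩

/-- the sequence `x` converges to `y` in the Skorokhod `J₁` topology of `D([0, ∞), ℝ^d)`: there are increasing bijections
`lam n` of `[0, ∞)` such that `lam n t → t` and `x n (lam n t) → y t`, uniformly for `t ≤ T`, for every `T` -/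
def J1Tendsto (x : ℕ → Cadlag d) (y : Cadlag d) : Prop :=
  ∃ lam : ℕ → (ℝ≥0 ≃o ℝ≥0), ∀ T : ℝ≥0, ∀ ε > (0 : ℝ), ∀ᶠ n in atTop, ∀ t ≤ T,
    dist (lam n t) t ≤ ε ∧ dist ((x n).toFun (lam n t)) (y.toFun t) ≤ ε

/-- a test function: bounded and `J₁` continuous (the `J₁` topology is metrisable) -/
structure IsTest (F : Cadlag d → ℝ) : Prop where
  bdd : ∃ B : ℝ, ∀ x, |F x| ≤ B
  cont : ∀ (x : ℕ → Cadlag d) (y : Cadlag d), J1Tendsto x y → Tendsto (fun n => F (x n)) atTop (𝓝 (F y))

/-- convergence in distribution in `D([0, ∞), ℝ^d)` with the `J₁` topology of the random cadlag functions `X n` on the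
probability space `(Ω, P)` to the random cadlag function `Y` on the probability space `(Ω', P')`: for every test function
`F`, `F (X n)` and `F Y` are random variables and `E F (X n) → E F (Y)` -/
def ConvergesInLaw {Ω Ω' : Type*} [MeasurableSpace Ω] [MeasurableSpace Ω'] (P : Measure Ω) (X : ℕ → Ω → Cadlag d)
    (P' : Measure Ω') (Y : Ω' → Cadlag d) : Prop :=
  ∀ F : Cadlag d → ℝ, IsTest F → (∀ n, Measurable fun w => F (X n w)) ∧ (Measurable fun w => F (Y w)) ∧
    Tendsto (fun n => ∫ w, F (X n w) ∂P) atTop (𝓝 (∫ w, F (Y w) ∂P'))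

/-- the space of continuous paths, with its Borel sets for locally uniform convergence -/
instance instMeasurableSpacePaths : MeasurableSpace C(ℝ≥0, Fin d → ℝ) := borel _

instance instBorelSpacePaths : BorelSpace C(ℝ≥0, Fin d → ℝ) := ⟨rfl⟩

theorem floor_right (b : ℝ) (t : ℝ≥0) : ∀ᶠ s : ℝ≥0 in 𝓝[≥] t, ⌊b * (s : ℝ)⌋₊ = ⌊b * (t : ℝ)⌋₊ := by
  rcases le_or_gt b 0 with hb | hb
  · refine Eventually.of_forall fun s => ?_
    rw [Nat.floor_of_nonpos (mul_nonpos_of_nonpos_of_nonneg hb (NNReal.coe_nonneg s)),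
      Nat.floor_of_nonpos (mul_nonpos_of_nonpos_of_nonneg hb (NNReal.coe_nonneg t))]
  · have h1 : ∀ᶠ s : ℝ≥0 in 𝓝[≥] t, b * (s : ℝ) < ⌊b * (t : ℝ)⌋₊ + 1 := by
      have h2 : Tendsto (fun s : ℝ≥0 => b * (s : ℝ)) (𝓝[≥] t) (𝓝 (b * (t : ℝ))) :=
        (Continuous.tendsto (by fun_prop) t).mono_left nhdsWithin_le_nhds
      exact h2.eventually (gt_mem_nhds (Nat.lt_floor_add_one _))
    filter_upwards [h1, self_mem_nhdsWithin] with s hs hst
    have hst' : (t : ℝ) ≤ s := hst
    have h3 : ⌊b * (t : ℝ)⌋₊ ≤ ⌊b * (s : ℝ)⌋₊ := Nat.floor_le_floor (mul_le_mul_of_nonneg_left hst' hb.le)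
    have h4 : ⌊b * (s : ℝ)⌋₊ < ⌊b * (t : ℝ)⌋₊ + 1 := by
      rw [Nat.floor_lt (mul_nonneg hb.le (NNReal.coe_nonneg s))]
      push_cast
      exact hs
    omega

theorem floor_left (b : ℝ) (t : ℝ≥0) : ∃ k : ℕ, ∀ᶠ s : ℝ≥0 in 𝓝[<] t, ⌊b * (s : ℝ)⌋₊ = k := by
  rcases le_or_gt b 0 with hb | hb
  · refine ⟨0, Eventually.of_forall fun s => ?_⟩
    rw [Nat.floor_of_nonpos (mul_nonpos_of_nonpos_of_nonneg hb (NNReal.coe_nonneg s))]
  · refine ⟨⌈b * (t : ℝ)⌉₊ - 1, ?_⟩
    rcases eq_or_lt_of_le (show (0 : ℝ≥0) ≤ t from bot_le) with h0 | h0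
    · filter_upwards [self_mem_nhdsWithin] with s hs
      exact absurd (Set.mem_Iio.1 hs) (by rw [← h0]; exact not_lt_bot)
    have h0' : 0 < b * (t : ℝ) := mul_pos hb (by exact_mod_cast h0)
    have hc : 0 < ⌈b * (t : ℝ)⌉₊ := Nat.ceil_pos.2 h0'
    have hlt : ((⌈b * (t : ℝ)⌉₊ - 1 : ℕ) : ℝ) < b * (t : ℝ) := by
      rw [← Nat.lt_ceil]
      omega
    have h1 : ∀ᶠ s : ℝ≥0 in 𝓝[<] t, ((⌈b * (t : ℝ)⌉₊ - 1 : ℕ) : ℝ) < b * (s : ℝ) := by
      have h2 : Tendsto (fun s : ℝ≥0 => b * (s : ℝ)) (𝓝[<] t) (𝓝 (b * (t : ℝ))) :=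
        (Continuous.tendsto (by fun_prop) t).mono_left nhdsWithin_le_nhds
      exact h2.eventually (lt_mem_nhds hlt)
    filter_upwards [h1, self_mem_nhdsWithin] with s hs hst
    have hst' : (s : ℝ) < t := hst
    rw [Nat.floor_eq_iff (mul_nonneg hb.le (NNReal.coe_nonneg s))]
    refine ⟨hs.le, ?_⟩
    have h3 := Nat.le_ceil (b * (t : ℝ))
    have h4 : ((⌈b * (t : ℝ)⌉₊ - 1 : ℕ) : ℝ) + 1 = ⌈b * (t : ℝ)⌉₊ := by
      have : ⌈b * (t : ℝ)⌉₊ - 1 + 1 = ⌈b * (t : ℝ)⌉₊ := by omega
      exact_mod_cast this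
    rw [h4]
    exact (mul_lt_mul_of_pos_left hst' hb).trans_le h3

/-- the rescaled path `t ↦ w ⌊b t⌋ / a` -/
noncomputable def scaled (a b : ℝ) (w : ℕ → V d) : Cadlag d where
  toFun t i := (w ⌊b * (t : ℝ)⌋₊ i : ℝ) / a
  rightCts t := by
    refine tendsto_nhds_of_eventually_eq ?_
    filter_upwards [floor_right b t] with s hs
    rw [hs]
  leftLim t := by
    obtain ⟨k, hk⟩ := floor_left b t
    refine ⟨fun i => (w k i : ℝ) / a, tendsto_nhds_of_eventually_eq ?_⟩
    filter_upwards [hk] with s hs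
    rw [hs]

end Pool.MP_06caae_pr
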