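import Pool.Agent.Lib.MP_06caae_pr.AllPerc
import Pool.Agent.Lib.MP_06caae_pr.GhTail
import Pool.Agent.Lib.MP_06caae_pr.G.Defs

/-!
# From the definitions of the statement to those of the proof
-/

open Finset SimpleGraph MeasureTheory Filter Topology
open Pool.Agent.Lib.MP_566bac_pr.Zd
open Pool.Agent.Lib.IICQ
open Pool.MP_06caae_pr (percolation Connected twoPoint TriangleCondition IsCylinder IsIICLaw)

namespace Pool.Agent.Lib.MP_06caae_pr

variable {d : ℕ}

lemma twoPoint_eq (p : unitInterval) (x y : V d) : twoPoint p x y = tau (p : ℝ) (y - x) := perc_con p x y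

lemma tri_of {p : unitInterval} (h : TriangleCondition d p) : Tri d (p : ℝ) := by
  refine Summable.congr h fun q => ?_
  rw [twoPoint_eq, twoPoint_eq, twoPoint_eq, sub_zero, zero_sub, tau_neg p.2.1 p.2.2]

lemma isCylinder_of {K : Set (Set (Ed d))} (h : Loc K) : IsCylinder K := by
  obtain ⟨E, hE, hK⟩ := h
  exact ⟨E, hE, fun S S' hS => ⟨hK S S' hS, hK S' S fun e he => (hS e he).symm⟩⟩

lemma isIIC_of {p : unitInterval} {ν : Measure (Set (Ed d))} (h : IsIICLaw p ν) : IsIIC p ν :=
  ⟨h.prob, fun K hK => h.lim K (isCylinder_of hK)⟩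

/-- all percolation estimates at the critical point, from the three-piece inequality -/
theorem iic_scale_of_three (hd : 0 < d) {p : unitInterval} (hp : (p : ℝ) = criticalProbability d)
    (hT : TriangleCondition d p) (h3 : Std d (p : ℝ) → Three d (p : ℝ)) {ν : Measure (Set (Ed d))} (hν : IsIICLaw p ν) :
    ∃ a : ℕ → ℝ, (∀ R, 0 < a R) ∧ Monotone a ∧ Tendsto a atTop atTop ∧
      (∃ K : ℝ, 0 < K ∧ ∀ r : ℕ, 1 ≤ r → a (2 * r) ≤ K * a r) ∧ IICGood ν a := by
  have hT' := tri_of hT
  have hS : Std d (p : ℝ) := by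
    rw [hp] at hT' ⊢
    exact std_crit hd hT'
  exact iic_good_of_three hS (h3 hS) (isIIC_of hν)

end Pool.Agent.Lib.MP_06caae_pr
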