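import Pool.Agent.Lib.MP_06caae_pr.AllPerc
import Pool.Agent.Lib.MP_06caae_pr.A.ThreeFin
import Pool.Agent.Lib.MP_06caae_pr.B.Far2
import Pool.Agent.Lib.MP_06caae_pr.G.Bridge

/-!
# Assembly of `IICGood` together with the order of the scale
-/

open Finset SimpleGraph MeasureTheory Filter Topology
open Pool.Agent.Lib.MP_566bac_pr.Zd
open Pool.Agent.Lib.IICQ
open Pool.MP_06caae_pr (percolation Connected twoPoint TriangleCondition IsCylinder IsIICLaw)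

namespace Pool.Agent.Lib.MP_06caae_pr

section
variable {d : ℕ} {p : unitInterval} {ν : Measure (Set (Ed d))}

/-- the estimates for the IIC from the estimates for finite percolation -/
theorem iicGood_typ (hν : IsIIC p ν) (hp : 0 < (p : ℝ)) (hd : 0 < d) {C C1 C2 : ℝ} (hC : 0 ≤ C) (hC1 : 1 ≤ C1) (hC2 : 0 ≤ C2)
    (hmom : ∀ (E : Finset (Ed d)) (r : ℕ), 1 ≤ r → EE (p : ℝ) E (fun S => (vol S (0 : V d) r : ℝ) ^ 2) ≤ C * (r : ℝ) ^ 3)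
    (hG : ∀ r : ℕ, 1 ≤ r → GG d p r ≤ C1 * r) (hG' : ∀ r : ℕ, (r : ℝ) + 1 ≤ GG d p r)
    (harm : ∀ (E' : Finset (Ed d)) (u : V d) (s : ℕ), 1 ≤ s → PE (p : ℝ) E' {S | (sph S u s).Nonempty} ≤ C2 / s)
    {c₀ K₁ K₀ : ℝ}
    (g1 : ∀ η : ℝ, 0 < η → η ≤ 1 → ∃ s₀ : ℝ, ∀ (r : ℕ) (s : ℝ), s₀ ≤ r → s₀ ≤ s → η * r ≤ TT d p r s →
      ∀ R : ℕ, K₁ / η * r ≤ R → c₀ * R ≤ TT d p R (s / 3))
    (g2 : ∃ s₁ : ℝ, ∀ (r : ℕ) (s : ℝ), s₁ ≤ r → s₁ ≤ s → c₀ * r ≤ TT d p r s →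
      ∀ R : ℕ, K₀ * r ≤ R → c₀ * R ≤ TT d p R (2 * s))
    (hreach : ∃ c₃ : ℝ, 0 < c₃ ∧ ∃ s₂ : ℝ, ∀ (r : ℕ) (s : ℝ), s₂ ≤ r → s₂ ≤ s → c₀ * r ≤ TT d p r s →
      c₃ ≤ ν.real {S | s / 3 ≤ (rad S (0 : V d) (3 * r) : ℝ)}) :
    ∃ a : ℕ → ℝ, (∀ R, 0 < a R) ∧ Monotone a ∧ Tendsto a atTop atTop ∧
      (∃ K : ℝ, 0 < K ∧ ∀ r : ℕ, 1 ≤ r → a (2 * r) ≤ K * a r) ∧ Typ d p c₀ a ∧ IICGood ν a := by
  have hp1 := p.2.2
  have hT := transfer_iic hν hp hd hC hmom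
  have hpi := piData hd hp.le hp1 hC1 hG hG'
  obtain ⟨a, ha0, ham, hat, hadbl, htyp, hext, hfar⟩ := scale_typ hp.le hp1 hpi hC2 harm g1 g2 hT hreach
  have hlow := fun lam q hlam hq ε hε => low_nu hp.le hp1 (zero_le_one.trans hC1) hC2 hG harm hT lam q hlam hq ε hε
  refine ⟨a, ha0, ham, hat, hadbl, htyp, ?_, ?_, hlow, ?_, ?_, hext, hfar⟩
  · exact iic_deg hν hd
  · intro ε hε
    refine ⟨3 * C / ε + 1, 1, fun R hR => (iic_up hν hp hd hC hmom hR (by positivity)).trans ?_⟩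
    rw [div_le_iff₀ (by positivity)]
    have : ε * (3 * C / ε + 1) = 3 * C + ε := by field_simp
    rw [this]
    linarith
  · intro lam q hlam hq ε hε
    exact iic_lane hν hp hd hC (zero_le_one.trans hC1) hC2 hmom hG harm hlow lam q hlam hq ε hε
  · intro ε hε
    obtain ⟨M, hMdef⟩ : ∃ M, M = 8 * C * C1 * C2 / ε ^ 2 + 1 := ⟨_, rfl⟩
    have hM : 0 < M := by rw [hMdef]; positivity
    refine ⟨M, 2, fun R hR => (iic_lane0 hν hp hd hC (zero_le_one.trans hC1) hC2 hmom hG harm hR hM).trans ?_⟩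
    rw [Real.sqrt_le_iff]
    refine ⟨hε.le, ?_⟩
    rw [div_le_iff₀ hM, hMdef]
    have : ε ^ 2 * (8 * C * C1 * C2 / ε ^ 2 + 1) = 8 * C * C1 * C2 + ε ^ 2 := by field_simp
    rw [this]
    nlinarith

end

variable {d : ℕ}

/-- the estimates for the IIC, and the order of the scale -/
theorem iic_typ {q : unitInterval} (hS : Std d (q : ℝ)) {ν : Measure (Set (Ed d))}
    (hν : IsIIC q ν) :
    ∃ a : ℕ → ℝ, (∀ R, 0 < a R) ∧ Monotone a ∧ Tendsto a atTop atTop ∧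
      (∃ K : ℝ, 0 < K ∧ ∀ r : ℕ, 1 ≤ r → a (2 * r) ≤ K * a r) ∧ (∃ c₀ : ℝ, 0 < c₀ ∧ Typ d q c₀ a) ∧ IICGood ν a := by
  have hp0 := q.2.1
  have hp1 := q.2.2
  have hq := hS.hp0
  have hd := hS.hd
  obtain ⟨C₁, hC₁, hG⟩ := G_up hS
  obtain ⟨C₂, hC₂, harm⟩ := hS.arm
  obtain ⟨c₀, hc₀, g1, K₀, g2⟩ := growth_both hd hq hp1 hS.tri hC₁ hG (G_low hS) (three hS)
  obtain ⟨X, hX1, _, hX3⟩ := avg_sets hS
  have hX : AvSets (q : ℝ) X := ⟨hX1, fun f _ L _ hf => hX3 f L hf⟩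
  obtain ⟨a, h1, h2, h3, h4, h5, h6⟩ := iicGood_typ hν hq hd (C := C₁ ^ 3) (by positivity) hC₁ hC₂.le
    (fun E r hr => mom2 hp0 hp1 hG E 0 hr) hG (G_low hS) harm g1 g2 (reachI hν hq hd hS.tri hX hG hc₀)
  exact ⟨a, h1, h2, h3, h4, ⟨c₀, hc₀, h5⟩, h6⟩

/-- all percolation estimates at the critical point, and the order of the scale -/
theorem iic_typ_scale (hd : 0 < d) {p : unitInterval} (hp : (p : ℝ) = criticalProbability d)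
    (hT : TriangleCondition d p) {ν : Measure (Set (Ed d))} (hν : IsIICLaw p ν) :
    Std d (p : ℝ) ∧ ∃ a : ℕ → ℝ, (∀ R, 0 < a R) ∧ Monotone a ∧ Tendsto a atTop atTop ∧
      (∃ K : ℝ, 0 < K ∧ ∀ r : ℕ, 1 ≤ r → a (2 * r) ≤ K * a r) ∧ (∃ c₀ : ℝ, 0 < c₀ ∧ Typ d p c₀ a) ∧ IICGood ν a := by
  have hT' := tri_of hT
  have hS : Std d (p : ℝ) := by
    rw [hp] at hT' ⊢
    exact std_crit hd hT'
  exact ⟨hS, iic_typ hS (isIIC_of hν)⟩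

end Pool.Agent.Lib.MP_06caae_pr
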