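import Pool.Agent.Lib.MP_06caae_pr.G.FarOne

/-!
# The reach of the ball with probability near one, in the form of the environment
-/

open Finset SimpleGraph MeasureTheory Filter Topology
open Pool.Agent.Lib.MP_566bac_pr.Zd
open Pool.Agent.Lib.IICQ

namespace Pool.Agent.Lib.MP_06caae_pr

variable {d : ℕ}

/-- the input of `EnvGood.nondeg_all_one` -/
theorem far_env {ν : Measure (Set (Ed d))} (hν : IsProbabilityMeasure ν) {a : ℕ → ℝ}
    (h : ∀ ε > (0 : ℝ), ∃ c > (0 : ℝ), ∃ R0 : ℕ, ∀ R ≥ R0, ν.real {S | (rad S (0 : V d) R : ℝ) < c * a R} ≤ ε) :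
    ∀ ε > (0 : ℝ), ∃ C : ℕ, 1 ≤ C ∧ ∃ c > (0 : ℝ), ∃ R0 : ℕ, ∀ R ≥ R0,
      1 - ε ≤ ν.real {S : Set (Ed d) | ∃ y ∈ (grS S).bl (0 : V d) (C * R), c * a R ≤ (dst (0 : V d) y : ℝ)} := by
  intro ε hε
  obtain ⟨c, hc, R0, hR0⟩ := h ε hε
  refine ⟨2, by norm_num, c, hc, R0 + 1, fun R hR => ?_⟩
  have h1 := hR0 R (by omega)
  have h2 : MeasurableSet {S : Set (Ed d) | c * a R ≤ (rad S (0 : V d) R : ℝ)} := (loc_rad (0 : V d) R (c * a R)).meas
  have h3 : {S : Set (Ed d) | (rad S (0 : V d) R : ℝ) < c * a R} = {S : Set (Ed d) | c * a R ≤ (rad S (0 : V d) R : ℝ)}ᶜ := by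
    ext S
    simp only [Set.mem_ofPred_eq, Set.mem_compl_iff, not_le]
  rw [h3, probReal_compl_eq_one_sub h2] at h1
  have h4 : 1 - ε ≤ ν.real {S : Set (Ed d) | c * a R ≤ (rad S (0 : V d) R : ℝ)} := by linarith
  refine h4.trans (measureReal_mono ?_)
  intro S hS
  obtain ⟨y, hy, hyr⟩ := exists_rad S (0 : V d) R
  refine ⟨y, ?_, ?_⟩
  · have h5 : y ∈ (grS S).bl 0 (R + 1) := by rw [bl_eq_ball]; exact hy
    exact (grS S).bl_mono 0 (by omega) h5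
  · show c * a R ≤ (dst (0 : V d) y : ℝ)
    rw [hyr]
    exact hS

end Pool.Agent.Lib.MP_06caae_pr
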