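import Pool.Agent.Lib.MP_06caae_pr.G.Sqrt

/-!
# The reach of the ball with probability near one

under an upper bound for the two-point function
-/

open Finset SimpleGraph MeasureTheory Filter Topology
open Pool.Agent.Lib.MP_566bac_pr.Zd
open Pool.Agent.Lib.IICQ

namespace Pool.Agent.Lib.MP_06caae_pr

variable {d : ℕ}

/-- if the sum of the two-point function over the box of radius `n` is at most `A n ^ 2`, a large ball is not contained in
a small box -/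
lemma PE_small {p : unitInterval} {A v : ℝ} (hv : 0 < v) {R n : ℕ} (hR : 1 ≤ R)
    (hA : ∑ y ∈ (Lam 0 n : Finset (V d)), tau (p : ℝ) y ≤ A * (n : ℝ) ^ 2) (E : Finset (Ed d)) :
    (R : ℝ) * PE (p : ℝ) E {S | S ∈ {S : Set (Ed d) | v * (R : ℝ) ^ 2 ≤ (vol S (0 : V d) R : ℝ) ∧ rad S (0 : V d) R ≤ n} ∧
      (sph S (0 : V d) R).Nonempty} ≤ A * (n : ℝ) ^ 2 / (v * R) := by
  classical
  have hp0 := p.2.1
  have hp1 := p.2.2
  have hR0 : (0 : ℝ) < R := by exact_mod_cast hR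
  set K : Set (Set (Ed d)) := {S | S ∈ {S : Set (Ed d) | v * (R : ℝ) ^ 2 ≤ (vol S (0 : V d) R : ℝ) ∧
    rad S (0 : V d) R ≤ n} ∧ (sph S (0 : V d) R).Nonempty} with hK
  have h1 : PE (p : ℝ) E K * (v * (R : ℝ) ^ 2) ≤ ∑ y ∈ (Lam 0 n : Finset (V d)), tau (p : ℝ) y := by
    have h2 : PE (p : ℝ) E K * (v * (R : ℝ) ^ 2) = EE (p : ℝ) E (fun S => ind (S ∈ K) * (v * (R : ℝ) ^ 2)) := by
      unfold EE Ex
      unfold PE
      rw [← Ex_ind]
      unfold Ex
      rw [sum_mul]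
      refine sum_congr rfl fun ω _ => ?_
      ring
    rw [h2]
    have h3 : EE (p : ℝ) E (fun S => ind (S ∈ K) * (v * (R : ℝ) ^ 2)) ≤
        EE (p : ℝ) E (fun S => ∑ y ∈ (Lam 0 n : Finset (V d)), ind (Con S 0 y)) := by
      refine Ex_mono (wt_p hp0 hp1) fun S => ?_
      by_cases hS : S ∈ K
      · rw [ind_true hS, one_mul]
        obtain ⟨⟨h4, h5⟩, _⟩ := hS
        refine h4.trans ?_
        have h6 : ball S (0 : V d) R ⊆ (Lam 0 n : Finset (V d)).filter (fun y => Con S 0 y) := by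
          intro y hy
          rw [mem_filter, mem_Lam, dst_comm]
          exact ⟨(dst_le_rad hy).trans h5, (mem_ball.1 hy).con⟩
        have h7 := card_le_card h6
        have h8 : ∑ y ∈ (Lam 0 n : Finset (V d)), ind (Con S 0 y) =
            (((Lam 0 n : Finset (V d)).filter (fun y => Con S 0 y)).card : ℝ) := by
          unfold ind
          rw [← sum_filter, sum_const, nsmul_eq_mul, mul_one]
        rw [h8]
        unfold vol
        exact_mod_cast h7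
      · rw [ind_false hS, zero_mul]
        exact sum_nonneg fun y _ => ind_nonneg _
    refine h3.trans ?_
    unfold EE
    rw [Ex_sum]
    refine sum_le_sum fun y _ => ?_
    have h4 := Ex_ind (fun _ => (p : ℝ)) E {S : Set (Ed d) | Con S 0 y}
    have h5 := PE_le_tau0 hp0 hp1 E y
    unfold PE at h5
    rw [← h4] at h5
    exact h5
  have h2 := h1.trans hA
  rw [le_div_iff₀ (by positivity)]
  calc (R : ℝ) * PE (p : ℝ) E K * (v * R) = PE (p : ℝ) E K * (v * (R : ℝ) ^ 2) := by ring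
    _ ≤ _ := h2

/-- the reach of the ball, with probability near one -/
theorem far_one {p : unitInterval} {ν : Measure (Set (Ed d))} (hν : IsIIC p ν) (hS : Std d (p : ℝ)) {a : ℕ → ℝ}
    (ha : ∀ R, 0 < a R) (hat : Tendsto a atTop atTop) (hgood : IICGood ν a) {C : ℝ} (hC : 0 ≤ C)
    (h : ∀ x : V d, x ≠ 0 → tau (p : ℝ) x ≤ C * (dst 0 x : ℝ) ^ (2 - (d : ℝ)))
    (hale : ∃ K : ℝ, 0 < K ∧ ∃ R₀ : ℕ, ∀ R ≥ R₀, a R ≤ K * √(R : ℝ)) :
    ∀ ε > (0 : ℝ), ∃ c > (0 : ℝ), ∃ R0 : ℕ, ∀ R ≥ R0, ν.real {S | (rad S (0 : V d) R : ℝ) < c * a R} ≤ ε := by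
  intro ε hε
  have hprob := hν.prob
  have hp0 := p.2.1
  have hp1 := p.2.2
  have hp := hS.hp0
  have hd := hS.hd
  obtain ⟨C₁, hC₁, hG⟩ := G_up hS
  obtain ⟨K₀, hK₀, hT⟩ := transfer_iic hν hp hd (C := C₁ ^ 3) (by positivity) (fun E r hr => mom2 hp0 hp1 hG E 0 hr)
  obtain ⟨v, hv, R₁, hR₁⟩ := hgood.low 1 1 le_rfl le_rfl (ε / 2) (by positivity)
  obtain ⟨K, hK, R₂, hR₂⟩ := hale
  obtain ⟨A, hA⟩ : ∃ A : ℝ, A = (3 ^ d + 4 * C * 5 ^ d) * 4 := ⟨_, rfl⟩
  have hA0 : 0 < A := by rw [hA]; positivity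
  obtain ⟨c, hc⟩ : ∃ c : ℝ, c = ε / 2 / (K₀ * (√(A / v) * K)) := ⟨_, rfl⟩
  have hc0 : 0 < c := by rw [hc]; positivity
  obtain ⟨R₃, hR₃⟩ := eventually_atTop.1 (hat.eventually_ge_atTop (1 / c))
  refine ⟨c, hc0, max (max R₁ R₂) (max R₃ 1), fun R hR => ?_⟩
  have hRa : R₁ ≤ R := ((le_max_left _ _).trans (le_max_left _ _)).trans hR
  have hRb : R₂ ≤ R := ((le_max_right _ _).trans (le_max_left _ _)).trans hR
  have hRc : R₃ ≤ R := ((le_max_left _ _).trans (le_max_right _ _)).trans hR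
  have hR1 : 1 ≤ R := ((le_max_right _ _).trans (le_max_right _ _)).trans hR
  have hR0 : (0 : ℝ) < R := by exact_mod_cast hR1
  have haR := ha R
  have haK := hR₂ R hRb
  have hca : 1 ≤ c * a R := by
    have h1 := hR₃ R hRc
    rw [div_le_iff₀ hc0] at h1
    linarith
  obtain ⟨n, hn⟩ : ∃ n : ℕ, n = ⌊c * a R⌋₊ := ⟨_, rfl⟩
  have hn1 : 1 ≤ n := by
    rw [hn]
    apply Nat.le_floor
    rw [Nat.cast_one]
    exact hca
  have hn2 : (n : ℝ) ≤ c * a R := by
    rw [hn]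
    exact Nat.floor_le (by positivity)
  have hsum := sum_tau_sq hC h hn1
  rw [← hA] at hsum
  set L : Set (Set (Ed d)) := {S : Set (Ed d) | v * (R : ℝ) ^ 2 ≤ (vol S (0 : V d) R : ℝ) ∧ rad S (0 : V d) R ≤ n} with hL
  have hBD : BDet (0 : V d) R L := by
    have h1 := bdet_vol (0 : V d) R fun m => v * (R : ℝ) ^ 2 ≤ (m : ℝ)
    have h2 := bdet_rad (0 : V d) R ((n : ℝ) + 1)
    intro S S' hSS
    have h3 := h1 S S' hSS
    have h4 := h2 S S' hSS
    simp only [Set.mem_ofPred_eq] at h3 h4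
    show (v * (R : ℝ) ^ 2 ≤ (vol S (0 : V d) R : ℝ) ∧ rad S (0 : V d) R ≤ n) ↔
      (v * (R : ℝ) ^ 2 ≤ (vol S' (0 : V d) R : ℝ) ∧ rad S' (0 : V d) R ≤ n)
    have h5 : ∀ m : ℕ, ((n : ℝ) + 1 ≤ (m : ℝ)) ↔ ¬ m ≤ n := by
      intro m
      rw [not_le]
      constructor
      · intro h6
        have h7 : n + 1 ≤ m := by exact_mod_cast h6
        omega
      · intro h6
        exact_mod_cast Nat.succ_le_of_lt h6
    rw [h5, h5, not_iff_not] at h4
    rw [h3, h4]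
  have hog : ∀ S S' : Set (Ed d), openGraph S = openGraph S' → S ∈ L → S' ∈ L := by
    intro S S' hSS hSL
    have h1 : ball S (0 : V d) R = ball S' (0 : V d) R := by
      ext y
      rw [mem_ball, mem_ball]
      unfold Rch
      rw [hSS]
    obtain ⟨h2, h3⟩ := hSL
    refine ⟨?_, ?_⟩
    · unfold vol at h2 ⊢
      rwa [← h1]
    · unfold rad at h3 ⊢
      rwa [← h1]
  obtain ⟨E, hE⟩ := hT R hR1 L hBD hog
  have h1 := PE_small (p := p) hv hR1 hsum E
  have h2 : ν.real L ≤ ε / 2 := by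
    refine hE.trans ?_
    have h3 : √((R : ℝ) * PE (p : ℝ) E {S | S ∈ L ∧ (sph S (0 : V d) R).Nonempty}) ≤ √(A / v) * (K * c) := by
      refine (Real.sqrt_le_sqrt h1).trans ?_
      have h4 : A * (n : ℝ) ^ 2 / (v * R) ≤ A / v * (K * c) ^ 2 := by
        have h5 : (n : ℝ) ^ 2 ≤ (c * (K * √(R : ℝ))) ^ 2 := by
          apply pow_le_pow_left₀ (Nat.cast_nonneg n)
          exact hn2.trans (mul_le_mul_of_nonneg_left haK hc0.le)
        rw [mul_pow, mul_pow, Real.sq_sqrt hR0.le] at h5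
        rw [div_le_iff₀ (by positivity)]
        calc A * (n : ℝ) ^ 2 ≤ A * (c ^ 2 * (K ^ 2 * R)) := mul_le_mul_of_nonneg_left h5 hA0.le
          _ = A / v * (K * c) ^ 2 * (v * R) := by field_simp
      refine (Real.sqrt_le_sqrt h4).trans (le_of_eq ?_)
      rw [Real.sqrt_mul (by positivity), Real.sqrt_sq (by positivity)]
    calc K₀ * √((R : ℝ) * PE (p : ℝ) E {S | S ∈ L ∧ (sph S (0 : V d) R).Nonempty}) ≤ K₀ * (√(A / v) * (K * c)) :=
          mul_le_mul_of_nonneg_left h3 hK₀.le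
      _ = ε / 2 := by
        rw [hc]
        have h5 : 0 < √(A / v) := Real.sqrt_pos.2 (by positivity)
        field_simp
  have h3 : {S : Set (Ed d) | (rad S (0 : V d) R : ℝ) < c * a R} ⊆
      {S | ∃ z ∈ ball S (0 : V d) (1 * R), (vol S z (R / 1) : ℝ) < v * (R : ℝ) ^ 2} ∪ L := by
    intro S hSr
    by_cases h4 : (vol S (0 : V d) R : ℝ) < v * (R : ℝ) ^ 2
    · refine Or.inl ⟨0, self_mem_ball S 0 _, ?_⟩
      rwa [Nat.div_one]
    · refine Or.inr ⟨not_lt.1 h4, ?_⟩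
      rw [hn]
      exact Nat.le_floor (le_of_lt hSr)
  refine (measureReal_mono h3).trans ((measureReal_union_le _ _).trans ?_)
  have h4 := hR₁ R hRa
  linarith

end Pool.Agent.Lib.MP_06caae_pr
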