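import Pool.Agent.Lib.MP_06caae_pr.Q.Good
import Pool.Agent.Lib.MP_06caae_pr.G.Defs

/-!
# Cylinder probabilities of the walk, and the annealed law is determined by them

PROOF. `cyl_prob`: induction on `n`, generalizing `x`: `IsRW.step` for `A = {w | ∀ i ≤ n + 1, w i = x i}`; for `y` the set
`{w | cns (x 0) w ∈ A}` is `{w | ∀ i ≤ n, w i = x (i + 1)}`, which has `P y`-measure `0` if `y ≠ x 1` (`IsRW.start`) and the
value of the induction hypothesis for `fun i => x (i + 1)` if `y = x 1`; `G.av` of a function which vanishes off `x 1`.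
`annealed`: for almost every `S` the origin is not isolated (`hdeg`), and then the product of the `stepQ` along a path
which starts at `0` is the product of the `stepProb`: if all `stepQ` before `i` are nonzero, `x i` is `0` or has the neighbour
`x (i - 1)`, so it is not isolated; at a vertex which is not isolated `stepQ = stepProb`.
(`(openGraph S).neighborSet x` = `(grS S).nb x` as sets.) `Q.real A = ∫ (P S 0).real A dν` from `hA`.
`ext_path`: the sets `{w | ∀ i ≤ n, w i = x i}` and `∅` form a pi-system which generates the sigma-algebra of `ℕ → V d`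
(the space is countable in each coordinate: `MeasurableSpace.pi`, the preimages `{w | w i = v}` are countable unions of such
sets); `ext_of_generate_finite`. If `x 0 ≠ 0` both measures give `0`.
-/

open Finset SimpleGraph MeasureTheory
open Pool.Agent.Lib.MP_566bac_pr.Zd
open Pool.Agent.Lib.IICQ

namespace Pool.Agent.Lib.MP_06caae_pr

variable {d : ℕ}

open Classical in
/-- transition probability, the walk stays at an isolated vertex -/
noncomputable def stepQ (S : Set (Ed d)) (x y : V d) : ℝ :=
  if (grS S).nb x = ∅ then (if x = y then 1 else 0) else (if y ∈ (grS S).nb x then 1 / (grS S).dg x else 0)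

lemma meas_cyl (n : ℕ) (x : ℕ → V d) : MeasurableSet {w : ℕ → V d | ∀ i ≤ n, w i = x i} :=
  meas_dep n fun w w' h hw i hi => by rw [← h i hi]; exact hw i hi

/-- cylinder probabilities of the walk -/
theorem cyl_prob {S : Set (Ed d)} {P : V d → Measure (ℕ → V d)} (hP : IsRW (grS S) P) (n : ℕ) (x : ℕ → V d) :
    (P (x 0)).real {w | ∀ i ≤ n, w i = x i} = ∏ i ∈ range n, stepQ S (x i) (x (i + 1)) := by
  classical
  induction n generalizing x with
  | zero =>
    rw [range_zero, prod_empty, ← hP.start (x 0)]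
    congr 1
    ext w
    simp
  | succ n ih =>
    rw [hP.step (x 0) _ (meas_cyl (n + 1) x), prod_range_succ']
    set c : ℝ := ∏ i ∈ range n, stepQ S (x (i + 1)) (x (i + 1 + 1)) with hc
    have h1 : ∀ y : V d, (P y).real {w | cns (x 0) w ∈ {w : ℕ → V d | ∀ i ≤ n + 1, w i = x i}} =
        if y = x 1 then c else 0 := by
      intro y
      have := hP.prob y
      have e1 : {w | cns (x 0) w ∈ {w : ℕ → V d | ∀ i ≤ n + 1, w i = x i}} =
          {w : ℕ → V d | ∀ i ≤ n, w i = x (i + 1)} := by
        ext w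
        simp only [Set.mem_ofPred_eq]
        constructor
        · intro h i hi
          exact h (i + 1) (by omega)
        · intro h i hi
          cases i with
          | zero => rfl
          | succ i => exact h i (by omega)
      rw [e1]
      split_ifs with hy
      · subst hy
        exact ih fun i => x (i + 1)
      · rw [← hP.inter_start y]
        have e2 : {w : ℕ → V d | ∀ i ≤ n, w i = x (i + 1)} ∩ {w | w 0 = y} = ∅ := by
          rw [Set.eq_empty_iff_forall_notMem]
          rintro w ⟨h2, h3⟩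
          have h4 := h2 0 (Nat.zero_le n)
          have h5 : w 0 = y := h3
          rw [h5] at h4
          exact hy h4
        rw [e2]
        simp
    rw [Gr.av_congr h1]
    unfold Gr.av stepQ
    by_cases hnb : (grS S).nb (x 0) = ∅
    · rw [if_pos hnb, if_pos hnb]
      show (if x 0 = x 1 then c else 0) = _
      by_cases h2 : x 0 = x 1
      · rw [if_pos h2, if_pos h2, mul_one]
      · rw [if_neg h2, if_neg h2, mul_zero]
    · rw [if_neg hnb, if_neg hnb, Finset.sum_ite_eq']
      by_cases h2 : x 1 ∈ (grS S).nb (x 0)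
      · rw [if_pos h2, if_pos h2]
        ring
      · rw [if_neg h2, if_neg h2]
        simp

/-- the two forms of the transition probabilities along a path from a vertex which is not isolated -/
lemma prod_step {S : Set (Ed d)} (h0 : (grS S).nb (0 : V d) ≠ ∅) {x : ℕ → V d} (hx : x 0 = 0) (n : ℕ) :
    (∏ i ∈ range n, stepQ S (x i) (x (i + 1)) =
      ∏ i ∈ range n, Pool.MP_06caae_pr.stepProb S (x i) (x (i + 1))) ∧
    (∏ i ∈ range n, stepQ S (x i) (x (i + 1)) ≠ 0 → (grS S).nb (x n) ≠ ∅) := by
  classical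
  induction n with
  | zero =>
    refine ⟨rfl, fun _ => ?_⟩
    rw [hx]
    exact h0
  | succ n ih =>
    obtain ⟨ih1, ih2⟩ := ih
    rw [prod_range_succ, prod_range_succ, ← ih1]
    by_cases h1 : ∏ i ∈ range n, stepQ S (x i) (x (i + 1)) = 0
    · rw [h1, zero_mul, zero_mul]
      exact ⟨rfl, fun h => absurd rfl h⟩
    have h2 := ih2 h1
    have h3 : stepQ S (x n) (x (n + 1)) = Pool.MP_06caae_pr.stepProb S (x n) (x (n + 1)) := by
      unfold stepQ Pool.MP_06caae_pr.stepProb
      rw [if_neg h2]
      have e1 : x (n + 1) ∈ (grS S).nb (x n) ↔ (openGraph S).Adj (x n) (x (n + 1)) := mem_nb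
      have e2 : (openGraph S).neighborSet (x n) = ((grS S).nb (x n) : Set (V d)) := by
        ext y
        rw [SimpleGraph.mem_neighborSet, Finset.mem_coe, mem_nb]
        exact Iff.rfl
      have e3 : (((openGraph S).neighborSet (x n)).ncard : ℝ) = (grS S).dg (x n) := by
        rw [e2, Set.ncard_coe_finset]
        rfl
      rw [e3]
      by_cases h4 : x (n + 1) ∈ (grS S).nb (x n)
      · rw [if_pos h4, if_pos (e1.1 h4)]
      · rw [if_neg h4, if_neg fun h => h4 (e1.2 h)]
    refine ⟨by rw [h3], fun h => ?_⟩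
    have h4 := right_ne_zero_of_mul h
    unfold stepQ at h4
    rw [if_neg h2] at h4
    have h5 : x (n + 1) ∈ (grS S).nb (x n) := by
      by_contra hcon
      rw [if_neg hcon] at h4
      exact h4 rfl
    exact Finset.ne_empty_of_mem ((grS S).symm _ _ h5)

/-- the measure `∫ P S 0 dν(S)` is an annealed law -/
theorem annealed {ν : Measure (Set (Ed d))} (hν : IsProbabilityMeasure ν) (hdeg : ν.real {S | (grS S).nb (0 : V d) = ∅} = 0)
    {P : Set (Ed d) → V d → Measure (ℕ → V d)} (hP : ∀ S, IsRW (grS S) (P S))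
    (hm : ∀ A : Set (ℕ → V d), MeasurableSet A → Measurable fun S => P S 0 A) {Pa : Measure (ℕ → V d)}
    (hA : ∀ A, MeasurableSet A → Pa A = ∫⁻ S, P S 0 A ∂ν) : Pool.MP_06caae_pr.IsAnnealedLaw ν Pa := by
  refine ⟨⟨?_⟩, ?_⟩
  · rw [hA _ MeasurableSet.univ]
    have h1 : ∀ S, P S 0 Set.univ = 1 := fun S => ((hP S).prob 0).measure_univ
    simp only [h1, lintegral_one]
    exact hν.measure_univ
  · intro n x hx
    have hfin : ∀ S, P S 0 {w | ∀ i ≤ n, w i = x i} < ⊤ := fun S => by
      have := (hP S).prob 0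
      exact measure_lt_top _ _
    have h1 : Pa.real {w | ∀ i ≤ n, w i = x i} = ∫ S, (P S 0).real {w | ∀ i ≤ n, w i = x i} ∂ν := by
      unfold Measure.real
      rw [hA _ (meas_cyl n x), integral_toReal (hm _ (meas_cyl n x)).aemeasurable (Filter.Eventually.of_forall hfin)]
    rw [h1]
    refine integral_congr_ae ?_
    have h2 : ν {S | (grS S).nb (0 : V d) = ∅} = 0 := by
      have h3 := (measureReal_eq_zero_iff (measure_ne_top ν _)).1 hdeg
      exact h3
    have h4 : ∀ᵐ S ∂ν, (grS S).nb (0 : V d) ≠ ∅ := by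
      rw [ae_iff]
      simpa using h2
    filter_upwards [h4] with S hS
    have h5 := cyl_prob (hP S) n x
    rw [hx] at h5
    rw [h5]
    exact (prod_step hS hx n).1

/-- the path starts at the origin -/
lemma start_ae {ν : Measure (Set (Ed d))} (hν : IsProbabilityMeasure ν) {Q : Measure (ℕ → V d)}
    (hR : Pool.MP_06caae_pr.IsAnnealedLaw ν Q) : ∀ᵐ w ∂Q, w 0 = (0 : V d) := by
  have := hR.prob
  have h1 := hR.cyl 0 (fun _ => 0) rfl
  simp only [range_zero, prod_empty, integral_const, probReal_univ, smul_eq_mul, mul_one] at h1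
  have h2 : Q.real {w : ℕ → V d | ∀ i ≤ 0, w i = (fun _ => 0 : ℕ → V d) i}ᶜ = 0 := by
    rw [measureReal_compl (meas_cyl 0 (fun _ => 0)), h1, probReal_univ, sub_self]
  have h3 := (measureReal_eq_zero_iff (measure_ne_top Q _)).1 h2
  rw [ae_iff]
  refine measure_mono_null ?_ h3
  intro w hw hw2
  exact hw (hw2 0 le_rfl)

/-- the cylinder sets generate -/
lemma gen_cyl (d : ℕ) : (MeasurableSpace.pi : MeasurableSpace (ℕ → V d)) =
    MeasurableSpace.generateFrom {A | ∃ (n : ℕ) (x : ℕ → V d), A = {w | ∀ i ≤ n, w i = x i}} := by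
  apply le_antisymm
  · refine iSup_le fun i => ?_
    rintro A ⟨s, -, rfl⟩
    -- prefixes
    have h1 : (fun w : ℕ → V d => w i) ⁻¹' s =
        ⋃ q ∈ {q : Fin (i + 1) → V d | q (Fin.last i) ∈ s}, {w : ℕ → V d | ∀ j ≤ i, w j =
          (fun k => if h : k < i + 1 then q ⟨k, h⟩ else 0) j} := by
      ext w
      simp only [Set.mem_preimage, Set.mem_iUnion, Set.mem_ofPred_eq, exists_prop]
      constructor
      · intro hw
        refine ⟨fun j => w j, hw, fun j hj => ?_⟩
        rw [dif_pos (by omega)]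
      · rintro ⟨q, hq, h⟩
        have h2 := h i le_rfl
        rw [dif_pos (by omega)] at h2
        rw [h2]
        exact hq
    rw [h1]
    refine MeasurableSet.biUnion (Set.to_countable _) fun q _ => ?_
    exact MeasurableSpace.measurableSet_generateFrom ⟨i, _, rfl⟩
  · refine MeasurableSpace.generateFrom_le ?_
    rintro A ⟨n, x, rfl⟩
    exact meas_cyl n x

/-- the annealed law is unique -/
theorem ext_path {ν : Measure (Set (Ed d))} (hν : IsProbabilityMeasure ν) {Q Q' : Measure (ℕ → V d)}
    (h : Pool.MP_06caae_pr.IsAnnealedLaw ν Q) (h' : Pool.MP_06caae_pr.IsAnnealedLaw ν Q') : Q = Q' := by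
  have i1 := h.prob
  have i2 := h'.prob
  have key : ∀ R : Measure (ℕ → V d), Pool.MP_06caae_pr.IsAnnealedLaw ν R → ∀ (n : ℕ) (x : ℕ → V d), x 0 ≠ 0 →
      R.real {w | ∀ i ≤ n, w i = x i} = 0 := by
    intro R hR n x hx
    have := hR.prob
    have h1 := start_ae hν hR
    rw [ae_iff] at h1
    rw [measureReal_eq_zero_iff (measure_ne_top R _)]
    refine measure_mono_null ?_ h1
    intro w hw hw2
    have h3 : w 0 = x 0 := hw 0 (Nat.zero_le n)
    have h4 : w 0 = 0 := hw2
    exact hx (h3.symm.trans h4)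
  refine ext_of_generate_finite _ (gen_cyl d) ?_ ?_ ?_
  · rintro A ⟨n, x, rfl⟩ B ⟨m, y, rfl⟩ hne
    obtain ⟨w, hw1, hw2⟩ := hne
    refine ⟨max n m, w, ?_⟩
    ext w'
    constructor
    · rintro ⟨h1, h2⟩ i hi
      rcases le_max_iff.1 hi with h3 | h3
      · rw [h1 i h3, hw1 i h3]
      · rw [h2 i h3, hw2 i h3]
    · intro h1
      refine ⟨fun i hi => ?_, fun i hi => ?_⟩
      · rw [h1 i (hi.trans (le_max_left _ _)), hw1 i hi]
      · rw [h1 i (hi.trans (le_max_right _ _)), hw2 i hi]
  · rintro A ⟨n, x, rfl⟩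
    have h1 : Q.real {w | ∀ i ≤ n, w i = x i} = Q'.real {w | ∀ i ≤ n, w i = x i} := by
      by_cases hx : x 0 = 0
      · rw [h.cyl n x hx, h'.cyl n x hx]
      · rw [key Q h n x hx, key Q' h' n x hx]
    exact (ENNReal.toReal_eq_toReal_iff' (measure_ne_top _ _) (measure_ne_top _ _)).1 h1
  · rw [i1.measure_univ, i2.measure_univ]

/-- the mixture of a measurable family of laws -/
theorem exists_mix {ν : Measure (Set (Ed d))} (_hν : IsProbabilityMeasure ν) {P : Set (Ed d) → V d → Measure (ℕ → V d)}
    (_hP : ∀ S, IsRW (grS S) (P S)) (hm : ∀ A : Set (ℕ → V d), MeasurableSet A → Measurable fun S => P S 0 A) :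
    ∃ Pa : Measure (ℕ → V d), ∀ A, MeasurableSet A → Pa A = ∫⁻ S, P S 0 A ∂ν :=
  ⟨ν.bind fun S => P S 0, fun _ hA =>
    Measure.bind_apply hA (Measure.measurable_of_measurable_coe _ fun s hs => hm s hs).aemeasurable⟩

end Pool.Agent.Lib.MP_06caae_pr
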