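import Pool.Agent.Lib.MP_06caae_pr.Q.Good

/-!
# Existence of the walk in the environment `S`, measurable in `S`

Let `M = (2 d)!` and let `lam` be the product of the uniform distributions on `ℕ → Fin M`. From the vertex `y` and the
random number `u` the walk goes to the neighbour with number `u % deg y`.
-/

open Finset SimpleGraph MeasureTheory ProbabilityTheory
open Pool.Agent.Lib.MP_566bac_pr.Zd
open Pool.Agent.Lib.IICQ

namespace Pool.Agent.Lib.MP_06caae_pr

variable {d : ℕ}

/-! ### picking an element of a finite set -/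

/-- the element with number `u % card B` of `B`, `x` if `B` is empty -/
noncomputable def pick {α : Type*} (B : Finset α) (x : α) (u : ℕ) : α := B.toList.getD (u % B.card) x

lemma pick_empty {α : Type*} (x : α) (u : ℕ) : pick (∅ : Finset α) x u = x := by
  simp [pick]

lemma list_sum_getD {α : Type*} (F : α → ℝ) (x : α) (l : List α) :
    ∑ j ∈ range l.length, F (l.getD j x) = (l.map F).sum := by
  induction l with
  | nil => simp
  | cons a l ih =>
    rw [List.length_cons, sum_range_succ', List.map_cons, List.sum_cons, ← ih, add_comm]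
    simp

lemma sum_mod (h : ℕ → ℝ) (D K : ℕ) : ∑ u ∈ range (D * K), h (u % D) = K * ∑ j ∈ range D, h j := by
  induction K with
  | zero => simp
  | succ K ih =>
    rw [mul_add, mul_one, sum_range_add, ih]
    have h1 : ∑ x ∈ range D, h ((D * K + x) % D) = ∑ j ∈ range D, h j := by
      refine sum_congr rfl fun j hj => ?_
      rw [Nat.mul_add_mod, Nat.mod_eq_of_lt (mem_range.1 hj)]
    rw [h1]
    push_cast
    ring

lemma sum_pick {α : Type*} (F : α → ℝ) (B : Finset α) (x : α) {M : ℕ} (hB : B.Nonempty) (hM : B.card ∣ M) :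
    ∑ u ∈ range M, F (pick B x u) = (M : ℝ) / B.card * ∑ y ∈ B, F y := by
  obtain ⟨K, rfl⟩ := hM
  have h1 : ∑ u ∈ range (B.card * K), F (pick B x u) = K * ∑ j ∈ range B.card, F (B.toList.getD j x) :=
    sum_mod (fun j => F (B.toList.getD j x)) B.card K
  have h2 : ∑ j ∈ range B.card, F (B.toList.getD j x) = ∑ y ∈ B, F y := by
    have h3 := list_sum_getD F x B.toList
    rw [length_toList, Finset.sum_map_toList] at h3
    exact h3
  rw [h1, h2]
  have h4 : (B.card : ℝ) ≠ 0 := by
    have := card_pos.2 hB
    positivity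
  push_cast
  field_simp

/-! ### the product measure -/

/-- the measure space of the random numbers -/
lemma cns_map {X : Type*} [MeasurableSpace X] (μ : Measure X) [IsProbabilityMeasure μ] :
    (μ.prod (Measure.infinitePi fun _ : ℕ => μ)).map (fun q : X × (ℕ → X) => cns q.1 q.2) =
      Measure.infinitePi fun _ : ℕ => μ := by
  classical
  have hmeas : Measurable fun q : X × (ℕ → X) => cns q.1 q.2 := by
    rw [measurable_pi_iff]
    intro i
    cases i with
    | zero => exact measurable_fst
    | succ i => exact (measurable_pi_apply i).comp measurable_snd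
  refine Measure.eq_infinitePi _ fun s t ht => ?_
  obtain ⟨n, hn⟩ : ∃ n, s ⊆ range (n + 1) := by
    refine ⟨s.sup id, fun i hi => ?_⟩
    rw [mem_range]
    exact Nat.lt_succ_of_le (le_sup (f := id) hi)
  obtain ⟨T, hT⟩ : ∃ T : ℕ → Set X, ∀ i, T i = if i ∈ s then t i else Set.univ := ⟨_, fun _ => rfl⟩
  have hTm : ∀ i, MeasurableSet (T i) := by
    intro i
    rw [hT]
    split_ifs
    · exact ht i
    · exact MeasurableSet.univ
  have h1 : Set.pi (s : Set ℕ) t = Set.pi (range (n + 1) : Finset ℕ) T := by
    ext w
    simp only [Set.mem_pi, mem_coe]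
    constructor
    · intro h i _
      rw [hT]
      split_ifs with hi
      · exact h i hi
      · trivial
    · intro h i hi
      have := h i (hn hi)
      rwa [hT, if_pos hi] at this
  have h2 : ∏ i ∈ s, μ (t i) = ∏ i ∈ range (n + 1), μ (T i) := by
    rw [← prod_subset hn fun i _ hi => by rw [hT, if_neg hi, measure_univ]]
    refine prod_congr rfl fun i hi => ?_
    rw [hT, if_pos hi]
  rw [h1, h2, Measure.map_apply hmeas (MeasurableSet.pi (Finset.countable_toSet _) fun i _ => hTm i)]
  have h3 : (fun q : X × (ℕ → X) => cns q.1 q.2) ⁻¹' (Set.pi (range (n + 1) : Finset ℕ) T) =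
      T 0 ×ˢ Set.pi (range n : Finset ℕ) (fun i => T (i + 1)) := by
    ext q
    simp only [Set.mem_preimage, Set.mem_pi, mem_coe, mem_range, Set.mem_prod]
    constructor
    · intro h
      exact ⟨h 0 (by omega), fun i hi => h (i + 1) (by omega)⟩
    · rintro ⟨h4, h5⟩ i hi
      cases i with
      | zero => exact h4
      | succ i => exact h5 i (by omega)
  rw [h3, Measure.prod_prod, Measure.infinitePi_pi _ fun i _ => hTm (i + 1), prod_range_succ', mul_comm]

/-! ### the walk as a function of the random numbers -/

/-- the walk from `x` driven by the random numbers `U` -/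
noncomputable def wk {M : ℕ} (S : Set (Ed d)) (x : V d) (U : ℕ → Fin M) : ℕ → V d
  | 0 => x
  | k + 1 => pick ((grS S).nb (wk S x U k)) (wk S x U k) (U k)

lemma wk_cns {M : ℕ} (S : Set (Ed d)) (x : V d) (u : Fin M) (U : ℕ → Fin M) :
    wk S x (cns u U) = cns x (wk S (pick ((grS S).nb x) x u) U) := by
  have h : ∀ k, wk S x (cns u U) (k + 1) = wk S (pick ((grS S).nb x) x u) U k := by
    intro k
    induction k with
    | zero => rfl
    | succ k ih =>
      show pick ((grS S).nb (wk S x (cns u U) (k + 1))) (wk S x (cns u U) (k + 1)) ((cns u U (k + 1) : Fin M) : ℕ) =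
        pick ((grS S).nb (wk S (pick ((grS S).nb x) x u) U k)) (wk S (pick ((grS S).nb x) x u) U k) (U k)
      rw [ih, cns_succ]
  ext1 k
  cases k with
  | zero => rfl
  | succ k => exact h k

lemma meas_pick (y : V d) (u : ℕ) (T : Set (V d)) : MeasurableSet {S : Set (Ed d) | pick ((grS S).nb y) y u ∈ T} := by
  classical
  have h : Loc {S : Set (Ed d) | pick ((grS S).nb y) y u ∈ T} := by
    refine ⟨Ein (Lam y 1), lat_Ein _, fun S S' hS h1 => ?_⟩
    have h2 : (grS S').nb y = (grS S).nb y := by
      ext z
      rw [mem_nb, mem_nb]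
      refine and_congr_right fun hz => (hS _ ?_).symm
      rw [mem_Ein]
      refine ⟨self_mem_Lam y 1, ?_, hz⟩
      have h3 := dst_adj hz
      rw [mem_Lam, dst_comm]
      exact h3
    show pick ((grS S').nb y) y u ∈ T
    rw [h2]
    exact h1
  exact h.meas

lemma meas_wk (M : ℕ) (x : V d) : Measurable fun q : Set (Ed d) × (ℕ → Fin M) => wk q.1 x q.2 := by
  rw [measurable_pi_iff]
  intro k
  induction k with
  | zero => exact measurable_const
  | succ k ih =>
    intro T _
    have h1 : (fun q : Set (Ed d) × (ℕ → Fin M) => wk q.1 x q.2 (k + 1)) ⁻¹' T =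
        ⋃ y : V d, ⋃ u : Fin M, ({q | wk q.1 x q.2 k = y} ∩ {q | q.2 k = u}) ∩
          {q | pick ((grS q.1).nb y) y u ∈ T} := by
      ext q
      simp only [Set.mem_preimage, Set.mem_iUnion, Set.mem_inter_iff, Set.mem_ofPred_eq]
      constructor
      · intro h
        exact ⟨_, _, ⟨rfl, rfl⟩, h⟩
      · rintro ⟨y, u, ⟨rfl, rfl⟩, h⟩
        exact h
    rw [h1]
    refine MeasurableSet.iUnion fun y => MeasurableSet.iUnion fun u => ?_
    refine (MeasurableSet.inter ?_ ?_).inter ?_
    · exact ih (measurableSet_singleton y)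
    · have h2 : Measurable fun q : Set (Ed d) × (ℕ → Fin M) => q.2 k := (measurable_pi_apply k).comp measurable_snd
      exact h2 (measurableSet_singleton u)
    · exact measurable_fst (meas_pick y u T)

/-- the walk exists, measurably in the environment -/
theorem exists_walk (d : ℕ) : ∃ P : Set (Ed d) → V d → Measure (ℕ → V d), (∀ S, IsRW (grS S) (P S)) ∧
    ∀ A : Set (ℕ → V d), MeasurableSet A → Measurable fun S => P S 0 A := by
  classical
  obtain ⟨M, hM⟩ : ∃ M, M = (2 * d).factorial := ⟨_, rfl⟩
  have hM0 : 0 < M := by rw [hM]; exact Nat.factorial_pos _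
  have : Nonempty (Fin M) := ⟨⟨0, hM0⟩⟩
  have hM0' : (0 : ℝ) < M := by exact_mod_cast hM0
  obtain ⟨μ, hμ⟩ : ∃ μ : Measure (Fin M), μ = uniformOn (Set.univ : Set (Fin M)) := ⟨_, rfl⟩
  have hμp : IsProbabilityMeasure μ := by rw [hμ]; infer_instance
  obtain ⟨lam, hlam⟩ : ∃ lam : Measure (ℕ → Fin M), lam = Measure.infinitePi fun _ : ℕ => μ := ⟨_, rfl⟩
  have hlamp : IsProbabilityMeasure lam := by rw [hlam]; infer_instance
  have hμ1 : ∀ u : Fin M, μ {u} = (M : ENNReal)⁻¹ := by
    intro u
    rw [hμ, uniformOn_univ, Measure.count_singleton, Fintype.card_fin, one_div]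
  have hmS : ∀ (S : Set (Ed d)) (x : V d), Measurable fun U : ℕ → Fin M => wk S x U := fun S x =>
    (meas_wk M x).comp measurable_prodMk_left
  refine ⟨fun S x => lam.map (wk S x), fun S => ⟨fun x => ?_, fun x A hA => ?_⟩, fun A hA => ?_⟩
  · exact Measure.isProbabilityMeasure_map (hmS S x).aemeasurable
  · -- the first step
    have hcm : ∀ y : V d, MeasurableSet {w : ℕ → V d | cns y w ∈ A} := by
      intro y
      have h1 : Measurable fun w : ℕ → V d => cns y w := by
        rw [measurable_pi_iff]
        intro i
        cases i with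
        | zero => exact measurable_const
        | succ i => exact measurable_pi_apply i
      exact h1 hA
    have hF : ∀ y : V d, (lam.map (wk S y)).real {w | cns x w ∈ A} = lam.real {U | cns x (wk S y U) ∈ A} := by
      intro y
      rw [map_measureReal_apply (hmS S y) (hcm x)]
      rfl
    have h1 : (lam.map (wk S x)).real A = lam.real {U | wk S x U ∈ A} := by
      rw [map_measureReal_apply (hmS S x) hA]
      rfl
    have h2 : lam {U | wk S x U ∈ A} = ∑ u : Fin M, lam {U | cns x (wk S (pick ((grS S).nb x) x u) U) ∈ A} * (M : ENNReal)⁻¹ := by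
      have hcons : Measurable fun q : Fin M × (ℕ → Fin M) => cns q.1 q.2 := by
        rw [measurable_pi_iff]
        intro i
        cases i with
        | zero => exact measurable_fst
        | succ i => exact (measurable_pi_apply i).comp measurable_snd
      have hAm : MeasurableSet {U : ℕ → Fin M | wk S x U ∈ A} := (hmS S x) hA
      have h3 : lam {U | wk S x U ∈ A} = (μ.prod lam) {q | wk S x (cns q.1 q.2) ∈ A} := by
        have h4 := cns_map μ
        rw [← hlam] at h4
        calc lam {U | wk S x U ∈ A} = ((μ.prod lam).map (fun q : Fin M × (ℕ → Fin M) => cns q.1 q.2)) {U | wk S x U ∈ A} := by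
              rw [h4]
          _ = _ := by
              rw [Measure.map_apply hcons hAm]
              rfl
      have h5 : MeasurableSet {q : Fin M × (ℕ → Fin M) | wk S x (cns q.1 q.2) ∈ A} := hcons hAm
      rw [h3, Measure.prod_apply h5, lintegral_fintype]
      refine sum_congr rfl fun u _ => ?_
      rw [hμ1 u]
      congr 2
      ext U
      show wk S x (cns u U) ∈ A ↔ _
      rw [wk_cns]
      exact Iff.rfl
    have h3 : lam.real {U | wk S x U ∈ A} = ∑ u : Fin M, lam.real {U | cns x (wk S (pick ((grS S).nb x) x u) U) ∈ A} / M := by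
      unfold Measure.real
      rw [h2, ENNReal.toReal_sum]
      · refine sum_congr rfl fun u _ => ?_
        rw [ENNReal.toReal_mul, ENNReal.toReal_inv, ENNReal.toReal_natCast, div_eq_mul_inv]
      · intro u _
        exact ENNReal.mul_ne_top (measure_ne_top _ _) (ENNReal.inv_ne_top.2 (by exact_mod_cast hM0.ne'))
    rw [h1, h3]
    obtain ⟨F, hFdef⟩ : ∃ F : V d → ℝ, ∀ y, F y = (lam.map (wk S y)).real {w | cns x w ∈ A} := ⟨_, fun _ => rfl⟩
    have hav : (grS S).av (fun y => (lam.map (wk S y)).real {w | cns x w ∈ A}) x = (grS S).av F x :=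
      Gr.av_congr fun y => (hFdef y).symm
    rw [hav]
    have h4 : ∑ u : Fin M, lam.real {U | cns x (wk S (pick ((grS S).nb x) x u) U) ∈ A} / M =
        (∑ u ∈ range M, F (pick ((grS S).nb x) x u)) / M := by
      rw [← sum_div, Finset.sum_range]
      congr 1
      refine sum_congr rfl fun u _ => ?_
      rw [hFdef, hF]
    rw [h4]
    unfold Gr.av
    split_ifs with h5
    · rw [h5]
      have h6 : ∀ u, F (pick (∅ : Finset (V d)) x u) = F x := fun u => by rw [pick_empty]
      simp only [h6]
      rw [sum_const, card_range, nsmul_eq_mul]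
      field_simp
    · have h6 := nonempty_iff_ne_empty.2 h5
      have h7 : ((grS S).nb x).card ∣ M := by
        rw [hM]
        refine Nat.dvd_factorial (card_pos.2 h6) ?_
        exact (card_le_card (filter_subset _ _)).trans (card_nbr x)
      rw [sum_pick F _ x h6 h7]
      have h8 : (((grS S).nb x).card : ℝ) ≠ 0 := by
        have := card_pos.2 h6
        positivity
      unfold Gr.dg
      field_simp
  · -- measurability in the environment
    have h1 : ∀ S : Set (Ed d), lam.map (wk S 0) A = lam (Prod.mk S ⁻¹' {q : Set (Ed d) × (ℕ → Fin M) | wk q.1 0 q.2 ∈ A}) := by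
      intro S
      rw [Measure.map_apply (hmS S 0) hA]
      rfl
    simp only [h1]
    exact measurable_measure_prodMk_left ((meas_wk M 0) hA)

end Pool.Agent.Lib.MP_06caae_pr
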