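import Pool.Agent.Lib.MP_06caae_pr.G.Limit
import Pool.Agent.Lib.MP_06caae_pr.G.Walk
import Pool.Agent.Lib.MP_06caae_pr.G.Uniq
import Pool.Agent.Lib.MP_06caae_pr.Q.AsmD
import Pool.Agent.Lib.MP_06caae_pr.IIC

/-!
# Assembly: the theorem from the percolation estimates
-/

open Finset MeasureTheory Filter Topology
open scoped NNReal
open Pool.Agent.Lib.MP_566bac_pr.Zd
open Pool.Agent.Lib.IICQ
open Pool.MP_06caae_pr

namespace Pool.Agent.Lib.MP_06caae_pr

variable {d : ℕ}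

/-- a scale -/
structure IsScale (a : ℕ → ℝ) : Prop where
  pos : ∀ r, 0 < a r
  mono : Monotone a
  lim : Tendsto a atTop atTop
  dbl : ∃ K : ℝ, 0 < K ∧ ∀ r : ℕ, 1 ≤ r → a (2 * r) ≤ K * a r

theorem tendsto_cbrt : Tendsto cbrt atTop atTop := by
  refine tendsto_atTop.2 fun R => ?_
  filter_upwards [eventually_ge_atTop (R ^ 3)] with n hn
  exact le_cbrt hn

theorem start_zero {ν : Measure (Set (Ed d))} (hν : IsProbabilityMeasure ν) {Q : Measure (ℕ → V d)} (hQ : IsAnnealedLaw ν Q) :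
    ∀ᵐ w ∂Q, w 0 = (0 : V d) := by
  have hp := hQ.prob
  have h1 := hQ.cyl 0 (fun _ => 0) rfl
  rw [range_zero] at h1
  simp only [prod_empty, integral_const, probReal_univ, smul_eq_mul, mul_one] at h1
  have h2 : MeasurableSet {w : ℕ → V d | w 0 = (0 : V d)} := (measurable_pi_apply 0) (measurableSet_singleton 0)
  have h3 : Q.real {w : ℕ → V d | w 0 = (0 : V d)} = 1 := by
    rw [← h1]
    congr 1
    ext w
    simp only [Set.mem_ofPred_eq]
    constructor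
    · intro h i hi
      rw [Nat.le_zero.1 hi]
      exact h
    · intro h
      exact h 0 le_rfl
  have h4 : Q {w : ℕ → V d | w 0 = (0 : V d)}ᶜ = 0 := by
    rw [← measureReal_eq_zero_iff, measureReal_compl h2, h3, probReal_univ, sub_self]
  exact h4

/-- the theorem, for one annealed law -/
theorem final_of {ν : Measure (Set (Ed d))} (hν : IsProbabilityMeasure ν) {a : ℕ → ℝ} (ha : IsScale a)
    (hgood : IICGood ν a) : (∃! Q : Measure (ℕ → V d), IsAnnealedLaw ν Q) ∧ ∀ Q, IsAnnealedLaw ν Q →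
      ∃ q > (0 : ℝ), ∀ φ : ℕ → ℕ, StrictMono φ → ∃ ψ : ℕ → ℕ, StrictMono ψ ∧ ∃ μ : Measure C(ℝ≥0, Fin d → ℝ),
      IsProbabilityMeasure μ ∧ ConvergesInLaw Q (fun k => scaled (a (cbrt (φ (ψ k)))) (φ (ψ k))) μ Cadlag.ofCont ∧
      q ≤ μ.real {f | ∀ t > (0 : ℝ≥0), ∃ s ≤ t, f s ≠ 0} := by
  obtain ⟨P, hP, hm⟩ := exists_walk d
  obtain ⟨Pa, hPa⟩ := exists_mix hν hP hm
  have hdeg : ν.real {S | (grS S).nb (0 : V d) = ∅} = 0 := by
    have : {S : Set (Ed d) | (grS S).nb (0 : V d) = ∅} = {S | sph S (0 : V d) 1 = ∅} := by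
      ext S
      exact nb_empty_iff
    rw [this]
    exact hgood.deg
  have hann := annealed hν hdeg hP hm hPa
  refine ⟨⟨Pa, hann, fun Q hQ => ext_path hν hQ hann⟩, fun Q hQ => ?_⟩
  have hQP : Q = Pa := ext_path hν hQ hann
  subst hQP
  have hE := envGood hν (fun R => (ha.pos R).le) hP hm hPa hgood
  obtain ⟨K, hK, hdbl⟩ := ha.dbl
  obtain ⟨q, hq, hN⟩ := hE.nondeg_all _ ha.mono hK hdbl
  refine ⟨q, hq, fun φ hφ => ?_⟩
  have h0 : ∀ᵐ w ∂Q, w 0 = (0 : V d) := start_zero hν hQ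
  refine limit_abs hQ.prob h0 (A := fun n => a (cbrt n)) (fun n => ha.pos _) ?_ ?_ φ hφ
  · intro m ε η hε hη
    exact hE.tight' _ m hε hη
  · intro t ht
    exact hN t ht

end Pool.Agent.Lib.MP_06caae_pr
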