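import Pool.Agent.Lib.MP_06caae_pr.G.Defs

/-!
# Test functions: continuity and approximation
-/

open Finset MeasureTheory Filter Topology
open scoped NNReal ENNReal
open Pool.MP_06caae_pr
open Pool.Agent.Lib.MP_566bac_pr.Zd (V)

namespace Pool.Agent.Lib.MP_06caae_pr

variable {d : ℕ}

/-- locally uniform convergence implies `J₁` convergence -/
theorem j1_of_unif {x : ℕ → Cadlag d} {y : Cadlag d}
    (h : ∀ T : ℝ≥0, ∀ ε > (0 : ℝ), ∀ᶠ n in atTop, ∀ t ≤ T, dist ((x n).toFun t) (y.toFun t) ≤ ε) : J1Tendsto x y := by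
  refine ⟨fun _ => OrderIso.refl _, fun T ε hε => ?_⟩
  filter_upwards [h T ε hε] with n hn t ht
  refine ⟨?_, hn t ht⟩
  rw [OrderIso.refl_apply, dist_self]
  exact hε.le

theorem unif_of_tendsto {x : ℕ → C(ℝ≥0, Fin d → ℝ)} {y : C(ℝ≥0, Fin d → ℝ)} (h : Tendsto x atTop (𝓝 y)) (T : ℝ≥0) {ε : ℝ}
    (hε : 0 < ε) : ∀ᶠ n in atTop, ∀ t ≤ T, dist (x n t) (y t) ≤ ε := by
  rw [ContinuousMap.tendsto_iff_forall_isCompact_tendstoUniformlyOn] at h
  have h1 := h (Set.Icc 0 T) isCompact_Icc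
  rw [Metric.tendstoUniformlyOn_iff] at h1
  filter_upwards [h1 ε hε] with n hn t ht
  rw [dist_comm]
  exact (hn t ⟨bot_le, ht⟩).le

theorem j1_ofCont {x : ℕ → C(ℝ≥0, Fin d → ℝ)} {y : C(ℝ≥0, Fin d → ℝ)} (h : Tendsto x atTop (𝓝 y)) :
    J1Tendsto (fun n => Cadlag.ofCont (x n)) (Cadlag.ofCont y) :=
  j1_of_unif fun T _ hε => unif_of_tendsto h T hε

/-- a test function is continuous on the space of continuous paths -/
theorem continuous_test {F : Cadlag d → ℝ} (hF : IsTest F) :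
    Continuous fun f : C(ℝ≥0, Fin d → ℝ) => F (Cadlag.ofCont f) := by
  rw [continuous_iff_seqContinuous]
  intro x y h
  exact hF.cont _ _ (j1_ofCont h)

/-- a test function of the rescaled path is continuous on the space of the lattice paths -/
theorem continuous_scaled {F : Cadlag d → ℝ} (hF : IsTest F) (a b : ℝ) :
    Continuous fun w : ℕ → V d => F (scaled a b w) := by
  rw [continuous_iff_seqContinuous]
  intro x y h
  refine hF.cont _ _ (j1_of_unif fun T ε hε => ?_)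
  have h1 : ∀ k : ℕ, ∀ᶠ n in atTop, x n k = y k := by
    intro k
    have h2 : Tendsto (fun n => x n k) atTop (𝓝 (y k)) := ((continuous_apply k).tendsto y).comp h
    rw [nhds_discrete, tendsto_pure] at h2
    exact h2
  have h2 : ∀ᶠ n in atTop, ∀ k ∈ Finset.range (⌊|b| * (T : ℝ)⌋₊ + 1), x n k = y k := by
    rw [Filter.eventually_all_finset]
    exact fun k _ => h1 k
  filter_upwards [h2] with n hn t ht
  have h3 : ⌊b * (t : ℝ)⌋₊ ≤ ⌊|b| * (T : ℝ)⌋₊ := by
    refine Nat.floor_le_floor ?_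
    have ht' : (t : ℝ) ≤ T := by exact_mod_cast ht
    calc b * (t : ℝ) ≤ |b| * (t : ℝ) := mul_le_mul_of_nonneg_right (le_abs_self b) (NNReal.coe_nonneg t)
      _ ≤ |b| * (T : ℝ) := mul_le_mul_of_nonneg_left ht' (abs_nonneg b)
  have h4 := hn ⌊b * (t : ℝ)⌋₊ (Finset.mem_range.2 (Nat.lt_succ_of_le h3))
  show dist (fun i => (x n ⌊b * (t : ℝ)⌋₊ i : ℝ) / a) (fun i => (y ⌊b * (t : ℝ)⌋₊ i : ℝ) / a) ≤ ε
  rw [h4, dist_self]
  exact hε.le

/-- uniform approximation near a compact set of continuous paths -/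
theorem near_compact {F : Cadlag d → ℝ} (hF : IsTest F) {K : Set C(ℝ≥0, Fin d → ℝ)} (hK : IsCompact K) {ε : ℝ} (hε : 0 < ε) :
    ∃ T : ℕ, ∀ f ∈ K, ∀ x : Cadlag d, (∀ t : ℝ≥0, t ≤ (T : ℝ≥0) → dist (x.toFun t) (f t) ≤ 1 / ((T : ℝ) + 1)) →
      |F x - F (Cadlag.ofCont f)| ≤ ε := by
  by_contra hcon
  push Not at hcon
  choose f hfK x hx hF' using hcon
  obtain ⟨g, _, ψ, hψ, hlim⟩ := hK.isSeqCompact (x := f) hfK
  have h1 : J1Tendsto (fun k => x (ψ k)) (Cadlag.ofCont g) := by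
    refine j1_of_unif fun T η hη => ?_
    have h2 := unif_of_tendsto hlim T (half_pos hη)
    obtain ⟨N, hN⟩ := exists_nat_one_div_lt (half_pos hη)
    obtain ⟨M, hM⟩ := exists_nat_ge T
    filter_upwards [h2, eventually_ge_atTop N, eventually_ge_atTop M] with k hk hkN hkM t ht
    have h3 : k ≤ ψ k := hψ.le_apply
    have h4 : t ≤ ((ψ k : ℕ) : ℝ≥0) := by
      refine ht.trans (hM.trans ?_)
      exact_mod_cast hkM.trans h3
    have h5 := hx (ψ k) t h4
    have h6 : (1 : ℝ) / (((ψ k : ℕ) : ℝ) + 1) ≤ 1 / ((N : ℝ) + 1) := by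
      have : (N : ℝ) ≤ ((ψ k : ℕ) : ℝ) := by exact_mod_cast hkN.trans h3
      exact one_div_le_one_div_of_le (by positivity) (by linarith)
    have h7 := dist_triangle ((x (ψ k)).toFun t) (f (ψ k) t) (g t)
    have h8 := hk t ht
    show dist ((x (ψ k)).toFun t) (g t) ≤ η
    have h9 : dist (f (ψ k) t) (g t) ≤ η / 2 := h8
    linarith
  have h2 := hF.cont _ _ h1
  have h3 := hF.cont _ _ (j1_ofCont hlim)
  have h4 := (h2.sub h3).abs
  rw [sub_self, abs_zero] at h4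
  obtain ⟨k, hk⟩ := (h4.eventually (gt_mem_nhds hε)).exists
  exact absurd hk (not_lt.2 (hF' (ψ k)).le)

end Pool.Agent.Lib.MP_06caae_pr
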