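import Mathlib

/-!
# Linear interpolation of a sequence as a continuous function of the sequence and of time
-/

open Finset Filter Topology
open scoped NNReal

namespace Pool.Agent.Lib.MP_06caae_pr

variable {d : ℕ}

/-- the values between `0` and `1` -/
noncomputable def cl (u : ℝ) : ℝ := max 0 (min 1 u)

theorem cl_of_nonpos {u : ℝ} (h : u ≤ 0) : cl u = 0 := by
  unfold cl
  rw [min_eq_right (by linarith), max_eq_left h]

theorem cl_of_one_le {u : ℝ} (h : 1 ≤ u) : cl u = 1 := by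
  unfold cl
  rw [min_eq_left h, max_eq_right zero_le_one]

theorem cl_of_mem {u : ℝ} (h0 : 0 ≤ u) (h1 : u ≤ 1) : cl u = u := by
  unfold cl
  rw [min_eq_right h1, max_eq_right h0]

theorem continuous_cl : Continuous cl := by
  unfold cl
  fun_prop

/-- partial sum -/
noncomputable def lnN (N : ℕ) (x : ℕ → Fin d → ℝ) (t : ℝ) : Fin d → ℝ :=
  x 0 + ∑ i ∈ range N, cl (t - i) • (x (i + 1) - x i)

theorem lnN_eq {N M : ℕ} (x : ℕ → Fin d → ℝ) {t : ℝ} (hN : t ≤ N) (hNM : N ≤ M) : lnN N x t = lnN M x t := by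
  unfold lnN
  congr 1
  refine sum_subset (range_mono hNM) fun i _ hi => ?_
  rw [mem_range, not_lt] at hi
  have h1 : (N : ℝ) ≤ i := by exact_mod_cast hi
  rw [cl_of_nonpos (by linarith), zero_smul]

/-- linear interpolation -/
noncomputable def lnF (x : ℕ → Fin d → ℝ) (t : ℝ) : Fin d → ℝ := lnN (⌊t⌋₊ + 1) x t

theorem lnF_eq (x : ℕ → Fin d → ℝ) {t : ℝ} {N : ℕ} (h : t ≤ N) : lnF x t = lnN N x t := by
  unfold lnF
  have h1 : t ≤ ((⌊t⌋₊ + 1 : ℕ) : ℝ) := by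
    push_cast
    exact (Nat.lt_floor_add_one t).le
  rw [lnN_eq x h1 (le_max_left (⌊t⌋₊ + 1) N), lnN_eq x h (le_max_right (⌊t⌋₊ + 1) N)]

theorem continuous_lnN (N : ℕ) : Continuous fun q : (ℕ → Fin d → ℝ) × ℝ => lnN N q.1 q.2 := by
  unfold lnN
  have h1 : ∀ i : ℕ, Continuous fun q : (ℕ → Fin d → ℝ) × ℝ => q.1 i := fun i =>
    (continuous_apply i).comp continuous_fst
  have h2 : ∀ i : ℕ, Continuous fun q : (ℕ → Fin d → ℝ) × ℝ => cl (q.2 - i) := fun i =>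
    continuous_cl.comp (continuous_snd.sub continuous_const)
  exact (h1 0).add (continuous_finsetSum _ fun i _ => (h2 i).smul ((h1 (i + 1)).sub (h1 i)))

theorem continuous_lnF : Continuous fun q : (ℕ → Fin d → ℝ) × ℝ => lnF q.1 q.2 := by
  rw [continuous_iff_continuousAt]
  rintro ⟨x, t⟩
  obtain ⟨N, hN⟩ := exists_nat_gt t
  have h1 : (fun q : (ℕ → Fin d → ℝ) × ℝ => lnN N q.1 q.2) =ᶠ[𝓝 (x, t)] fun q => lnF q.1 q.2 := by
    have h2 : ∀ᶠ q : (ℕ → Fin d → ℝ) × ℝ in 𝓝 (x, t), q.2 < N :=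
      continuous_snd.continuousAt.eventually (gt_mem_nhds hN)
    filter_upwards [h2] with q hq
    exact (lnF_eq q.1 hq.le).symm
  exact ((continuous_lnN N).continuousAt).congr h1

theorem lnF_apply (x : ℕ → Fin d → ℝ) {t : ℝ} (ht : 0 ≤ t) :
    lnF x t = x ⌊t⌋₊ + (t - ⌊t⌋₊) • (x (⌊t⌋₊ + 1) - x ⌊t⌋₊) := by
  unfold lnF lnN
  rw [sum_range_succ, ← add_assoc]
  have h0 : (⌊t⌋₊ : ℝ) ≤ t := Nat.floor_le ht
  have h1 : t < ⌊t⌋₊ + 1 := Nat.lt_floor_add_one t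
  rw [cl_of_mem (by linarith) (by linarith)]
  congr 1
  have h2 : ∑ i ∈ range ⌊t⌋₊, cl (t - i) • (x (i + 1) - x i) = ∑ i ∈ range ⌊t⌋₊, (x (i + 1) - x i) := by
    refine sum_congr rfl fun i hi => ?_
    rw [mem_range] at hi
    have h3 : (i : ℝ) + 1 ≤ ⌊t⌋₊ := by exact_mod_cast hi
    rw [cl_of_one_le (by linarith), one_smul]
  rw [h2, sum_range_sub]
  abel

theorem dist_lnF_floor (x : ℕ → Fin d → ℝ) {t : ℝ} (ht : 0 ≤ t) :
    dist (lnF x t) (x ⌊t⌋₊) ≤ dist (x ⌊t⌋₊) (x (⌊t⌋₊ + 1)) := by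
  rw [lnF_apply x ht, dist_eq_norm, dist_eq_norm, add_sub_cancel_left, norm_smul, norm_sub_rev (x ⌊t⌋₊)]
  have h0 : (⌊t⌋₊ : ℝ) ≤ t := Nat.floor_le ht
  have h1 : t < ⌊t⌋₊ + 1 := Nat.lt_floor_add_one t
  have h2 : ‖t - ⌊t⌋₊‖ ≤ 1 := by
    rw [Real.norm_eq_abs, abs_le]
    constructor <;> linarith
  calc ‖t - ⌊t⌋₊‖ * ‖x (⌊t⌋₊ + 1) - x ⌊t⌋₊‖ ≤ 1 * ‖x (⌊t⌋₊ + 1) - x ⌊t⌋₊‖ :=
        mul_le_mul_of_nonneg_right h2 (norm_nonneg _)
    _ = ‖x (⌊t⌋₊ + 1) - x ⌊t⌋₊‖ := one_mul _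

/-- modulus of continuity of the interpolation -/
theorem dist_lnF (x : ℕ → Fin d → ℝ) {η K D : ℝ}
    (h : ∀ i k : ℕ, i ≤ k → (k : ℝ) ≤ K + 1 → ((k - i : ℕ) : ℝ) ≤ D + 1 → dist (x i) (x k) ≤ η) (hD : 0 ≤ D)
    {s t : ℝ} (hs : 0 ≤ s) (hst : s ≤ t) (htK : t ≤ K) (hD' : t - s ≤ D) : dist (lnF x s) (lnF x t) ≤ 3 * η := by
  have ht : 0 ≤ t := hs.trans hst
  have e1 : (⌊t⌋₊ : ℝ) ≤ t := Nat.floor_le ht
  have e2 : (⌊s⌋₊ : ℝ) ≤ s := Nat.floor_le hs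
  have e3 : s < ⌊s⌋₊ + 1 := Nat.lt_floor_add_one s
  have e4 : ⌊s⌋₊ ≤ ⌊t⌋₊ := Nat.floor_le_floor hst
  have h1 : dist (x ⌊s⌋₊) (x (⌊s⌋₊ + 1)) ≤ η := by
    refine h _ _ (Nat.le_succ _) (by push_cast; linarith) ?_
    rw [Nat.add_sub_cancel_left]
    push_cast
    linarith
  have h2 : dist (x ⌊t⌋₊) (x (⌊t⌋₊ + 1)) ≤ η := by
    refine h _ _ (Nat.le_succ _) (by push_cast; linarith) ?_
    rw [Nat.add_sub_cancel_left]
    push_cast
    linarith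
  have h3 : dist (x ⌊s⌋₊) (x ⌊t⌋₊) ≤ η := by
    refine h _ _ e4 (by linarith) ?_
    rw [Nat.cast_sub e4]
    linarith
  have h4 := dist_lnF_floor x hs
  have h5 := dist_lnF_floor x ht
  have h6 := dist_triangle4 (lnF x s) (x ⌊s⌋₊) (x ⌊t⌋₊) (lnF x t)
  rw [dist_comm (x ⌊t⌋₊) (lnF x t)] at h6
  linarith

/-- the rescaled interpolation as a continuous path -/
noncomputable def lin (b : ℝ) (x : ℕ → Fin d → ℝ) : C(ℝ≥0, Fin d → ℝ) where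
  toFun t := lnF x (b * t)
  continuous_toFun := by
    have h1 : Continuous fun t : ℝ≥0 => ((x, b * (t : ℝ)) : (ℕ → Fin d → ℝ) × ℝ) := by fun_prop
    exact continuous_lnF.comp h1

theorem lin_apply (b : ℝ) (x : ℕ → Fin d → ℝ) (t : ℝ≥0) : lin b x t = lnF x (b * t) := rfl

theorem continuous_lin (b : ℝ) : Continuous (lin b : (ℕ → Fin d → ℝ) → C(ℝ≥0, Fin d → ℝ)) := by
  refine ContinuousMap.continuous_of_continuous_uncurry _ ?_
  have h1 : Continuous fun q : (ℕ → Fin d → ℝ) × ℝ≥0 => ((q.1, b * (q.2 : ℝ)) : (ℕ → Fin d → ℝ) × ℝ) := by fun_prop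
  exact continuous_lnF.comp h1

end Pool.Agent.Lib.MP_06caae_pr
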