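import Pool.Agent.Lib.MP_06caae_pr.G.Ascoli
import Pool.Agent.Lib.MP_06caae_pr.G.Defs

/-!
# Tightness of laws of continuous paths, extraction of convergent subsequences
-/

open Finset MeasureTheory Filter Topology
open scoped NNReal ENNReal
open Pool.MP_06caae_pr

namespace Pool.Agent.Lib.MP_06caae_pr

variable {d : ℕ}

/-- large oscillation on `[0, m]` at distance at most `δ` -/
def Osc (m : ℕ) (δ η : ℝ) : Set C(ℝ≥0, Fin d → ℝ) :=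
  {f | ∃ s t : ℝ≥0, s ≤ m ∧ t ≤ m ∧ dist s t ≤ δ ∧ η < dist (f s) (f t)}

theorem isOpen_osc (m : ℕ) (δ η : ℝ) : IsOpen (Osc m δ η : Set C(ℝ≥0, Fin d → ℝ)) := by
  have h1 : (Osc m δ η : Set C(ℝ≥0, Fin d → ℝ)) = ⋃ (s : ℝ≥0) (t : ℝ≥0) (_ : s ≤ m ∧ t ≤ m ∧ dist s t ≤ δ),
      {f : C(ℝ≥0, Fin d → ℝ) | η < dist (f s) (f t)} := by
    ext f
    simp only [Osc, Set.mem_ofPred_eq, Set.mem_iUnion, exists_prop]
    constructor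
    · rintro ⟨s, t, a, b, c, e⟩
      exact ⟨s, t, ⟨a, b, c⟩, e⟩
    · rintro ⟨s, t, ⟨a, b, c⟩, e⟩
      exact ⟨s, t, a, b, c, e⟩
  rw [h1]
  refine isOpen_iUnion fun s => isOpen_iUnion fun t => isOpen_iUnion fun _ => ?_
  exact isOpen_lt continuous_const ((continuous_eval_const s).dist (continuous_eval_const t))

theorem osc_mono {m : ℕ} {δ δ' η : ℝ} (h : δ ≤ δ') : (Osc m δ η : Set C(ℝ≥0, Fin d → ℝ)) ⊆ Osc m δ' η := by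
  rintro f ⟨s, t, a, b, c, e⟩
  exact ⟨s, t, a, b, c.trans h, e⟩

theorem osc_single (μ : Measure C(ℝ≥0, Fin d → ℝ)) [IsFiniteMeasure μ] (m : ℕ) {η : ℝ} (hη : 0 < η) {ε : ℝ≥0∞} (hε : 0 < ε) :
    ∃ δ > (0 : ℝ), μ (Osc m δ η) ≤ ε := by
  have h1 : Antitone fun k : ℕ => (Osc m (1 / ((k : ℝ) + 1)) η : Set C(ℝ≥0, Fin d → ℝ)) := by
    intro k l hkl
    refine osc_mono ?_
    have : (k : ℝ) ≤ l := by exact_mod_cast hkl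
    exact one_div_le_one_div_of_le (by positivity) (by linarith)
  have h2 : (⋂ k : ℕ, (Osc m (1 / ((k : ℝ) + 1)) η : Set C(ℝ≥0, Fin d → ℝ))) = ∅ := by
    rw [Set.eq_empty_iff_forall_notMem]
    intro f hf
    rw [Set.mem_iInter] at hf
    have h3 : UniformContinuousOn f (Set.Icc 0 (m : ℝ≥0)) :=
      isCompact_Icc.uniformContinuousOn_of_continuous f.continuous.continuousOn
    rw [Metric.uniformContinuousOn_iff] at h3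
    obtain ⟨δ, hδ, h4⟩ := h3 η hη
    obtain ⟨k, hk⟩ := exists_nat_one_div_lt hδ
    obtain ⟨s, t, hs, ht, hst, h5⟩ := hf k
    exact absurd h5 (not_lt.2 (h4 s ⟨bot_le, hs⟩ t ⟨bot_le, ht⟩ (lt_of_le_of_lt hst hk)).le)
  have h3 := tendsto_measure_iInter_atTop (μ := μ) (fun k : ℕ => (isOpen_osc (d := d) m (1 / ((k : ℝ) + 1)) η).nullMeasurableSet) h1
    ⟨0, measure_ne_top _ _⟩
  rw [h2, measure_empty] at h3
  obtain ⟨k, hk⟩ := (h3.eventually (ge_mem_nhds hε)).exists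
  exact ⟨1 / ((k : ℝ) + 1), by positivity, hk⟩

theorem osc_unif {μ : ℕ → Measure C(ℝ≥0, Fin d → ℝ)} (hμ : ∀ n, IsFiniteMeasure (μ n)) (m : ℕ) {η : ℝ} (hη : 0 < η) {ε : ℝ≥0∞}
    (hε : 0 < ε) (h : ∃ δ > (0 : ℝ), ∃ n0 : ℕ, ∀ n ≥ n0, μ n (Osc m δ η) ≤ ε) :
    ∃ δ > (0 : ℝ), ∀ n, μ n (Osc m δ η) ≤ ε := by
  obtain ⟨δ, hδ, n0, h1⟩ := h
  have h2 : ∀ n1 : ℕ, ∃ δ > (0 : ℝ), ∀ n < n1, μ n (Osc m δ η) ≤ ε := by
    intro n1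
    induction n1 with
    | zero => exact ⟨1, one_pos, fun n hn => absurd hn (Nat.not_lt_zero n)⟩
    | succ n1 ih =>
      obtain ⟨δ1, hδ1, h3⟩ := ih
      obtain ⟨δ2, hδ2, h4⟩ := osc_single (μ n1) m hη hε
      refine ⟨min δ1 δ2, lt_min hδ1 hδ2, fun n hn => ?_⟩
      rcases Nat.lt_succ_iff_lt_or_eq.1 hn with h5 | h5
      · exact (measure_mono (osc_mono (min_le_left _ _))).trans (h3 n h5)
      · rw [h5]
        exact (measure_mono (osc_mono (min_le_right _ _))).trans h4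
  obtain ⟨δ1, hδ1, h3⟩ := h2 n0
  refine ⟨min δ δ1, lt_min hδ hδ1, fun n => ?_⟩
  rcases lt_or_ge n n0 with h4 | h4
  · exact (measure_mono (osc_mono (min_le_right _ _))).trans (h3 n h4)
  · exact (measure_mono (osc_mono (min_le_left _ _))).trans (h1 n h4)

theorem tight_paths {μ : ℕ → Measure C(ℝ≥0, Fin d → ℝ)} (hμ : ∀ n, IsFiniteMeasure (μ n)) (h0 : ∀ n, μ n {f | f 0 = 0}ᶜ = 0)
    (h : ∀ (m : ℕ) (η : ℝ) (ε : ℝ≥0∞), 0 < η → 0 < ε → ∃ δ > (0 : ℝ), ∃ n0 : ℕ, ∀ n ≥ n0, μ n (Osc m δ η) ≤ ε) (ε : ℝ≥0∞)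
    (hε : 0 < ε) : ∃ K : Set C(ℝ≥0, Fin d → ℝ), IsCompact K ∧ ∀ n, μ n Kᶜ ≤ ε := by
  obtain ⟨e, he, hsum⟩ := ENNReal.exists_pos_sum_of_countable' hε.ne' (ℕ × ℕ)
  have h1 : ∀ m j : ℕ, ∃ δ > (0 : ℝ), ∀ n, μ n (Osc m δ (1 / ((j : ℝ) + 1))) ≤ e (m, j) := fun m j =>
    osc_unif hμ m (by positivity) (he (m, j)) (h m _ _ (by positivity) (he (m, j)))
  choose δ hδ h2 using h1
  refine ⟨modSet δ, isCompact_modSet hδ, fun n => ?_⟩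
  have h3 : (modSet δ : Set C(ℝ≥0, Fin d → ℝ))ᶜ ⊆ {f | f 0 = 0}ᶜ ∪ ⋃ q : ℕ × ℕ, Osc q.1 (δ q.1 q.2) (1 / ((q.2 : ℝ) + 1)) := by
    intro f hf
    by_contra hcon
    refine hf ?_
    rw [Set.mem_union, not_or, Set.mem_iUnion, not_exists, Set.mem_compl_iff, not_not] at hcon
    refine ⟨hcon.1, fun m j s t hs ht hst => ?_⟩
    by_contra h4
    exact hcon.2 (m, j) ⟨s, t, hs, ht, hst, not_le.1 h4⟩
  calc μ n (modSet δ)ᶜ ≤ μ n ({f | f 0 = 0}ᶜ ∪ ⋃ q : ℕ × ℕ, Osc q.1 (δ q.1 q.2) (1 / ((q.2 : ℝ) + 1))) := measure_mono h3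
    _ ≤ μ n {f | f 0 = 0}ᶜ + μ n (⋃ q : ℕ × ℕ, Osc q.1 (δ q.1 q.2) (1 / ((q.2 : ℝ) + 1))) := measure_union_le _ _
    _ ≤ 0 + ∑' q : ℕ × ℕ, e q := by
        refine add_le_add (h0 n).le ((measure_iUnion_le _).trans (ENNReal.tsum_le_tsum fun q => h2 q.1 q.2 n))
    _ ≤ ε := by rw [zero_add]; exact hsum.le

/-- extraction of a weakly convergent subsequence -/
theorem extract {μ : ℕ → ProbabilityMeasure C(ℝ≥0, Fin d → ℝ)}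
    (h : ∀ ε : ℝ≥0∞, 0 < ε → ∃ K : Set C(ℝ≥0, Fin d → ℝ), IsCompact K ∧ ∀ n, (μ n : Measure C(ℝ≥0, Fin d → ℝ)) Kᶜ ≤ ε)
    (φ : ℕ → ℕ) : ∃ ψ : ℕ → ℕ, StrictMono ψ ∧ ∃ μ0 : ProbabilityMeasure C(ℝ≥0, Fin d → ℝ),
      Tendsto (fun k => μ (φ (ψ k))) atTop (𝓝 μ0) := by
  have h1 : IsTightMeasureSet {((ρ : ProbabilityMeasure C(ℝ≥0, Fin d → ℝ)) : Measure C(ℝ≥0, Fin d → ℝ)) | ρ ∈ Set.range μ} := by
    rw [isTightMeasureSet_iff_exists_isCompact_measure_compl_le]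
    intro ε hε
    obtain ⟨K, hK, h2⟩ := h ε hε
    refine ⟨K, hK, ?_⟩
    rintro _ ⟨_, ⟨n, rfl⟩, rfl⟩
    exact h2 n
  have h2 := isCompact_closure_of_isTightMeasureSet h1
  obtain ⟨μ0, _, ψ, hψ, h3⟩ := h2.isSeqCompact (x := fun k => μ (φ k)) fun k => subset_closure ⟨φ k, rfl⟩
  exact ⟨ψ, hψ, μ0, h3⟩

end Pool.Agent.Lib.MP_06caae_pr
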