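import Pool.Agent.Lib.MP_06caae_pr.Q.Good
import Pool.Agent.Lib.MP_06caae_pr.G.Lin
import Pool.Agent.Lib.MP_06caae_pr.G.Tight
import Pool.Agent.Lib.MP_06caae_pr.G.J1

/-!
# The abstract limit theorem: tightness and nondegeneracy give subsequential limits
-/

open Finset MeasureTheory Filter Topology
open scoped NNReal ENNReal
open Pool.Agent.Lib.MP_566bac_pr.Zd
open Pool.MP_06caae_pr

namespace Pool.Agent.Lib.MP_06caae_pr

variable {d : ℕ}

/-- the rescaled lattice path as a sequence of points of `ℝ^d` -/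
noncomputable def pts (A : ℝ) (w : ℕ → V d) : ℕ → Fin d → ℝ := fun k i => (w k i : ℝ) / A

theorem continuous_pts (A : ℝ) : Continuous (pts A : (ℕ → V d) → ℕ → Fin d → ℝ) := by
  refine continuous_pi fun k => continuous_pi fun i => ?_
  have h1 : Continuous fun w : ℕ → V d => w k i := (continuous_apply i).comp (continuous_apply k)
  have h2 : Continuous fun z : ℤ => (z : ℝ) := continuous_of_discreteTopology
  exact (h2.comp h1).div_const A

theorem dist_pts {A : ℝ} (hA : 0 < A) (w : ℕ → V d) (i k : ℕ) : dist (pts A w i) (pts A w k) = (dst (w i) (w k) : ℝ) / A := by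
  have h1 : ∀ j : Fin d, dist (pts A w i j) (pts A w k j) = ((w i j - w k j).natAbs : ℝ) / A := by
    intro j
    show dist ((w i j : ℝ) / A) ((w k j : ℝ) / A) = _
    rw [Real.dist_eq, ← sub_div, abs_div, abs_of_pos hA]
    congr 1
    rw [Nat.cast_natAbs]
    push_cast
    rfl
  refine le_antisymm ?_ ?_
  · rw [dist_pi_le_iff (by positivity)]
    intro j
    rw [h1 j]
    refine div_le_div_of_nonneg_right ?_ hA.le
    have : (w i j - w k j).natAbs ≤ dst (w i) (w k) := le_sup (f := fun i' => (w i i' - w k i').natAbs) (mem_univ j)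
    exact_mod_cast this
  · rw [div_le_iff₀ hA]
    rcases Nat.eq_zero_or_pos (dst (w i) (w k)) with h0 | h0
    · rw [h0, Nat.cast_zero]
      positivity
    · have h2 : ∃ j ∈ (univ : Finset (Fin d)), dst (w i) (w k) = (w i j - w k j).natAbs := by
        have hne : (univ : Finset (Fin d)).Nonempty := by
          by_contra hcon
          rw [not_nonempty_iff_eq_empty] at hcon
          unfold dst at h0
          rw [hcon, sup_empty] at h0
          exact absurd h0 (lt_irrefl _)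
        exact exists_mem_eq_sup univ hne _
      obtain ⟨j, _, h3⟩ := h2
      have h4 := dist_le_pi_dist (pts A w i) (pts A w k) j
      rw [h1 j, div_le_iff₀ hA] at h4
      rw [h3]
      exact h4

/-- the rescaled interpolated path -/
noncomputable def Xp (A : ℝ) (n : ℕ) (w : ℕ → V d) : C(ℝ≥0, Fin d → ℝ) := lin n (pts A w)

theorem continuous_Xp (A : ℝ) (n : ℕ) : Continuous (Xp A n : (ℕ → V d) → C(ℝ≥0, Fin d → ℝ)) :=
  (continuous_lin (n : ℝ)).comp (continuous_pts A)

theorem measurable_Xp (A : ℝ) (n : ℕ) : Measurable (Xp A n : (ℕ → V d) → C(ℝ≥0, Fin d → ℝ)) := (continuous_Xp A n).measurable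

/-- the bad event -/
def bad (A : ℝ) (n m : ℕ) (δ η : ℝ) : Set (ℕ → V d) :=
  {w | ∃ i k, i ≤ k ∧ k ≤ m * n ∧ ((k - i : ℕ) : ℝ) ≤ δ * n ∧ η * A < (dst (w i) (w k) : ℝ)}

theorem not_bad {A : ℝ} (hA : 0 < A) {n m : ℕ} {δ η : ℝ} {w : ℕ → V d} (h : w ∉ bad A n m δ η) {i k : ℕ} (hik : i ≤ k)
    (hk : k ≤ m * n) (hki : ((k - i : ℕ) : ℝ) ≤ δ * n) : dist (pts A w i) (pts A w k) ≤ η := by
  rw [dist_pts hA, div_le_iff₀ hA]
  by_contra hcon
  exact h ⟨i, k, hik, hk, hki, not_le.1 hcon⟩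

/-- the modulus of continuity of the interpolated path -/
theorem osc_sub_bad {A : ℝ} (hA : 0 < A) {n m : ℕ} {δ η : ℝ} (hη : 0 < η) (hδ : 0 < δ) (hn : 1 ≤ n) (hδn : 2 ≤ δ * n) :
    Xp A n ⁻¹' (Osc m (δ / 2) η : Set C(ℝ≥0, Fin d → ℝ)) ⊆ bad A n (m + 1) δ (η / 4) := by
  intro w hw
  by_contra hbad
  obtain ⟨s, t, hs, ht, hst, hlt⟩ := hw
  have hn0 : (0 : ℝ) < n := by exact_mod_cast hn
  have hn1 : (1 : ℝ) ≤ n := by exact_mod_cast hn
  have key : ∀ s t : ℝ≥0, s ≤ t → t ≤ m → dist s t ≤ δ / 2 → dist (Xp A n w s) (Xp A n w t) ≤ 3 * (η / 4) := by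
    intro s t hst htm hd
    have hst' : (s : ℝ) ≤ t := by exact_mod_cast hst
    have htm' : (t : ℝ) ≤ m := by exact_mod_cast htm
    have hd' : (t : ℝ) - s ≤ δ / 2 := by
      rw [NNReal.dist_eq, abs_sub_comm, abs_of_nonneg (by linarith)] at hd
      exact hd
    refine dist_lnF (pts A w) (K := m * n) (D := δ / 2 * n) ?_ (by positivity)
      (mul_nonneg hn0.le (NNReal.coe_nonneg s)) (mul_le_mul_of_nonneg_left hst' hn0.le) ?_ ?_
    · intro i k hik hk hki
      refine not_bad hA hbad hik ?_ ?_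
      · have h1 : (k : ℝ) ≤ (m + 1 : ℕ) * n := by
          push_cast
          nlinarith
        exact_mod_cast h1
      · linarith
    · calc (n : ℝ) * t ≤ n * m := mul_le_mul_of_nonneg_left htm' hn0.le
        _ = m * n := mul_comm _ _
    · calc (n : ℝ) * t - n * s = n * ((t : ℝ) - s) := by ring
        _ ≤ n * (δ / 2) := mul_le_mul_of_nonneg_left hd' hn0.le
        _ = δ / 2 * n := by ring
  rcases le_total s t with h | h
  · have h1 := key s t h ht hst
    linarith
  · have h1 := key t s h hs (by rw [dist_comm]; exact hst)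
    rw [dist_comm] at h1
    linarith

/-- the step path is close to the interpolated path -/
theorem close_sub_bad {A : ℝ} (hA : 0 < A) {n m : ℕ} {δ η : ℝ} (hn : 1 ≤ n) (hδn : 1 ≤ δ * n) {w : ℕ → V d}
    (hbad : w ∉ bad A n (m + 1) δ η) {t : ℝ≥0} (ht : t ≤ m) : dist ((scaled A n w).toFun t) (Xp A n w t) ≤ η := by
  have hn1 : (1 : ℝ) ≤ n := by exact_mod_cast hn
  have htm' : (t : ℝ) ≤ m := by exact_mod_cast ht
  have h0 : (0 : ℝ) ≤ n * t := mul_nonneg (by linarith) (NNReal.coe_nonneg t)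
  have h1 := dist_lnF_floor (pts A w) h0
  show dist (pts A w ⌊(n : ℝ) * (t : ℝ)⌋₊) (lnF (pts A w) (n * t)) ≤ η
  rw [dist_comm]
  refine h1.trans (not_bad hA hbad (Nat.le_succ _) ?_ ?_)
  · have h2 : (⌊(n : ℝ) * (t : ℝ)⌋₊ : ℝ) ≤ n * t := Nat.floor_le h0
    have h3 : ((⌊(n : ℝ) * (t : ℝ)⌋₊ + 1 : ℕ) : ℝ) ≤ ((m + 1) * n : ℕ) := by
      push_cast
      nlinarith
    exact_mod_cast h3
  · rw [Nat.add_sub_cancel_left]
    push_cast
    exact hδn

theorem exists_large {δ : ℝ} (hδ : 0 < δ) (c : ℝ) : ∃ n1 : ℕ, ∀ n ≥ n1, 1 ≤ n ∧ c ≤ δ * n := by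
  obtain ⟨n1, h1⟩ := exists_nat_ge (c / δ)
  refine ⟨n1 + 1, fun n hn => ⟨by omega, ?_⟩⟩
  rw [div_le_iff₀ hδ] at h1
  have h2 : (n1 : ℝ) ≤ n := by
    have : n1 ≤ n := by omega
    exact_mod_cast this
  nlinarith

theorem limit_abs {Q : Measure (ℕ → V d)} (hQ : IsProbabilityMeasure Q) (h0 : ∀ᵐ w ∂Q, w 0 = 0) {A : ℕ → ℝ}
    (hA : ∀ n, 0 < A n)
    (hT : ∀ (m : ℕ) (ε η : ℝ), 0 < ε → 0 < η → ∃ δ > (0 : ℝ), ∃ n0 : ℕ, ∀ n ≥ n0,
      Q.real {w | ∃ i k, i ≤ k ∧ k ≤ m * n ∧ ((k - i : ℕ) : ℝ) ≤ δ * n ∧ η * A n < (dst (w i) (w k) : ℝ)} ≤ ε)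
    {q : ℝ} (hN : ∀ t > (0 : ℝ), ∃ c > (0 : ℝ), ∃ n0 : ℕ, ∀ n ≥ n0,
      q ≤ Q.real {w | ∃ k : ℕ, (k : ℝ) ≤ t * n ∧ c * A n ≤ (dst 0 (w k) : ℝ)})
    (φ : ℕ → ℕ) (hφ : StrictMono φ) : ∃ ψ : ℕ → ℕ, StrictMono ψ ∧ ∃ μ : Measure C(ℝ≥0, Fin d → ℝ),
      IsProbabilityMeasure μ ∧ ConvergesInLaw Q (fun k => scaled (A (φ (ψ k))) (φ (ψ k))) μ Cadlag.ofCont ∧
      q ≤ μ.real {f | ∀ t > (0 : ℝ≥0), ∃ s ≤ t, f s ≠ 0} := by
  -- laws of the interpolated paths
  obtain ⟨μ, hμ⟩ : ∃ μ : ℕ → ProbabilityMeasure C(ℝ≥0, Fin d → ℝ), ∀ n, (μ n : Measure C(ℝ≥0, Fin d → ℝ)) =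
      Q.map (Xp (A n) n) :=
    ⟨fun n => ⟨Q.map (Xp (A n) n), Measure.isProbabilityMeasure_map (measurable_Xp _ _).aemeasurable⟩, fun n => rfl⟩
  have htight : ∀ ε : ℝ≥0∞, 0 < ε → ∃ K : Set C(ℝ≥0, Fin d → ℝ), IsCompact K ∧
      ∀ n, (μ n : Measure C(ℝ≥0, Fin d → ℝ)) Kᶜ ≤ ε := by
    refine tight_paths (fun n => inferInstance) (fun n => ?_) ?_
    · have hcl : IsClosed {f : C(ℝ≥0, Fin d → ℝ) | f 0 = 0} := isClosed_eq (continuous_eval_const 0) continuous_const
      rw [hμ, Measure.map_apply (measurable_Xp _ _) hcl.measurableSet.compl]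
      have h1 : Q {w : ℕ → V d | w 0 = 0}ᶜ = 0 := h0
      refine measure_mono_null ?_ h1
      intro w hw hw0
      refine hw ?_
      show lnF (pts (A n) w) (n * ((0 : ℝ≥0) : ℝ)) = 0
      rw [NNReal.coe_zero, mul_zero, lnF_apply _ le_rfl, Nat.floor_zero]
      have hw0' : w 0 = 0 := hw0
      ext i
      simp [pts, hw0']
    · intro m η ε hη hε
      have hε1 : 0 < (min ε 1).toReal := ENNReal.toReal_pos (lt_min hε one_pos).ne' (min_lt_of_right_lt ENNReal.one_lt_top).ne
      obtain ⟨δ, hδ, n0, h1⟩ := hT (m + 1) (min ε 1).toReal (η / 4) hε1 (by positivity)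
      obtain ⟨n1, h2⟩ := exists_large hδ 2
      refine ⟨δ / 2, by positivity, max n0 n1, fun n hn => ?_⟩
      obtain ⟨h3, h4⟩ := h2 n ((le_max_right _ _).trans hn)
      have h5 := h1 n ((le_max_left _ _).trans hn)
      rw [hμ, Measure.map_apply (measurable_Xp _ _) (isOpen_osc m (δ / 2) η).measurableSet]
      refine (measure_mono (osc_sub_bad (hA n) hη hδ h3 h4)).trans ?_
      have h6 : Q (bad (A n) n (m + 1) δ (η / 4)) ≤ min ε 1 := by
        rw [← ENNReal.ofReal_toReal (measure_ne_top Q (bad (A n) n (m + 1) δ (η / 4)))]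
        refine (ENNReal.ofReal_le_ofReal h5).trans ?_
        rw [ENNReal.ofReal_toReal (min_lt_of_right_lt ENNReal.one_lt_top).ne]
      exact h6.trans (min_le_left _ _)
  obtain ⟨ψ, hψ, μ0, hlim⟩ := extract htight φ
  have hφψ : Tendsto (fun k => φ (ψ k)) atTop atTop := (hφ.comp hψ).tendsto_atTop
  refine ⟨ψ, hψ, μ0, inferInstance, ?_, ?_⟩
  · -- convergence in law
    intro F hF
    obtain ⟨B, hB⟩ := hF.bdd
    have hB0 : 0 ≤ B := (abs_nonneg _).trans (hB (Cadlag.ofCont 0))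
    have hm1 : ∀ n : ℕ, Measurable fun w : ℕ → V d => F (scaled (A n) n w) := fun n => (continuous_scaled hF _ _).measurable
    have hm2 : Measurable fun f : C(ℝ≥0, Fin d → ℝ) => F (Cadlag.ofCont f) := (continuous_test hF).measurable
    refine ⟨fun k => hm1 _, hm2, ?_⟩
    have hint1 : ∀ n : ℕ, Integrable (fun w : ℕ → V d => F (scaled (A n) n w)) Q := fun n =>
      Integrable.of_bound (hm1 n).aestronglyMeasurable B (Eventually.of_forall fun w => hB _)
    have hm3 : ∀ n : ℕ, Measurable fun w : ℕ → V d => F (Cadlag.ofCont (Xp (A n) n w)) := fun n =>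
      hm2.comp (measurable_Xp _ _)
    have hint2 : ∀ n : ℕ, Integrable (fun w : ℕ → V d => F (Cadlag.ofCont (Xp (A n) n w))) Q := fun n =>
      Integrable.of_bound (hm3 n).aestronglyMeasurable B (Eventually.of_forall fun w => hB _)
    -- the interpolated paths converge
    have hconv : Tendsto (fun k => ∫ w, F (Cadlag.ofCont (Xp (A (φ (ψ k))) (φ (ψ k)) w)) ∂Q) atTop
        (𝓝 (∫ f, F (Cadlag.ofCont f) ∂(μ0 : Measure C(ℝ≥0, Fin d → ℝ)))) := by
      obtain ⟨G, hG⟩ : ∃ G : BoundedContinuousFunction C(ℝ≥0, Fin d → ℝ) ℝ, ∀ f, G f = F (Cadlag.ofCont f) :=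
        ⟨BoundedContinuousFunction.ofNormedAddCommGroup (fun f => F (Cadlag.ofCont f)) (continuous_test hF) B
          fun f => hB _, fun f => rfl⟩
      have h1 := (ProbabilityMeasure.tendsto_iff_forall_integral_tendsto.1 hlim) G
      simp only [hG] at h1
      refine h1.congr fun k => ?_
      rw [hμ, integral_map (measurable_Xp _ _).aemeasurable hm2.aestronglyMeasurable]
    -- the difference
    have hdiff : Tendsto (fun n : ℕ => ∫ w, F (scaled (A n) n w) ∂Q - ∫ w, F (Cadlag.ofCont (Xp (A n) n w)) ∂Q) atTop (𝓝 0) := by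
      rw [Metric.tendsto_atTop]
      intro ε hε
      obtain ⟨e, he, heB⟩ : ∃ e > (0 : ℝ), e + 2 * B * (e + e) < ε := by
        refine ⟨ε / (2 * (1 + 4 * B)), by positivity, ?_⟩
        have : ε / (2 * (1 + 4 * B)) + 2 * B * (ε / (2 * (1 + 4 * B)) + ε / (2 * (1 + 4 * B))) = ε / 2 := by
          field_simp
          ring
        rw [this]
        linarith
      obtain ⟨K, hK, hKn⟩ := htight (ENNReal.ofReal e) (ENNReal.ofReal_pos.2 he)
      obtain ⟨T, hTc⟩ := near_compact hF hK he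
      obtain ⟨δ, hδ, n0, h1⟩ := hT (T + 1) e (1 / ((T : ℝ) + 1)) he (by positivity)
      obtain ⟨n1, h2⟩ := exists_large hδ 1
      refine ⟨max n0 n1, fun n hn => ?_⟩
      obtain ⟨h3, h4⟩ := h2 n ((le_max_right _ _).trans hn)
      have h5 : Q.real (bad (A n) n (T + 1) δ (1 / ((T : ℝ) + 1))) ≤ e := h1 n ((le_max_left _ _).trans hn)
      have h6 : Q.real (Xp (A n) n ⁻¹' Kᶜ) ≤ e := by
        have h7 := hKn n
        rw [hμ, Measure.map_apply (measurable_Xp _ _) hK.isClosed.measurableSet.compl] at h7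
        have h8 := ENNReal.toReal_mono ENNReal.ofReal_ne_top h7
        rw [ENNReal.toReal_ofReal he.le] at h8
        exact h8
      set g : (ℕ → V d) → ℝ := fun w => F (scaled (A n) n w) - F (Cadlag.ofCont (Xp (A n) n w)) with hg
      have hgm : Measurable g := (hm1 n).sub (hm3 n)
      set S : Set (ℕ → V d) := {w | e < |g w|} with hS
      have hSm : MeasurableSet S := measurableSet_lt measurable_const (measurable_norm.comp hgm)
      have hSsub : S ⊆ bad (A n) n (T + 1) δ (1 / ((T : ℝ) + 1)) ∪ Xp (A n) n ⁻¹' Kᶜ := by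
        intro w hw
        by_contra hcon
        rw [Set.mem_union, not_or] at hcon
        refine absurd (show e < |g w| from hw) (not_lt.2 ?_)
        refine hTc (Xp (A n) n w) (by by_contra h9; exact hcon.2 h9) (scaled (A n) n w) fun t ht => ?_
        exact close_sub_bad (hA n) h3 h4 hcon.1 ht
      have hQS : Q.real S ≤ e + e := (measureReal_mono hSsub).trans ((measureReal_union_le _ _).trans (add_le_add h5 h6))
      rw [← integral_sub (hint1 n) (hint2 n), dist_zero_right]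
      refine lt_of_le_of_lt ?_ heB
      have h7 : ‖∫ w, g w ∂Q‖ ≤ ∫ w, ‖g w‖ ∂Q := norm_integral_le_integral_norm _
      refine h7.trans ?_
      have h8 : ∀ w, ‖g w‖ ≤ e + S.indicator (fun _ => 2 * B) w := by
        intro w
        by_cases hw : w ∈ S
        · rw [Set.indicator_of_mem hw]
          have h9 : ‖g w‖ ≤ |F (scaled (A n) n w)| + |F (Cadlag.ofCont (Xp (A n) n w))| := abs_sub _ _
          have h10 := hB (scaled (A n) n w)
          have h11 := hB (Cadlag.ofCont (Xp (A n) n w))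
          linarith
        · rw [Set.indicator_of_notMem hw, add_zero]
          exact not_lt.1 hw
      have hi1 : Integrable (fun w => ‖g w‖) Q := ((hint1 n).sub (hint2 n)).norm
      have hi2 : Integrable (S.indicator fun _ => 2 * B) Q := (integrable_const _).indicator hSm
      calc ∫ w, ‖g w‖ ∂Q ≤ ∫ w, (e + S.indicator (fun _ => 2 * B) w) ∂Q :=
            integral_mono hi1 ((integrable_const e).add hi2) h8
        _ = e + 2 * B * Q.real S := by
            rw [integral_add (integrable_const e) hi2, integral_indicator hSm, setIntegral_const]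
            simp [mul_comm]
        _ ≤ e + 2 * B * (e + e) := by
            have := mul_le_mul_of_nonneg_left hQS (show 0 ≤ 2 * B by positivity)
            linarith
    have hfin := (hdiff.comp hφψ).add hconv
    rw [zero_add] at hfin
    refine hfin.congr fun k => ?_
    simp
  · -- nondegeneracy
    have hclosed : ∀ (t : ℝ≥0) (c : ℝ), IsClosed {f : C(ℝ≥0, Fin d → ℝ) | ∃ s ≤ t, c ≤ ‖f s‖} := by
      intro t c
      have h1 : {f : C(ℝ≥0, Fin d → ℝ) | ∃ s ≤ t, c ≤ ‖f s‖} = {f : C(ℝ≥0, Fin d → ℝ) | Set.MapsTo f (Set.Icc 0 t)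
          {x | ‖x‖ < c}}ᶜ := by
        ext f
        simp only [Set.mem_ofPred_eq, Set.mem_compl_iff, Set.MapsTo, not_forall]
        constructor
        · rintro ⟨s, hs, h⟩
          exact ⟨s, ⟨bot_le, hs⟩, not_lt.2 h⟩
        · rintro ⟨s, hs, h⟩
          exact ⟨s, hs.2, not_lt.1 h⟩
      rw [h1, isClosed_compl_iff]
      exact ContinuousMap.isOpen_setOf_mapsTo isCompact_Icc (isOpen_lt continuous_norm continuous_const)
    have hlow : ∀ t : ℝ≥0, 0 < t → q ≤ (μ0 : Measure C(ℝ≥0, Fin d → ℝ)).real {f | ∃ s ≤ t, f s ≠ 0} := by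
      intro t ht
      obtain ⟨c, hc, n0, h1⟩ := hN t (by exact_mod_cast ht)
      have h2 : ∀ n ≥ max n0 1, ENNReal.ofReal q ≤ (μ n : Measure C(ℝ≥0, Fin d → ℝ)) {f | ∃ s ≤ t, c ≤ ‖f s‖} := by
        intro n hn
        have h3 := h1 n ((le_max_left _ _).trans hn)
        have hn1 : 1 ≤ n := (le_max_right _ _).trans hn
        have hn0 : (0 : ℝ) < n := by exact_mod_cast hn1
        rw [hμ, Measure.map_apply (measurable_Xp _ _) (hclosed t c).measurableSet]
        refine (ENNReal.ofReal_le_ofReal h3).trans ?_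
        rw [Measure.real, ENNReal.ofReal_toReal (measure_ne_top _ _)]
        have h4 : Q {w | ∃ k : ℕ, (k : ℝ) ≤ (t : ℝ) * n ∧ c * A n ≤ (dst 0 (w k) : ℝ)} ≤
            Q ({w | ∃ k : ℕ, (k : ℝ) ≤ (t : ℝ) * n ∧ c * A n ≤ (dst 0 (w k) : ℝ)} ∩ {w | w 0 = 0}) :=
          (measure_mono_ae (by
            filter_upwards [h0] with w hw hw'
            exact ⟨hw', hw⟩))
        refine h4.trans (measure_mono ?_)
        rintro w ⟨⟨k, hk, hkA⟩, hw0⟩
        refine ⟨⟨(k : ℝ) / n, by positivity⟩, ?_, ?_⟩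
        · have : (k : ℝ) / n ≤ t := by
            rw [div_le_iff₀ hn0]
            exact hk
          exact_mod_cast this
        · show c ≤ ‖lnF (pts (A n) w) (n * ((k : ℝ) / n))‖
          have h5 : (n : ℝ) * ((k : ℝ) / n) = k := by field_simp
          rw [h5, lnF_apply _ (Nat.cast_nonneg k), Nat.floor_natCast, sub_self, zero_smul, add_zero]
          have h6 := dist_pts (hA n) w 0 k
          have hw0' : w 0 = 0 := hw0
          have h7 : pts (A n) w 0 = 0 := by
            ext i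
            simp [pts, hw0']
          rw [h7, dist_zero_left, hw0'] at h6
          rw [h6, le_div_iff₀ (hA n)]
          exact hkA
      have h3 := ProbabilityMeasure.limsup_measure_closed_le_of_tendsto hlim (hclosed t c)
      have h4 : ENNReal.ofReal q ≤ (μ0 : Measure C(ℝ≥0, Fin d → ℝ)) {f | ∃ s ≤ t, c ≤ ‖f s‖} := by
        refine le_trans ?_ h3
        refine le_limsup_of_frequently_le ?_ (by isBoundedDefault)
        refine Eventually.frequently ?_
        filter_upwards [hφψ.eventually (eventually_ge_atTop (max n0 1))] with k hk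
        exact h2 _ hk
      have h5 : ENNReal.ofReal q ≤ (μ0 : Measure C(ℝ≥0, Fin d → ℝ)) {f | ∃ s ≤ t, f s ≠ 0} := by
        refine h4.trans (measure_mono ?_)
        rintro f ⟨s, hs, hc'⟩
        refine ⟨s, hs, fun h6 => ?_⟩
        rw [h6, norm_zero] at hc'
        linarith
      rcases le_or_gt q 0 with hq | hq
      · exact hq.trans measureReal_nonneg
      · have h6 := ENNReal.toReal_mono (measure_ne_top _ _) h5
        rw [ENNReal.toReal_ofReal hq.le] at h6
        exact h6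
    have hanti : Antitone fun k : ℕ => {f : C(ℝ≥0, Fin d → ℝ) | ∃ s ≤ (1 / ((k : ℝ≥0) + 1)), f s ≠ 0} := by
      intro k l hkl f hf
      obtain ⟨s, hs, h⟩ := hf
      refine ⟨s, hs.trans ?_, h⟩
      have : (k : ℝ≥0) ≤ l := by exact_mod_cast hkl
      exact one_div_le_one_div_of_le (by positivity) (by gcongr)
    have hopen : ∀ t : ℝ≥0, IsOpen {f : C(ℝ≥0, Fin d → ℝ) | ∃ s ≤ t, f s ≠ 0} := by
      intro t
      have h1 : {f : C(ℝ≥0, Fin d → ℝ) | ∃ s ≤ t, f s ≠ 0} = ⋃ (s : ℝ≥0) (_ : s ≤ t), {f : C(ℝ≥0, Fin d → ℝ) | f s ≠ 0} := by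
        ext f
        simp only [Set.mem_ofPred_eq, Set.mem_iUnion, exists_prop]
      rw [h1]
      exact isOpen_iUnion fun s => isOpen_iUnion fun _ => isOpen_ne_fun (continuous_eval_const s) continuous_const
    have hinter : (⋂ k : ℕ, {f : C(ℝ≥0, Fin d → ℝ) | ∃ s ≤ (1 / ((k : ℝ≥0) + 1)), f s ≠ 0}) =
        {f | ∀ t > (0 : ℝ≥0), ∃ s ≤ t, f s ≠ 0} := by
      ext f
      simp only [Set.mem_iInter, Set.mem_ofPred_eq]
      constructor
      · intro h t ht
        obtain ⟨k, hk⟩ := exists_nat_one_div_lt (show (0 : ℝ) < t by exact_mod_cast ht)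
        obtain ⟨s, hs, hf⟩ := h k
        refine ⟨s, hs.trans ?_, hf⟩
        have : (1 : ℝ≥0) / ((k : ℝ≥0) + 1) ≤ t := by
          rw [← NNReal.coe_le_coe]
          push_cast
          exact hk.le
        exact this
      · intro h k
        exact h _ (by positivity)
    have hlim2 := tendsto_measure_iInter_atTop (μ := (μ0 : Measure C(ℝ≥0, Fin d → ℝ)))
      (fun k : ℕ => (hopen (1 / ((k : ℝ≥0) + 1))).nullMeasurableSet) hanti ⟨0, measure_ne_top _ _⟩
    rw [hinter] at hlim2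
    have hlim3 := (ENNReal.tendsto_toReal (measure_ne_top (μ0 : Measure C(ℝ≥0, Fin d → ℝ)) _)).comp hlim2
    refine ge_of_tendsto hlim3 (Eventually.of_forall fun k => ?_)
    exact hlow _ (by positivity)

end Pool.Agent.Lib.MP_06caae_pr
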