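import Pool.Agent.Lib.MP_06caae_pr.G.Limit

/-!
# The abstract limit theorem, second form
-/

open Finset MeasureTheory Filter Topology
open scoped NNReal ENNReal
open Pool.Agent.Lib.MP_566bac_pr.Zd
open Pool.MP_06caae_pr

namespace Pool.Agent.Lib.MP_06caae_pr

variable {d : ℕ}

/-- the abstract limit theorem; the nondegeneracy with every constant -/
theorem limit_abs2 {Q : Measure (ℕ → V d)} (hQ : IsProbabilityMeasure Q) (h0 : ∀ᵐ w ∂Q, w 0 = 0) {A : ℕ → ℝ}
    (hA : ∀ n, 0 < A n)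
    (hT : ∀ (m : ℕ) (ε η : ℝ), 0 < ε → 0 < η → ∃ δ > (0 : ℝ), ∃ n0 : ℕ, ∀ n ≥ n0,
      Q.real {w | ∃ i k, i ≤ k ∧ k ≤ m * n ∧ ((k - i : ℕ) : ℝ) ≤ δ * n ∧ η * A n < (dst (w i) (w k) : ℝ)} ≤ ε)
    (φ : ℕ → ℕ) (hφ : StrictMono φ) : ∃ ψ : ℕ → ℕ, StrictMono ψ ∧ ∃ μ : Measure C(ℝ≥0, Fin d → ℝ),
      IsProbabilityMeasure μ ∧ ConvergesInLaw Q (fun k => scaled (A (φ (ψ k))) (φ (ψ k))) μ Cadlag.ofCont ∧
      ∀ q : ℝ, (∀ t > (0 : ℝ), ∃ c > (0 : ℝ), ∃ n0 : ℕ, ∀ n ≥ n0,
        q ≤ Q.real {w | ∃ k : ℕ, (k : ℝ) ≤ t * n ∧ c * A n ≤ (dst 0 (w k) : ℝ)}) →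
        q ≤ μ.real {f | ∀ t > (0 : ℝ≥0), ∃ s ≤ t, f s ≠ 0} := by
  -- laws of the interpolated paths
  obtain ⟨μ, hμ⟩ : ∃ μ : ℕ → ProbabilityMeasure C(ℝ≥0, Fin d → ℝ), ∀ n, (μ n : Measure C(ℝ≥0, Fin d → ℝ)) =
      Q.map (Xp (A n) n) :=
    ⟨fun n => ⟨Q.map (Xp (A n) n), Measure.isProbabilityMeasure_map (measurable_Xp _ _).aemeasurable⟩, fun n => rfl⟩
  have htight : ∀ ε : ℝ≥0∞, 0 < ε → ∃ K : Set C(ℝ≥0, Fin d → ℝ), IsCompact K ∧
      ∀ n, (μ n : Measure C(ℝ≥0, Fin d → ℝ)) Kᶜ ≤ ε := by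
    refine tight_paths (fun n => inferInstance) (fun n => ?_) ?_
    · have hcl : IsClosed {f : C(ℝ≥0, Fin d → ℝ) | f 0 = 0} := isClosed_eq (continuous_eval_const 0) continuous_const
      rw [hμ, Measure.map_apply (measurable_Xp _ _) hcl.measurableSet.compl]
      have h1 : Q {w : ℕ → V d | w 0 = 0}ᶜ = 0 := h0
      refine measure_mono_null ?_ h1
      intro w hw hw0
      refine hw ?_
      show lnF (pts (A n) w) (n * ((0 : ℝ≥0) : ℝ)) = 0
      rw [NNReal.coe_zero, mul_zero, lnF_apply _ le_rfl, Nat.floor_zero]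
      have hw0' : w 0 = 0 := hw0
      ext i
      simp [pts, hw0']
    · intro m η ε hη hε
      have hε1 : 0 < (min ε 1).toReal := ENNReal.toReal_pos (lt_min hε one_pos).ne' (min_lt_of_right_lt ENNReal.one_lt_top).ne
      obtain ⟨δ, hδ, n0, h1⟩ := hT (m + 1) (min ε 1).toReal (η / 4) hε1 (by positivity)
      obtain ⟨n1, h2⟩ := exists_large hδ 2
      refine ⟨δ / 2, by positivity, max n0 n1, fun n hn => ?_⟩
      obtain ⟨h3, h4⟩ := h2 n ((le_max_right _ _).trans hn)
      have h5 := h1 n ((le_max_left _ _).trans hn)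
      rw [hμ, Measure.map_apply (measurable_Xp _ _) (isOpen_osc m (δ / 2) η).measurableSet]
      refine (measure_mono (osc_sub_bad (hA n) hη hδ h3 h4)).trans ?_
      have h6 : Q (bad (A n) n (m + 1) δ (η / 4)) ≤ min ε 1 := by
        rw [← ENNReal.ofReal_toReal (measure_ne_top Q (bad (A n) n (m + 1) δ (η / 4)))]
        refine (ENNReal.ofReal_le_ofReal h5).trans ?_
        rw [ENNReal.ofReal_toReal (min_lt_of_right_lt ENNReal.one_lt_top).ne]
      exact h6.trans (min_le_left _ _)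
  obtain ⟨ψ, hψ, μ0, hlim⟩ := extract htight φ
  have hφψ : Tendsto (fun k => φ (ψ k)) atTop atTop := (hφ.comp hψ).tendsto_atTop
  refine ⟨ψ, hψ, μ0, inferInstance, ?_, fun q hN => ?_⟩
  · -- convergence in law
    intro F hF
    obtain ⟨B, hB⟩ := hF.bdd
    have hB0 : 0 ≤ B := (abs_nonneg _).trans (hB (Cadlag.ofCont 0))
    have hm1 : ∀ n : ℕ, Measurable fun w : ℕ → V d => F (scaled (A n) n w) := fun n => (continuous_scaled hF _ _).measurable
    have hm2 : Measurable fun f : C(ℝ≥0, Fin d → ℝ) => F (Cadlag.ofCont f) := (continuous_test hF).measurable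
    refine ⟨fun k => hm1 _, hm2, ?_⟩
    have hint1 : ∀ n : ℕ, Integrable (fun w : ℕ → V d => F (scaled (A n) n w)) Q := fun n =>
      Integrable.of_bound (hm1 n).aestronglyMeasurable B (Eventually.of_forall fun w => hB _)
    have hm3 : ∀ n : ℕ, Measurable fun w : ℕ → V d => F (Cadlag.ofCont (Xp (A n) n w)) := fun n =>
      hm2.comp (measurable_Xp _ _)
    have hint2 : ∀ n : ℕ, Integrable (fun w : ℕ → V d => F (Cadlag.ofCont (Xp (A n) n w))) Q := fun n =>
      Integrable.of_bound (hm3 n).aestronglyMeasurable B (Eventually.of_forall fun w => hB _)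
    -- the interpolated paths converge
    have hconv : Tendsto (fun k => ∫ w, F (Cadlag.ofCont (Xp (A (φ (ψ k))) (φ (ψ k)) w)) ∂Q) atTop
        (𝓝 (∫ f, F (Cadlag.ofCont f) ∂(μ0 : Measure C(ℝ≥0, Fin d → ℝ)))) := by
      obtain ⟨G, hG⟩ : ∃ G : BoundedContinuousFunction C(ℝ≥0, Fin d → ℝ) ℝ, ∀ f, G f = F (Cadlag.ofCont f) :=
        ⟨BoundedContinuousFunction.ofNormedAddCommGroup (fun f => F (Cadlag.ofCont f)) (continuous_test hF) B
          fun f => hB _, fun f => rfl⟩
      have h1 := (ProbabilityMeasure.tendsto_iff_forall_integral_tendsto.1 hlim) G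
      simp only [hG] at h1
      refine h1.congr fun k => ?_
      rw [hμ, integral_map (measurable_Xp _ _).aemeasurable hm2.aestronglyMeasurable]
    -- the difference
    have hdiff : Tendsto (fun n : ℕ => ∫ w, F (scaled (A n) n w) ∂Q - ∫ w, F (Cadlag.ofCont (Xp (A n) n w)) ∂Q) atTop (𝓝 0) := by
      rw [Metric.tendsto_atTop]
      intro ε hε
      obtain ⟨e, he, heB⟩ : ∃ e > (0 : ℝ), e + 2 * B * (e + e) < ε := by
        refine ⟨ε / (2 * (1 + 4 * B)), by positivity, ?_⟩
        have : ε / (2 * (1 + 4 * B)) + 2 * B * (ε / (2 * (1 + 4 * B)) + ε / (2 * (1 + 4 * B))) = ε / 2 := by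
          field_simp
          ring
        rw [this]
        linarith
      obtain ⟨K, hK, hKn⟩ := htight (ENNReal.ofReal e) (ENNReal.ofReal_pos.2 he)
      obtain ⟨T, hTc⟩ := near_compact hF hK he
      obtain ⟨δ, hδ, n0, h1⟩ := hT (T + 1) e (1 / ((T : ℝ) + 1)) he (by positivity)
      obtain ⟨n1, h2⟩ := exists_large hδ 1
      refine ⟨max n0 n1, fun n hn => ?_⟩
      obtain ⟨h3, h4⟩ := h2 n ((le_max_right _ _).trans hn)
      have h5 : Q.real (bad (A n) n (T + 1) δ (1 / ((T : ℝ) + 1))) ≤ e := h1 n ((le_max_left _ _).trans hn)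
      have h6 : Q.real (Xp (A n) n ⁻¹' Kᶜ) ≤ e := by
        have h7 := hKn n
        rw [hμ, Measure.map_apply (measurable_Xp _ _) hK.isClosed.measurableSet.compl] at h7
        have h8 := ENNReal.toReal_mono ENNReal.ofReal_ne_top h7
        rw [ENNReal.toReal_ofReal he.le] at h8
        exact h8
      set g : (ℕ → V d) → ℝ := fun w => F (scaled (A n) n w) - F (Cadlag.ofCont (Xp (A n) n w)) with hg
      have hgm : Measurable g := (hm1 n).sub (hm3 n)
      set S : Set (ℕ → V d) := {w | e < |g w|} with hS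
      have hSm : MeasurableSet S := measurableSet_lt measurable_const (measurable_norm.comp hgm)
      have hSsub : S ⊆ bad (A n) n (T + 1) δ (1 / ((T : ℝ) + 1)) ∪ Xp (A n) n ⁻¹' Kᶜ := by
        intro w hw
        by_contra hcon
        rw [Set.mem_union, not_or] at hcon
        refine absurd (show e < |g w| from hw) (not_lt.2 ?_)
        refine hTc (Xp (A n) n w) (by by_contra h9; exact hcon.2 h9) (scaled (A n) n w) fun t ht => ?_
        exact close_sub_bad (hA n) h3 h4 hcon.1 ht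
      have hQS : Q.real S ≤ e + e := (measureReal_mono hSsub).trans ((measureReal_union_le _ _).trans (add_le_add h5 h6))
      rw [← integral_sub (hint1 n) (hint2 n), dist_zero_right]
      refine lt_of_le_of_lt ?_ heB
      have h7 : ‖∫ w, g w ∂Q‖ ≤ ∫ w, ‖g w‖ ∂Q := norm_integral_le_integral_norm _
      refine h7.trans ?_
      have h8 : ∀ w, ‖g w‖ ≤ e + S.indicator (fun _ => 2 * B) w := by
        intro w
        by_cases hw : w ∈ S
        · rw [Set.indicator_of_mem hw]
          have h9 : ‖g w‖ ≤ |F (scaled (A n) n w)| + |F (Cadlag.ofCont (Xp (A n) n w))| := abs_sub _ _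
          have h10 := hB (scaled (A n) n w)
          have h11 := hB (Cadlag.ofCont (Xp (A n) n w))
          linarith
        · rw [Set.indicator_of_notMem hw, add_zero]
          exact not_lt.1 hw
      have hi1 : Integrable (fun w => ‖g w‖) Q := ((hint1 n).sub (hint2 n)).norm
      have hi2 : Integrable (S.indicator fun _ => 2 * B) Q := (integrable_const _).indicator hSm
      calc ∫ w, ‖g w‖ ∂Q ≤ ∫ w, (e + S.indicator (fun _ => 2 * B) w) ∂Q :=
            integral_mono hi1 ((integrable_const e).add hi2) h8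
        _ = e + 2 * B * Q.real S := by
            rw [integral_add (integrable_const e) hi2, integral_indicator hSm, setIntegral_const]
            simp [mul_comm]
        _ ≤ e + 2 * B * (e + e) := by
            have := mul_le_mul_of_nonneg_left hQS (show 0 ≤ 2 * B by positivity)
            linarith
    have hfin := (hdiff.comp hφψ).add hconv
    rw [zero_add] at hfin
    refine hfin.congr fun k => ?_
    simp
  · -- nondegeneracy
    have hclosed : ∀ (t : ℝ≥0) (c : ℝ), IsClosed {f : C(ℝ≥0, Fin d → ℝ) | ∃ s ≤ t, c ≤ ‖f s‖} := by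
      intro t c
      have h1 : {f : C(ℝ≥0, Fin d → ℝ) | ∃ s ≤ t, c ≤ ‖f s‖} = {f : C(ℝ≥0, Fin d → ℝ) | Set.MapsTo f (Set.Icc 0 t)
          {x | ‖x‖ < c}}ᶜ := by
        ext f
        simp only [Set.mem_ofPred_eq, Set.mem_compl_iff, Set.MapsTo, not_forall]
        constructor
        · rintro ⟨s, hs, h⟩
          exact ⟨s, ⟨bot_le, hs⟩, not_lt.2 h⟩
        · rintro ⟨s, hs, h⟩
          exact ⟨s, hs.2, not_lt.1 h⟩
      rw [h1, isClosed_compl_iff]
      exact ContinuousMap.isOpen_setOf_mapsTo isCompact_Icc (isOpen_lt continuous_norm continuous_const)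
    have hlow : ∀ t : ℝ≥0, 0 < t → q ≤ (μ0 : Measure C(ℝ≥0, Fin d → ℝ)).real {f | ∃ s ≤ t, f s ≠ 0} := by
      intro t ht
      obtain ⟨c, hc, n0, h1⟩ := hN t (by exact_mod_cast ht)
      have h2 : ∀ n ≥ max n0 1, ENNReal.ofReal q ≤ (μ n : Measure C(ℝ≥0, Fin d → ℝ)) {f | ∃ s ≤ t, c ≤ ‖f s‖} := by
        intro n hn
        have h3 := h1 n ((le_max_left _ _).trans hn)
        have hn1 : 1 ≤ n := (le_max_right _ _).trans hn
        have hn0 : (0 : ℝ) < n := by exact_mod_cast hn1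
        rw [hμ, Measure.map_apply (measurable_Xp _ _) (hclosed t c).measurableSet]
        refine (ENNReal.ofReal_le_ofReal h3).trans ?_
        rw [Measure.real, ENNReal.ofReal_toReal (measure_ne_top _ _)]
        have h4 : Q {w | ∃ k : ℕ, (k : ℝ) ≤ (t : ℝ) * n ∧ c * A n ≤ (dst 0 (w k) : ℝ)} ≤
            Q ({w | ∃ k : ℕ, (k : ℝ) ≤ (t : ℝ) * n ∧ c * A n ≤ (dst 0 (w k) : ℝ)} ∩ {w | w 0 = 0}) :=
          (measure_mono_ae (by
            filter_upwards [h0] with w hw hw'
            exact ⟨hw', hw⟩))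
        refine h4.trans (measure_mono ?_)
        rintro w ⟨⟨k, hk, hkA⟩, hw0⟩
        refine ⟨⟨(k : ℝ) / n, by positivity⟩, ?_, ?_⟩
        · have : (k : ℝ) / n ≤ t := by
            rw [div_le_iff₀ hn0]
            exact hk
          exact_mod_cast this
        · show c ≤ ‖lnF (pts (A n) w) (n * ((k : ℝ) / n))‖
          have h5 : (n : ℝ) * ((k : ℝ) / n) = k := by field_simp
          rw [h5, lnF_apply _ (Nat.cast_nonneg k), Nat.floor_natCast, sub_self, zero_smul, add_zero]
          have h6 := dist_pts (hA n) w 0 k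
          have hw0' : w 0 = 0 := hw0
          have h7 : pts (A n) w 0 = 0 := by
            ext i
            simp [pts, hw0']
          rw [h7, dist_zero_left, hw0'] at h6
          rw [h6, le_div_iff₀ (hA n)]
          exact hkA
      have h3 := ProbabilityMeasure.limsup_measure_closed_le_of_tendsto hlim (hclosed t c)
      have h4 : ENNReal.ofReal q ≤ (μ0 : Measure C(ℝ≥0, Fin d → ℝ)) {f | ∃ s ≤ t, c ≤ ‖f s‖} := by
        refine le_trans ?_ h3
        refine le_limsup_of_frequently_le ?_ (by isBoundedDefault)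
        refine Eventually.frequently ?_
        filter_upwards [hφψ.eventually (eventually_ge_atTop (max n0 1))] with k hk
        exact h2 _ hk
      have h5 : ENNReal.ofReal q ≤ (μ0 : Measure C(ℝ≥0, Fin d → ℝ)) {f | ∃ s ≤ t, f s ≠ 0} := by
        refine h4.trans (measure_mono ?_)
        rintro f ⟨s, hs, hc'⟩
        refine ⟨s, hs, fun h6 => ?_⟩
        rw [h6, norm_zero] at hc'
        linarith
      rcases le_or_gt q 0 with hq | hq
      · exact hq.trans measureReal_nonneg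
      · have h6 := ENNReal.toReal_mono (measure_ne_top _ _) h5
        rw [ENNReal.toReal_ofReal hq.le] at h6
        exact h6
    have hanti : Antitone fun k : ℕ => {f : C(ℝ≥0, Fin d → ℝ) | ∃ s ≤ (1 / ((k : ℝ≥0) + 1)), f s ≠ 0} := by
      intro k l hkl f hf
      obtain ⟨s, hs, h⟩ := hf
      refine ⟨s, hs.trans ?_, h⟩
      have : (k : ℝ≥0) ≤ l := by exact_mod_cast hkl
      exact one_div_le_one_div_of_le (by positivity) (by gcongr)
    have hopen : ∀ t : ℝ≥0, IsOpen {f : C(ℝ≥0, Fin d → ℝ) | ∃ s ≤ t, f s ≠ 0} := by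
      intro t
      have h1 : {f : C(ℝ≥0, Fin d → ℝ) | ∃ s ≤ t, f s ≠ 0} = ⋃ (s : ℝ≥0) (_ : s ≤ t), {f : C(ℝ≥0, Fin d → ℝ) | f s ≠ 0} := by
        ext f
        simp only [Set.mem_ofPred_eq, Set.mem_iUnion, exists_prop]
      rw [h1]
      exact isOpen_iUnion fun s => isOpen_iUnion fun _ => isOpen_ne_fun (continuous_eval_const s) continuous_const
    have hinter : (⋂ k : ℕ, {f : C(ℝ≥0, Fin d → ℝ) | ∃ s ≤ (1 / ((k : ℝ≥0) + 1)), f s ≠ 0}) =
        {f | ∀ t > (0 : ℝ≥0), ∃ s ≤ t, f s ≠ 0} := by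
      ext f
      simp only [Set.mem_iInter, Set.mem_ofPred_eq]
      constructor
      · intro h t ht
        obtain ⟨k, hk⟩ := exists_nat_one_div_lt (show (0 : ℝ) < t by exact_mod_cast ht)
        obtain ⟨s, hs, hf⟩ := h k
        refine ⟨s, hs.trans ?_, hf⟩
        have : (1 : ℝ≥0) / ((k : ℝ≥0) + 1) ≤ t := by
          rw [← NNReal.coe_le_coe]
          push_cast
          exact hk.le
        exact this
      · intro h k
        exact h _ (by positivity)
    have hlim2 := tendsto_measure_iInter_atTop (μ := (μ0 : Measure C(ℝ≥0, Fin d → ℝ)))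
      (fun k : ℕ => (hopen (1 / ((k : ℝ≥0) + 1))).nullMeasurableSet) hanti ⟨0, measure_ne_top _ _⟩
    rw [hinter] at hlim2
    have hlim3 := (ENNReal.tendsto_toReal (measure_ne_top (μ0 : Measure C(ℝ≥0, Fin d → ℝ)) _)).comp hlim2
    refine ge_of_tendsto hlim3 (Eventually.of_forall fun k => ?_)
    exact hlow _ (by positivity)

end Pool.Agent.Lib.MP_06caae_pr
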