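import Pool.Agent.Lib.MP_06caae_pr.G.Final
import Pool.Agent.Lib.MP_06caae_pr.G.Bridge

/-!
# The main theorem, from the three-piece inequality
-/

open Finset MeasureTheory Filter Topology
open scoped NNReal
open Pool.Agent.Lib.MP_566bac_pr.Zd
open Pool.Agent.Lib.IICQ
open Pool.MP_06caae_pr

namespace Pool.Agent.Lib.MP_06caae_pr

variable {d : ℕ}

theorem zero_path_lt {μ : Measure C(ℝ≥0, Fin d → ℝ)} (hμ : IsProbabilityMeasure μ) {q : ℝ} (hq : 0 < q)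
    (h : q ≤ μ.real {f | ∀ t > (0 : ℝ≥0), ∃ s ≤ t, f s ≠ 0}) : μ {f | ∀ t, f t = 0} < 1 := by
  have h1 : MeasurableSet {f : C(ℝ≥0, Fin d → ℝ) | ∀ t, f t = 0} := by
    have h2 : {f : C(ℝ≥0, Fin d → ℝ) | ∀ t, f t = 0} = ⋂ t : ℝ≥0, {f | f t = 0} := by
      ext f
      simp only [Set.mem_ofPred_eq, Set.mem_iInter]
    rw [h2]
    exact (isClosed_iInter fun t => isClosed_eq (continuous_eval_const t) continuous_const).measurableSet
  have h2 : {f : C(ℝ≥0, Fin d → ℝ) | ∀ t > (0 : ℝ≥0), ∃ s ≤ t, f s ≠ 0} ⊆ {f | ∀ t, f t = 0}ᶜ := by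
    intro f hf hf0
    obtain ⟨s, _, hs⟩ := hf 1 one_pos
    exact hs (hf0 s)
  have h3 := h.trans (measureReal_mono h2)
  rw [measureReal_compl h1, probReal_univ] at h3
  have h4 : μ.real {f | ∀ t, f t = 0} < 1 := by linarith
  rw [Measure.real] at h4
  by_contra hcon
  have h5 : μ {f | ∀ t, f t = 0} = 1 := le_antisymm prob_le_one (not_lt.1 hcon)
  rw [h5, ENNReal.toReal_one] at h4
  exact absurd h4 (lt_irrefl _)

theorem cbrt_two {n : ℕ} (hn : 1 ≤ n) : cbrt (2 * n) ≤ 2 * (2 * cbrt n) := by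
  have h := cbrt_le_mul (J := 1) (n := 2 * n) (n' := n) hn (by omega)
  calc cbrt (2 * n) ≤ 2 ^ (1 + 1) * cbrt n := h
    _ = 2 * (2 * cbrt n) := by ring

/-- the main theorem, from the three-piece inequality -/
theorem main_of_three (hd : 0 < d) (p : unitInterval) (hp : (p : ℝ) = criticalProbability d)
    (htri : TriangleCondition d p) (h3 : Std d (p : ℝ) → Three d (p : ℝ)) (ν : Measure (Set (Sym2 (V d))))
    (hν : IsIICLaw p ν) :
    (∃! Q : Measure (ℕ → V d), IsAnnealedLaw ν Q) ∧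
    ∀ Q : Measure (ℕ → V d), IsAnnealedLaw ν Q →
      (∃ a b : ℕ → ℝ, Tendsto a atTop atTop ∧ Tendsto b atTop atTop ∧
        ∃ μ : Measure C(ℝ≥0, Fin d → ℝ), IsProbabilityMeasure μ ∧
          ConvergesInLaw Q (fun n => scaled (a n) (b n)) μ Cadlag.ofCont ∧ μ {f | ∀ t, f t = 0} < 1) ∧
      ∃ a : ℕ → ℝ, (∀ n, 0 < a n) ∧ Monotone a ∧ Tendsto a atTop atTop ∧
        (∃ K : ℝ, ∀ n ≥ 1, a (2 * n) ≤ K * a n) ∧
        ∃ q > (0 : ℝ), ∀ φ : ℕ → ℕ, StrictMono φ → ∃ ψ : ℕ → ℕ, StrictMono ψ ∧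
          ∃ μ : Measure C(ℝ≥0, Fin d → ℝ), IsProbabilityMeasure μ ∧
            ConvergesInLaw Q (fun k => scaled (a (φ (ψ k))) (φ (ψ k))) μ Cadlag.ofCont ∧
            q ≤ μ.real {f | ∀ t > (0 : ℝ≥0), ∃ s ≤ t, f s ≠ 0} := by
  obtain ⟨a, ha0, ham, hal, ⟨K, hK, hdbl⟩, hgood⟩ := iic_scale_of_three hd hp htri h3 hν
  obtain ⟨hex, hlim⟩ := final_of hν.prob ⟨ha0, ham, hal, K, hK, hdbl⟩ hgood
  have hmonoc : Monotone cbrt := by
    intro m n hmn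
    exact le_cbrt ((cbrt_pow_le m).trans hmn)
  refine ⟨hex, fun Q hQ => ?_⟩
  obtain ⟨q, hq, hsub⟩ := hlim Q hQ
  have hal' : Tendsto (fun n => a (cbrt n)) atTop atTop := hal.comp tendsto_cbrt
  refine ⟨?_, fun n => a (cbrt n), fun n => ha0 _, ham.comp hmonoc, hal', ⟨K * K, fun n hn => ?_⟩, q, hq, hsub⟩
  · obtain ⟨ψ, hψ, μ, hμ, hconv, hq'⟩ := hsub id strictMono_id
    refine ⟨fun k => a (cbrt (ψ k)), fun k => ((ψ k : ℕ) : ℝ), hal'.comp hψ.tendsto_atTop,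
      tendsto_natCast_atTop_atTop.comp hψ.tendsto_atTop, μ, hμ, hconv, zero_path_lt hμ hq hq'⟩
  · have h1 : 1 ≤ cbrt n := le_cbrt (by simpa using hn)
    have h2 := hdbl (cbrt n) h1
    have h3 := hdbl (2 * cbrt n) (by omega)
    have h4 := ham (cbrt_two hn)
    calc a (cbrt (2 * n)) ≤ a (2 * (2 * cbrt n)) := h4
      _ ≤ K * a (2 * cbrt n) := h3
      _ ≤ K * (K * a (cbrt n)) := mul_le_mul_of_nonneg_left h2 hK.le
      _ = K * K * a (cbrt n) := by ring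

end Pool.Agent.Lib.MP_06caae_pr
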