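import Pool.Agent.Lib.MP_06caae_pr.G.Final
import Pool.Agent.Lib.MP_06caae_pr.G.Limit2

/-!
# Assembly for all scales comparable to the scale of the percolation estimates
-/

open Finset MeasureTheory Filter Topology
open scoped NNReal
open Pool.Agent.Lib.MP_566bac_pr.Zd
open Pool.Agent.Lib.IICQ
open Pool.MP_06caae_pr

namespace Pool.Agent.Lib.MP_06caae_pr

variable {d : ℕ}

/-- convergence in law along a subsequence -/
theorem convergesInLaw_comp {Ω Ω' : Type*} [MeasurableSpace Ω] [MeasurableSpace Ω'] {P : Measure Ω}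
    {X : ℕ → Ω → Cadlag d} {P' : Measure Ω'} {Y : Ω' → Cadlag d} (h : ConvergesInLaw P X P' Y) {θ : ℕ → ℕ}
    (hθ : Tendsto θ atTop atTop) : ConvergesInLaw P (fun n => X (θ n)) P' Y := by
  intro F hF
  obtain ⟨h1, h2, h3⟩ := h F hF
  exact ⟨fun n => h1 (θ n), h2, h3.comp hθ⟩

/-- two scales are comparable -/
def Comparable (A B : ℕ → ℝ) : Prop := ∃ C : ℝ, 0 < C ∧ ∀ᶠ n in atTop, B n ≤ C * A n ∧ A n ≤ C * B n

/-- the theorem, for one annealed law and all comparable scales: convergence of subsequences -/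
theorem limit_scales {Q : Measure (ℕ → V d)} (hQ : IsProbabilityMeasure Q) (h0 : ∀ᵐ w ∂Q, w 0 = (0 : V d))
    {a : ℕ → ℝ} (ha : ∀ n, 0 < a n)
    (hT : ∀ (m : ℕ) (ε η : ℝ), 0 < ε → 0 < η → ∃ δ > (0 : ℝ), ∃ n0 : ℕ, ∀ n ≥ n0,
      Q.real {w | ∃ i k, i ≤ k ∧ k ≤ m * n ∧ ((k - i : ℕ) : ℝ) ≤ δ * n ∧ η * a n < (dst (w i) (w k) : ℝ)} ≤ ε)
    {A : ℕ → ℝ} (hA : Comparable A a) (φ : ℕ → ℕ) (hφ : StrictMono φ) :
    ∃ ψ : ℕ → ℕ, StrictMono ψ ∧ ∃ μ : Measure C(ℝ≥0, Fin d → ℝ),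
      IsProbabilityMeasure μ ∧ ConvergesInLaw Q (fun k => scaled (A (φ (ψ k))) (φ (ψ k))) μ Cadlag.ofCont ∧
      ∀ q : ℝ, (∀ t > (0 : ℝ), ∃ c > (0 : ℝ), ∃ n0 : ℕ, ∀ n ≥ n0,
        q ≤ Q.real {w | ∃ k : ℕ, (k : ℝ) ≤ t * n ∧ c * a n ≤ (dst 0 (w k) : ℝ)}) →
        q ≤ μ.real {f | ∀ t > (0 : ℝ≥0), ∃ s ≤ t, f s ≠ 0} := by
  obtain ⟨C, hC, hcomp⟩ := hA
  obtain ⟨N, hN0⟩ := eventually_atTop.1 hcomp
  have hAN : ∀ n ≥ N, 0 < A n := by
    intro n hn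
    have h1 := (hN0 n hn).1
    have h2 : 0 < a n := ha _
    by_contra hcon
    have h3 : C * A n ≤ 0 := mul_nonpos_of_nonneg_of_nonpos hC.le (not_lt.1 hcon)
    linarith
  set B : ℕ → ℝ := fun n => if N ≤ n then A n else 1 with hB
  have hBpos : ∀ n, 0 < B n := by
    intro n
    simp only [hB]
    split_ifs with h
    · exact hAN n h
    · exact one_pos
  have hBA : ∀ n ≥ N, B n = A n := by
    intro n hn
    simp only [hB]
    rw [if_pos hn]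
  have hTB : ∀ (m : ℕ) (ε η : ℝ), 0 < ε → 0 < η → ∃ δ > (0 : ℝ), ∃ n0 : ℕ, ∀ n ≥ n0,
      Q.real {w | ∃ i k, i ≤ k ∧ k ≤ m * n ∧ ((k - i : ℕ) : ℝ) ≤ δ * n ∧ η * B n < (dst (w i) (w k) : ℝ)} ≤ ε := by
    intro m ε η hε hη
    obtain ⟨δ, hδ, n0, hn0⟩ := hT m ε (η / C) hε (div_pos hη hC)
    refine ⟨δ, hδ, max n0 N, fun n hn => ?_⟩
    have hnN : N ≤ n := (le_max_right _ _).trans hn
    refine (measureReal_mono ?_ (measure_ne_top _ _)).trans (hn0 n ((le_max_left _ _).trans hn))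
    intro w hw
    obtain ⟨i, k, h1, h2, h3, h4⟩ := hw
    refine ⟨i, k, h1, h2, h3, lt_of_le_of_lt ?_ h4⟩
    rw [hBA n hnN]
    calc η / C * a n ≤ η / C * (C * A n) :=
          mul_le_mul_of_nonneg_left (hN0 n hnN).1 (div_nonneg hη.le hC.le)
      _ = η * A n := by field_simp
  obtain ⟨ψ, hψ, μ, hμ, hconv, hqμ⟩ := limit_abs2 hQ h0 hBpos hTB φ hφ
  refine ⟨fun k => ψ (k + N), fun i j hij => hψ (by omega), μ, hμ, ?_, fun q hN => hqμ q ?_⟩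
  · have h1 := convergesInLaw_comp hconv (θ := fun k => k + N) (tendsto_add_atTop_nat N)
    have h2 : (fun k => scaled (d := d) (B (φ (ψ (k + N)))) (φ (ψ (k + N)))) =
        fun k => scaled (A (φ (ψ (k + N)))) (φ (ψ (k + N))) := by
      funext k
      have h3 : N ≤ φ (ψ (k + N)) := by
        have h4 := hψ.le_apply (x := k + N)
        have h5 := hφ.le_apply (x := ψ (k + N))
        omega
      rw [hBA _ h3]
    rw [← h2]
    exact h1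
  · intro t ht
    obtain ⟨c, hc, n0, hn0⟩ := hN t ht
    refine ⟨c / C, div_pos hc hC, max n0 N, fun n hn => ?_⟩
    have hnN : N ≤ n := (le_max_right _ _).trans hn
    have h5 : q ≤ Q.real {w | ∃ k : ℕ, (k : ℝ) ≤ t * n ∧ c * a n ≤ (dst 0 (w k) : ℝ)} :=
      hn0 n ((le_max_left _ _).trans hn)
    refine h5.trans (measureReal_mono ?_ (measure_ne_top _ _))
    intro w hw
    obtain ⟨k, h1, h2⟩ := hw
    refine ⟨k, h1, le_trans ?_ h2⟩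
    rw [hBA n hnN]
    calc c / C * A n ≤ c / C * (C * a n) :=
          mul_le_mul_of_nonneg_left (hN0 n hnN).2 (div_nonneg hc.le hC.le)
      _ = c * a n := by field_simp

/-- the theorem, for one annealed law and all comparable scales -/
theorem final_scales {ν : Measure (Set (Ed d))} (hν : IsProbabilityMeasure ν) {a : ℕ → ℝ} (ha : IsScale a)
    (hgood : IICGood ν a) : (∃! Q : Measure (ℕ → V d), IsAnnealedLaw ν Q) ∧ ∀ Q, IsAnnealedLaw ν Q →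
      (∃ q > (0 : ℝ), ∀ t > (0 : ℝ), ∃ c > (0 : ℝ), ∃ n0 : ℕ, ∀ n ≥ n0,
        q ≤ Q.real {w | ∃ k : ℕ, (k : ℝ) ≤ t * n ∧ c * a (cbrt n) ≤ (dst 0 (w k) : ℝ)}) ∧
      ∀ A : ℕ → ℝ, Comparable A (fun n => a (cbrt n)) → ∀ φ : ℕ → ℕ, StrictMono φ →
      ∃ ψ : ℕ → ℕ, StrictMono ψ ∧ ∃ μ : Measure C(ℝ≥0, Fin d → ℝ),
      IsProbabilityMeasure μ ∧ ConvergesInLaw Q (fun k => scaled (A (φ (ψ k))) (φ (ψ k))) μ Cadlag.ofCont ∧
      ∀ q : ℝ, (∀ t > (0 : ℝ), ∃ c > (0 : ℝ), ∃ n0 : ℕ, ∀ n ≥ n0,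
        q ≤ Q.real {w | ∃ k : ℕ, (k : ℝ) ≤ t * n ∧ c * a (cbrt n) ≤ (dst 0 (w k) : ℝ)}) →
        q ≤ μ.real {f | ∀ t > (0 : ℝ≥0), ∃ s ≤ t, f s ≠ 0} := by
  obtain ⟨P, hP, hm⟩ := exists_walk d
  obtain ⟨Pa, hPa⟩ := exists_mix hν hP hm
  have hdeg : ν.real {S | (grS S).nb (0 : V d) = ∅} = 0 := by
    have : {S : Set (Ed d) | (grS S).nb (0 : V d) = ∅} = {S | sph S (0 : V d) 1 = ∅} := by
      ext S
      exact nb_empty_iff
    rw [this]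
    exact hgood.deg
  have hann := annealed hν hdeg hP hm hPa
  refine ⟨⟨Pa, hann, fun Q hQ => ext_path hν hQ hann⟩, fun Q hQ => ?_⟩
  have hQP : Q = Pa := ext_path hν hQ hann
  subst hQP
  have hE := envGood hν (fun R => (ha.pos R).le) hP hm hPa hgood
  obtain ⟨K, hK, hdbl⟩ := ha.dbl
  refine ⟨?_, fun A hA φ hφ => ?_⟩
  · obtain ⟨q, hq, hN⟩ := hE.nondeg_all _ ha.mono hK hdbl
    exact ⟨q, hq, fun t ht => hN t ht⟩
  · exact limit_scales hQ.prob (start_zero hν hQ) (a := fun n => a (cbrt n)) (fun n => ha.pos _)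
      (fun m ε η hε hη => hE.tight' _ m hε hη) hA φ hφ

end Pool.Agent.Lib.MP_06caae_pr
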