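import Pool.Agent.Lib.MP_06caae_pr.G.Bridge2
import Pool.Agent.Lib.MP_06caae_pr.Q.AsmD

/-!
# The scale is of the order of the square root

from an upper bound for the two-point function and an upper bound for the one-arm probability
-/

open Finset SimpleGraph MeasureTheory Filter Topology
open Pool.Agent.Lib.MP_566bac_pr.Zd
open Pool.Agent.Lib.IICQ
open Pool.MP_06caae_pr (percolation Connected twoPoint TriangleCondition IsCylinder IsIICLaw)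

namespace Pool.Agent.Lib.MP_06caae_pr

variable {d : ℕ}

/-- the arm event -/
def Arm (d : ℕ) (n : ℕ) : Set (Set (Ed d)) := {S | ∃ y : V d, n ≤ dst 0 y ∧ Con S 0 y}

lemma inc_arm (n : ℕ) : Inc (Arm d n) := by
  rintro S S' h ⟨y, h1, h2⟩
  exact ⟨y, h1, inc_Con 0 y S S' h h2⟩

lemma dp_arm (n : ℕ) : Dp (lattice d).edgeSet (Arm d n) := by
  intro S S' h
  constructor
  · rintro ⟨y, h1, h2⟩
    exact ⟨y, h1, (dp_con 0 y S S' h).1 h2⟩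
  · rintro ⟨y, h1, h2⟩
    exact ⟨y, h1, (dp_con 0 y S S' h).2 h2⟩

/-- the expected number of displaced points of the ball and the arm probability -/
theorem TT_le_arm {p : unitInterval} {C₁ : ℝ} (hG : ∀ r : ℕ, 1 ≤ r → GG d p r ≤ C₁ * r) {r n : ℕ} (hr : 1 ≤ r) :
    TT d p r n ^ 2 ≤ (C₁ ^ 3 * (r : ℝ) ^ 3) * (perc p).real (Arm d n) := by
  classical
  have hp0 := p.2.1
  have hp1 := p.2.2
  set E : Finset (Ed d) := Ein (Lam 0 r) with hE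
  have h1 : TT d p r n ≤ EE (p : ℝ) E (fun S => ind (S ∈ Arm d n) * (vol S (0 : V d) r : ℝ)) := by
    have h2 : TT d p r n = EE (p : ℝ) E (fun S => ∑ y ∈ (Lam 0 r : Finset (V d)).filter (fun y => ((n : ℕ) : ℝ) ≤ (dst 0 y : ℝ)),
        ind (Rch S 0 r y)) := by
      rw [EE, Ex_sum]
      unfold TT
      refine sum_congr rfl fun y _ => ?_
      exact (Ex_ind (fun _ => (p : ℝ)) E {S : Set (Ed d) | Rch S 0 r y}).symm
    rw [h2]
    refine Ex_mono (wt_p hp0 hp1) fun S => ?_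
    by_cases hS : S ∈ Arm d n
    · rw [ind_true hS, one_mul]
      have h3 : ∑ y ∈ (Lam 0 r : Finset (V d)).filter (fun y => ((n : ℕ) : ℝ) ≤ (dst 0 y : ℝ)), ind (Rch S 0 r y) ≤
          ∑ y ∈ (Lam 0 r : Finset (V d)), ind (Rch S 0 r y) :=
        sum_le_sum_of_subset_of_nonneg (filter_subset _ _) fun _ _ _ => ind_nonneg _
      refine h3.trans (le_of_eq ?_)
      unfold ind
      rw [← sum_filter, sum_const, nsmul_eq_mul, mul_one]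
      rfl
    · rw [ind_false hS, zero_mul]
      refine le_of_eq (sum_eq_zero fun y hy => ?_)
      refine ind_false fun hR => hS ⟨y, ?_, hR.con⟩
      have := (mem_filter.1 hy).2
      exact_mod_cast this
  have h2 : 0 ≤ TT d p r n := TT_nonneg hp0 hp1 r n
  have h3 := EE_cs hp0 hp1 E (fun S => ind (S ∈ Arm d n)) (fun S => (vol S (0 : V d) r : ℝ))
  have h4 : EE (p : ℝ) E (fun S => ind (S ∈ Arm d n) ^ 2) ≤ (perc p).real (Arm d n) := by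
    have h5 : ∀ S : Set (Ed d), ind (S ∈ Arm d n) ^ 2 = ind (S ∈ Arm d n) := by
      intro S
      by_cases h6 : S ∈ Arm d n
      · rw [ind_true h6, one_pow]
      · rw [ind_false h6]
        norm_num
    simp only [h5]
    unfold EE
    rw [Ex_ind]
    exact PE_le_perc p E (inc_arm n) (dp_arm n)
  have h5 := mom2 hp0 hp1 hG E (0 : V d) hr
  have h6 : 0 ≤ EE (p : ℝ) E (fun S => (vol S (0 : V d) r : ℝ) ^ 2) := Ex_nonneg (wt_p hp0 hp1) fun S => sq_nonneg _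
  calc TT d p r n ^ 2 ≤ EE (p : ℝ) E (fun S => ind (S ∈ Arm d n) * (vol S (0 : V d) r : ℝ)) ^ 2 :=
        pow_le_pow_left₀ h2 h1 2
    _ ≤ _ := h3
    _ ≤ (perc p).real (Arm d n) * (C₁ ^ 3 * (r : ℝ) ^ 3) := mul_le_mul h4 h5 h6 measureReal_nonneg
    _ = _ := mul_comm _ _

/-! ### the sum of the two-point function over a box -/

lemma sum_tau_pow {p : unitInterval} {C : ℝ} (hC : 0 ≤ C)
    (h : ∀ x : V d, x ≠ 0 → tau (p : ℝ) x ≤ C * (dst 0 x : ℝ) ^ (2 - (d : ℝ))) (j : ℕ) :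
    ∑ y ∈ (Lam 0 (2 ^ j) : Finset (V d)), tau (p : ℝ) y ≤ (3 ^ d + 4 * C * 5 ^ d) * 4 ^ j := by
  classical
  have hp0 := p.2.1
  have hp1 := p.2.2
  induction j with
  | zero =>
    have h1 : ∑ y ∈ (Lam 0 (2 ^ 0) : Finset (V d)), tau (p : ℝ) y ≤ ∑ _y ∈ (Lam 0 (2 ^ 0) : Finset (V d)), (1 : ℝ) :=
      sum_le_sum fun y _ => tau_le_one hp0 hp1 y
    rw [sum_const, nsmul_eq_mul, mul_one, card_Lam] at h1
    refine h1.trans ?_
    norm_num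
    positivity
  | succ j ih =>
    have h1 : (Lam 0 (2 ^ j) : Finset (V d)) ⊆ Lam 0 (2 ^ (j + 1)) := Lam_mono 0 (Nat.pow_le_pow_right (by norm_num) (by omega))
    rw [← sum_sdiff h1]
    have h2 : ∀ y ∈ (Lam 0 (2 ^ (j + 1)) : Finset (V d)) \ Lam 0 (2 ^ j),
        tau (p : ℝ) y ≤ C * 4 * 4 ^ j * (((2 : ℝ) ^ j) ^ d)⁻¹ := by
      intro y hy
      rw [Finset.mem_sdiff, mem_Lam, mem_Lam] at hy
      obtain ⟨hy1, hy2⟩ := hy
      rw [dst_comm] at hy1 hy2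
      push Not at hy2
      have hD0 : (2 : ℝ) ^ j < (dst 0 y : ℝ) := by exact_mod_cast hy2
      have hD1 : (dst 0 y : ℝ) ≤ 2 ^ (j + 1) := by exact_mod_cast hy1
      have hj : (0 : ℝ) < 2 ^ j := by positivity
      have hDpos : (0 : ℝ) < (dst 0 y : ℝ) := hj.trans hD0
      have hy0 : y ≠ 0 := by
        rintro rfl
        rw [dst_self] at hDpos
        simp at hDpos
      refine (h y hy0).trans ?_
      have e1 : (dst 0 y : ℝ) ^ (2 - (d : ℝ)) = (dst 0 y : ℝ) ^ 2 * (((dst 0 y : ℝ)) ^ d)⁻¹ := by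
        rw [Real.rpow_sub hDpos, Real.rpow_natCast, div_eq_mul_inv]
        norm_num
      rw [e1]
      have e2 : (dst 0 y : ℝ) ^ 2 ≤ 4 * 4 ^ j := by
        have : (dst 0 y : ℝ) ^ 2 ≤ (2 ^ (j + 1)) ^ 2 := pow_le_pow_left₀ hDpos.le hD1 2
        refine this.trans (le_of_eq ?_)
        rw [← pow_mul, show (4 : ℝ) = 2 ^ 2 by norm_num, ← pow_mul, ← pow_add]
        congr 1
        ring
      have e3 : (((dst 0 y : ℝ)) ^ d)⁻¹ ≤ (((2 : ℝ) ^ j) ^ d)⁻¹ := by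
        apply inv_anti₀ (by positivity)
        exact pow_le_pow_left₀ hj.le hD0.le d
      calc C * ((dst 0 y : ℝ) ^ 2 * (((dst 0 y : ℝ)) ^ d)⁻¹) ≤ C * ((4 * 4 ^ j) * (((2 : ℝ) ^ j) ^ d)⁻¹) := by
            apply mul_le_mul_of_nonneg_left _ hC
            exact mul_le_mul e2 e3 (by positivity) (by positivity)
        _ = _ := by ring
    have h3 := sum_le_sum h2
    rw [sum_const, nsmul_eq_mul] at h3
    have h4 : (((Lam 0 (2 ^ (j + 1)) : Finset (V d)) \ Lam 0 (2 ^ j)).card : ℝ) ≤ 5 ^ d * ((2 : ℝ) ^ j) ^ d := by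
      have h5 : ((Lam 0 (2 ^ (j + 1)) : Finset (V d)) \ Lam 0 (2 ^ j)).card ≤ (Lam (0 : V d) (2 ^ (j + 1))).card :=
        card_le_card sdiff_subset
      rw [card_Lam] at h5
      have h6 : 2 * 2 ^ (j + 1) + 1 ≤ 5 * 2 ^ j := by
        have : 1 ≤ 2 ^ j := Nat.one_le_two_pow
        rw [pow_succ]
        omega
      have h7 := h5.trans (Nat.pow_le_pow_left h6 d)
      rw [mul_pow] at h7
      exact_mod_cast h7
    have h5 : (((Lam 0 (2 ^ (j + 1)) : Finset (V d)) \ Lam 0 (2 ^ j)).card : ℝ) * (C * 4 * 4 ^ j * (((2 : ℝ) ^ j) ^ d)⁻¹) ≤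
        4 * C * 5 ^ d * 4 ^ j := by
      calc (((Lam 0 (2 ^ (j + 1)) : Finset (V d)) \ Lam 0 (2 ^ j)).card : ℝ) * (C * 4 * 4 ^ j * (((2 : ℝ) ^ j) ^ d)⁻¹) ≤
            (5 ^ d * ((2 : ℝ) ^ j) ^ d) * (C * 4 * 4 ^ j * (((2 : ℝ) ^ j) ^ d)⁻¹) :=
            mul_le_mul_of_nonneg_right h4 (by positivity)
        _ = 4 * C * 5 ^ d * 4 ^ j * (((2 : ℝ) ^ j) ^ d * (((2 : ℝ) ^ j) ^ d)⁻¹) := by ring
        _ = _ := by rw [mul_inv_cancel₀ (by positivity), mul_one]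
    have h6 : (0 : ℝ) ≤ 3 ^ d * 4 ^ j := by positivity
    have h7 : (0 : ℝ) ≤ 4 * C * 5 ^ d * 4 ^ j := by positivity
    calc _ ≤ 4 * C * 5 ^ d * 4 ^ j + (3 ^ d + 4 * C * 5 ^ d) * 4 ^ j := add_le_add (h3.trans h5) ih
      _ ≤ (3 ^ d + 4 * C * 5 ^ d) * 4 ^ (j + 1) := by
        rw [pow_succ]
        nlinarith

lemma sum_tau_sq {p : unitInterval} {C : ℝ} (hC : 0 ≤ C)
    (h : ∀ x : V d, x ≠ 0 → tau (p : ℝ) x ≤ C * (dst 0 x : ℝ) ^ (2 - (d : ℝ))) {n : ℕ} (hn : 1 ≤ n) :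
    ∑ y ∈ (Lam 0 n : Finset (V d)), tau (p : ℝ) y ≤ (3 ^ d + 4 * C * 5 ^ d) * 4 * (n : ℝ) ^ 2 := by
  have h1 : n < 2 ^ (Nat.log 2 n + 1) := Nat.lt_pow_succ_log_self (by norm_num) n
  have h2 : 2 ^ Nat.log 2 n ≤ n := Nat.pow_log_le_self 2 (by omega)
  have h3 : ∑ y ∈ (Lam 0 n : Finset (V d)), tau (p : ℝ) y ≤ ∑ y ∈ (Lam 0 (2 ^ (Nat.log 2 n + 1)) : Finset (V d)), tau (p : ℝ) y :=
    sum_le_sum_of_subset_of_nonneg (Lam_mono 0 h1.le) fun y _ _ => tau_nonneg p.2.1 p.2.2 y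
  refine (h3.trans (sum_tau_pow hC h _)).trans ?_
  rw [mul_assoc (3 ^ d + 4 * C * 5 ^ d)]
  apply mul_le_mul_of_nonneg_left _ (by positivity)
  have h4 : ((2 : ℝ) ^ Nat.log 2 n) ^ 2 ≤ (n : ℝ) ^ 2 := by
    apply pow_le_pow_left₀ (by positivity)
    exact_mod_cast h2
  have h5 : (4 : ℝ) ^ (Nat.log 2 n + 1) = 4 * ((2 : ℝ) ^ Nat.log 2 n) ^ 2 := by
    rw [pow_succ, ← pow_mul, mul_comm (Nat.log 2 n) 2, pow_mul]
    norm_num
    ring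
  rw [h5]
  linarith

/-! ### the order of the scale -/

theorem scale_ge_sqrt {p : unitInterval} (hS : Std d (p : ℝ)) {a : ℕ → ℝ} (ha : ∀ R, 0 < a R)
    (hat : Tendsto a atTop atTop) {c₀ : ℝ} (htyp : Typ d p c₀ a) {C : ℝ} (hC : 0 ≤ C)
    (h : ∀ x : V d, x ≠ 0 → tau (p : ℝ) x ≤ C * (dst 0 x : ℝ) ^ (2 - (d : ℝ))) :
    ∃ K : ℝ, 0 < K ∧ ∃ R₀ : ℕ, ∀ R ≥ R₀, √(R : ℝ) ≤ K * a R := by
  classical
  have hp0 := p.2.1
  have hp1 := p.2.2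
  obtain ⟨κ, hκ, hκa⟩ := htyp.1
  obtain ⟨R₁, hR₁⟩ := eventually_atTop.1 (hat.eventually_ge_atTop 1)
  obtain ⟨A, hA⟩ : ∃ A : ℝ, A = (3 ^ d + 4 * C * 5 ^ d) * 4 := ⟨_, rfl⟩
  have hA0 : 0 < A := by rw [hA]; positivity
  refine ⟨√(2 * A) * (κ + 1), by positivity, max R₁ 1, fun R hR => ?_⟩
  have hR1 : 1 ≤ R := (le_max_right _ _).trans hR
  have haR := hR₁ R ((le_max_left _ _).trans hR)
  have haR0 := ha R
  have h1 := hκa R hR1
  have h2 := G_low hS R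
  obtain ⟨n, hn⟩ : ∃ n : ℕ, n = ⌈κ * a R⌉₊ := ⟨_, rfl⟩
  have hn0 : 0 < κ * a R := mul_pos hκ haR0
  have hn1 : 1 ≤ n := by
    rw [hn]
    exact Nat.ceil_pos.2 hn0
  have hn2 : (n : ℝ) ≤ κ * a R + 1 := by
    rw [hn]
    exact (Nat.ceil_lt_add_one hn0.le).le
  have hn3 : κ * a R ≤ n := by
    rw [hn]
    exact Nat.le_ceil _
  have h3 : GG d p R ≤ TT d p R (κ * a R) + ∑ y ∈ (Lam 0 n : Finset (V d)), tau (p : ℝ) y := by
    unfold GG TT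
    rw [← sum_filter_add_sum_filter_not (Lam 0 R) (fun y => κ * a R ≤ (dst 0 y : ℝ))]
    refine add_le_add le_rfl ?_
    refine (sum_le_sum fun y _ => ppi_le_tau hp0 hp1 R y).trans ?_
    refine sum_le_sum_of_subset_of_nonneg (fun y hy => ?_) fun y _ _ => tau_nonneg hp0 hp1 y
    have h4 := (mem_filter.1 hy).2
    push Not at h4
    rw [mem_Lam, dst_comm]
    have h5 : (dst 0 y : ℝ) ≤ n := h4.le.trans hn3
    exact_mod_cast h5
  have h4 := sum_tau_sq hC h hn1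
  rw [← hA] at h4
  have h5 : (R : ℝ) ≤ 2 * A * (n : ℝ) ^ 2 := by linarith
  have h6 : (n : ℝ) ≤ (κ + 1) * a R := by linarith
  calc √(R : ℝ) ≤ √(2 * A * (n : ℝ) ^ 2) := Real.sqrt_le_sqrt h5
    _ = √(2 * A) * n := by rw [Real.sqrt_mul (by positivity), Real.sqrt_sq (Nat.cast_nonneg n)]
    _ ≤ √(2 * A) * ((κ + 1) * a R) := mul_le_mul_of_nonneg_left h6 (Real.sqrt_nonneg _)
    _ = _ := by ring

theorem scale_le_sqrt {p : unitInterval} (hS : Std d (p : ℝ)) {a : ℕ → ℝ}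
    (hat : Tendsto a atTop atTop) {c₀ : ℝ} (hc₀ : 0 < c₀) (htyp : Typ d p c₀ a) {C' : ℝ}
    (harm : ∀ n : ℕ, 1 ≤ n → (perc p).real (Arm d n) ≤ C' / (n : ℝ) ^ 2) :
    ∃ K : ℝ, 0 < K ∧ ∃ R₀ : ℕ, ∀ R ≥ R₀, a R ≤ K * √(R : ℝ) := by
  have hp0 := p.2.1
  have hp1 := p.2.2
  obtain ⟨C₁, hC₁, hG⟩ := G_up hS
  obtain ⟨Λ, hΛ, r₀, hr₀⟩ := htyp.2
  obtain ⟨R₁, hR₁⟩ := eventually_atTop.1 (hat.eventually_ge_atTop 24)
  have hC'0 : 0 ≤ C' := by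
    have h1 := harm 1 le_rfl
    have h2 : 0 ≤ (perc p).real (Arm d 1) := measureReal_nonneg
    rw [Nat.cast_one, one_pow, div_one] at h1
    exact h2.trans h1
  have hΛ0 : (1 : ℝ) ≤ Λ := by exact_mod_cast hΛ
  obtain ⟨B, hB⟩ : ∃ B : ℝ, B = C₁ ^ 3 * C' * Λ / c₀ ^ 2 := ⟨_, rfl⟩
  have hB0 : 0 ≤ B := by rw [hB]; positivity
  refine ⟨48 * (√B + 1), by positivity, max r₀ (max R₁ 1), fun R hR => ?_⟩
  have hR1 : 1 ≤ R := ((le_max_right _ _).trans (le_max_right _ _)).trans hR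
  have haR := hR₁ R (((le_max_left _ _).trans (le_max_right _ _)).trans hR)
  have h1 := hr₀ R ((le_max_left _ _).trans hR)
  obtain ⟨n, hn⟩ : ∃ n : ℕ, n = ⌊a R / 24⌋₊ := ⟨_, rfl⟩
  have hn1 : 1 ≤ n := by
    rw [hn]
    apply Nat.le_floor
    rw [Nat.cast_one]
    linarith
  have hn2 : (n : ℝ) ≤ a R / 24 := by
    rw [hn]
    exact Nat.floor_le (by linarith)
  have hn3 : a R / 48 ≤ n := by
    have h2 : a R / 24 < n + 1 := by
      rw [hn]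
      exact Nat.lt_floor_add_one _
    have h3 : (1 : ℝ) ≤ n := by exact_mod_cast hn1
    linarith
  have hn0 : (0 : ℝ) < n := by exact_mod_cast hn1
  have hr : 1 ≤ Λ * R := Nat.mul_pos (by omega) (by omega)
  have h2 : TT d p (Λ * R) (a R / 24) ≤ TT d p (Λ * R) n := TT_mono hp0 hp1 le_rfl hn2
  have h3 := TT_le_arm hG (n := n) hr
  have h4 := harm n hn1
  obtain ⟨r, hrdef⟩ : ∃ r : ℝ, r = ((Λ * R : ℕ) : ℝ) := ⟨_, rfl⟩
  have hr0 : 0 < r := by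
    rw [hrdef]
    exact_mod_cast hr
  have h5 : (c₀ * r) ^ 2 ≤ C₁ ^ 3 * r ^ 3 * (C' / (n : ℝ) ^ 2) := by
    calc (c₀ * r) ^ 2 ≤ TT d p (Λ * R) n ^ 2 := by
          apply pow_le_pow_left₀ (by positivity)
          rw [hrdef]
          exact h1.trans h2
      _ ≤ _ := h3
      _ ≤ C₁ ^ 3 * ((Λ * R : ℕ) : ℝ) ^ 3 * (C' / (n : ℝ) ^ 2) := mul_le_mul_of_nonneg_left h4 (by positivity)
      _ = _ := by rw [hrdef]
  have h6 : (n : ℝ) ^ 2 ≤ B * R := by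
    rw [mul_div_assoc', le_div_iff₀ (by positivity)] at h5
    have h7 : r = Λ * R := by
      rw [hrdef]
      push_cast
      ring
    have h8 : r ^ 2 * (c₀ ^ 2 * (n : ℝ) ^ 2) ≤ r ^ 2 * (C₁ ^ 3 * C' * r) := by linarith
    have h9 := le_of_mul_le_mul_left h8 (by positivity)
    rw [h7] at h9
    rw [hB, div_mul_eq_mul_div, le_div_iff₀ (by positivity)]
    linarith
  have h7 : (n : ℝ) ≤ √B * √(R : ℝ) := by
    rw [← Real.sqrt_mul hB0]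
    exact Real.le_sqrt_of_sq_le h6
  have h8 : 0 ≤ √(R : ℝ) := Real.sqrt_nonneg _
  linarith

/-! ### the scale of the walk -/

lemma norm_eq_dst (x : V d) : ‖x‖ = (dst 0 x : ℝ) := by
  apply le_antisymm
  · rw [pi_norm_le_iff_of_nonneg (Nat.cast_nonneg _)]
    intro i
    rw [Int.norm_eq_abs]
    have h1 := le_dst 0 x i
    rw [Pi.zero_apply, zero_sub, abs_neg] at h1
    exact_mod_cast h1
  · have h1 : dst 0 x ≤ ⌊‖x‖⌋₊ := by
      rw [dst_le]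
      intro i
      have h2 := norm_le_pi_norm x i
      rw [Int.norm_eq_abs] at h2
      rw [Pi.zero_apply, zero_sub, abs_neg]
      have h3 : ((|x i|.toNat : ℕ) : ℝ) = |(x i : ℝ)| := by
        have h4 : ((|x i|.toNat : ℕ) : ℤ) = |x i| := Int.toNat_of_nonneg (abs_nonneg _)
        have h5 : (((|x i|.toNat : ℕ) : ℤ) : ℝ) = ((|x i| : ℤ) : ℝ) := by rw [h4]
        push_cast at h5
        exact h5
      have h4 : |x i|.toNat ≤ ⌊‖x‖⌋₊ := Nat.le_floor (by rw [h3]; exact h2)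
      omega
    have h2 : (dst 0 x : ℝ) ≤ (⌊‖x‖⌋₊ : ℝ) := by exact_mod_cast h1
    exact h2.trans (Nat.floor_le (norm_nonneg x))

lemma sqrt_cbrt_le (n : ℕ) : √((cbrt n : ℕ) : ℝ) ≤ (n : ℝ) ^ (1 / 6 : ℝ) := by
  have h1 : (((cbrt n : ℕ) : ℝ) ^ 3) ≤ n := by exact_mod_cast cbrt_pow_le n
  have h2 : √((cbrt n : ℕ) : ℝ) = (((cbrt n : ℕ) : ℝ) ^ 3) ^ (1 / 6 : ℝ) := by
    rw [Real.sqrt_eq_rpow, ← Real.rpow_natCast, ← Real.rpow_mul (Nat.cast_nonneg _)]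
    norm_num
  rw [h2]
  exact Real.rpow_le_rpow (by positivity) h1 (by norm_num)

lemma rpow_sixth_le {n : ℕ} (hn : 1 ≤ n) : (n : ℝ) ^ (1 / 6 : ℝ) ≤ √2 * √((cbrt n : ℕ) : ℝ) := by
  have h1 : (n : ℝ) ≤ 8 * ((cbrt n : ℕ) : ℝ) ^ 3 := by exact_mod_cast le_eight_cbrt hn
  have h2 : √2 * √((cbrt n : ℕ) : ℝ) = (8 * ((cbrt n : ℕ) : ℝ) ^ 3) ^ (1 / 6 : ℝ) := by
    rw [Real.mul_rpow (by norm_num) (by positivity), show (8 : ℝ) = 2 ^ (3 : ℕ) by norm_num, Real.sqrt_eq_rpow,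
      Real.sqrt_eq_rpow, ← Real.rpow_natCast, ← Real.rpow_natCast, ← Real.rpow_mul (by norm_num),
      ← Real.rpow_mul (Nat.cast_nonneg _)]
    norm_num
  rw [h2]
  exact Real.rpow_le_rpow (by positivity) h1 (by norm_num)

/-- with the bounds for the two-point function and for the arm the scale of the walk is `n ^ (1 / 6)` -/
theorem scale_sixth {p : unitInterval} (hS : Std d (p : ℝ)) {a : ℕ → ℝ} (ha : ∀ R, 0 < a R)
    (hat : Tendsto a atTop atTop) {c₀ : ℝ} (hc₀ : 0 < c₀) (htyp : Typ d p c₀ a) {C : ℝ}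
    (h2 : ∀ x : V d, x ≠ 0 → twoPoint p 0 x ≤ C * ‖x‖ ^ (2 - (d : ℝ)))
    (h1 : ∀ n : ℕ, 1 ≤ n → (percolation d p).real {S | ∃ y : V d, (n : ℝ) ≤ ‖y‖ ∧ Connected S 0 y} ≤ C / (n : ℝ) ^ 2) :
    ∃ K : ℝ, 0 < K ∧ ∃ n₀ : ℕ, ∀ n ≥ n₀, (n : ℝ) ^ (1 / 6 : ℝ) ≤ K * a (cbrt n) ∧ a (cbrt n) ≤ K * (n : ℝ) ^ (1 / 6 : ℝ) := by
  have hC : 0 ≤ C := by
    have h3 := h1 1 le_rfl
    have h4 : 0 ≤ (percolation d p).real {S | ∃ y : V d, ((1 : ℕ) : ℝ) ≤ ‖y‖ ∧ Connected S 0 y} := measureReal_nonneg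
    rw [Nat.cast_one, one_pow, div_one] at h3
    rw [Nat.cast_one] at h4
    exact h4.trans h3
  have h2' : ∀ x : V d, x ≠ 0 → tau (p : ℝ) x ≤ C * (dst 0 x : ℝ) ^ (2 - (d : ℝ)) := by
    intro x hx
    have h3 := h2 x hx
    rwa [twoPoint_eq, sub_zero, norm_eq_dst] at h3
  have h1' : ∀ n : ℕ, 1 ≤ n → (perc p).real (Arm d n) ≤ C / (n : ℝ) ^ 2 := by
    intro n hn
    refine le_trans (le_of_eq ?_) (h1 n hn)
    congr 1
    ext S
    constructor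
    · rintro ⟨y, h3, h4⟩
      exact ⟨y, by rw [norm_eq_dst]; exact_mod_cast h3, h4⟩
    · rintro ⟨y, h3, h4⟩
      rw [norm_eq_dst] at h3
      exact ⟨y, by exact_mod_cast h3, h4⟩
  obtain ⟨K₁, hK₁, R₁, hR₁⟩ := scale_ge_sqrt hS ha hat htyp hC h2'
  obtain ⟨K₂, hK₂, R₂, hR₂⟩ := scale_le_sqrt hS hat hc₀ htyp h1'
  refine ⟨max (√2 * K₁) K₂, by positivity, max 1 ((max R₁ R₂) ^ 3), fun n hn => ?_⟩
  have hn1 : 1 ≤ n := (le_max_left _ _).trans hn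
  have hc : max R₁ R₂ ≤ cbrt n := le_cbrt ((le_max_right _ _).trans hn)
  have h3 := hR₁ (cbrt n) ((le_max_left _ _).trans hc)
  have h4 := hR₂ (cbrt n) ((le_max_right _ _).trans hc)
  have hac := ha (cbrt n)
  constructor
  · calc (n : ℝ) ^ (1 / 6 : ℝ) ≤ √2 * √((cbrt n : ℕ) : ℝ) := rpow_sixth_le hn1
      _ ≤ √2 * (K₁ * a (cbrt n)) := mul_le_mul_of_nonneg_left h3 (Real.sqrt_nonneg _)
      _ = √2 * K₁ * a (cbrt n) := by ring
      _ ≤ _ := mul_le_mul_of_nonneg_right (le_max_left _ _) hac.le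
  · calc a (cbrt n) ≤ K₂ * √((cbrt n : ℕ) : ℝ) := h4
      _ ≤ K₂ * (n : ℝ) ^ (1 / 6 : ℝ) := mul_le_mul_of_nonneg_left (sqrt_cbrt_le n) hK₂.le
      _ ≤ _ := mul_le_mul_of_nonneg_right (le_max_right _ _) (by positivity)

end Pool.Agent.Lib.MP_06caae_pr
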