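import Pool.Agent.Lib.MP_06caae_pr.G.Scales
import Pool.Agent.Lib.MP_06caae_pr.G.Main
import Pool.Agent.Lib.MP_06caae_pr.G.Sqrt
import Pool.Agent.Lib.MP_06caae_pr.G.FarOne
import Pool.Agent.Lib.MP_06caae_pr.Q.AsmOne

/-!
# The main theorem, with the predicted normalisation under the two-point and the one-arm bounds
-/

open Finset MeasureTheory Filter Topology
open scoped NNReal
open Pool.Agent.Lib.MP_566bac_pr.Zd
open Pool.Agent.Lib.IICQ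
open Pool.MP_06caae_pr

namespace Pool.Agent.Lib.MP_06caae_pr

variable {d : ℕ}

/-- nondegeneracy with probability close to one -/
theorem nondeg_one_of {ν : Measure (Set (Ed d))} (hν : IsProbabilityMeasure ν) {a : ℕ → ℝ} (ha : IsScale a)
    (hgood : IICGood ν a)
    (hfar : ∀ ε > (0 : ℝ), ∃ c > (0 : ℝ), ∃ R0 : ℕ, ∀ R ≥ R0, ν.real {S | (rad S (0 : V d) R : ℝ) < c * a R} ≤ ε)
    {Q : Measure (ℕ → V d)} (hQ : IsAnnealedLaw ν Q) : ∀ q < (1 : ℝ), ∀ t > (0 : ℝ), ∃ c > (0 : ℝ), ∃ n0 : ℕ, ∀ n ≥ n0,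
      q ≤ Q.real {w | ∃ k : ℕ, (k : ℝ) ≤ t * n ∧ c * a (cbrt n) ≤ (dst 0 (w k) : ℝ)} := by
  obtain ⟨P, hP, hm⟩ := exists_walk d
  obtain ⟨Pa, hPa⟩ := exists_mix hν hP hm
  have hdeg : ν.real {S | (grS S).nb (0 : V d) = ∅} = 0 := by
    have : {S : Set (Ed d) | (grS S).nb (0 : V d) = ∅} = {S | sph S (0 : V d) 1 = ∅} := by
      ext S
      exact nb_empty_iff
    rw [this]
    exact hgood.deg
  have hann := annealed hν hdeg hP hm hPa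
  have hQP : Q = Pa := ext_path hν hQ hann
  subst hQP
  have hE := envGood hν (fun R => (ha.pos R).le) hP hm hPa hgood
  obtain ⟨K, hK, hdbl⟩ := ha.dbl
  have hfar' : ∀ ε > (0 : ℝ), ∃ C : ℕ, 1 ≤ C ∧ ∃ c > (0 : ℝ), ∃ R0 : ℕ, ∀ R ≥ R0,
      1 - ε ≤ ν.real {S : Set (Ed d) | ∃ y ∈ (grS S).bl (0 : V d) (C * R), c * a R ≤ (dst 0 y : ℝ)} := by
    intro ε hε
    obtain ⟨c, hc, R0, hR0⟩ := hfar ε hε
    refine ⟨2, by omega, c, hc, R0 + 1, fun R hR => ?_⟩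
    have h1 := hR0 R (by omega)
    have h2 : ({S : Set (Ed d) | ∃ y ∈ (grS S).bl (0 : V d) (2 * R), c * a R ≤ (dst 0 y : ℝ)} ∪
        {S | (rad S (0 : V d) R : ℝ) < c * a R}) = Set.univ := by
      ext S
      simp only [Set.mem_union, Set.mem_ofPred_eq, Set.mem_univ, iff_true]
      rcases lt_or_ge (rad S (0 : V d) R : ℝ) (c * a R) with h | h
      · exact Or.inr h
      · refine Or.inl ?_
        obtain ⟨y, hy, hyr⟩ := exists_rad S (0 : V d) R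
        refine ⟨y, ?_, ?_⟩
        · have h4 : y ∈ (grS S).bl (0 : V d) (R + 1) := by rw [bl_eq_ball]; exact hy
          exact (grS S).bl_mono 0 (by omega) h4
        · rw [hyr]
          exact h
    have h3 := measureReal_union_le (μ := ν) {S : Set (Ed d) | ∃ y ∈ (grS S).bl (0 : V d) (2 * R), c * a R ≤ (dst 0 y : ℝ)}
      {S | (rad S (0 : V d) R : ℝ) < c * a R}
    rw [h2, probReal_univ] at h3
    linarith
  exact hE.nondeg_all_one _ hfar' ha.mono hK hdbl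

/-- the far input of the walk part, from the two-point and the one-arm bounds -/
theorem far_of_bounds {p : unitInterval} {ν : Measure (Set (Ed d))} (hν : IsIICLaw p ν) (hS : Std d (p : ℝ)) {a : ℕ → ℝ}
    (ha : ∀ R, 0 < a R) (hat : Tendsto a atTop atTop) {c₀ : ℝ} (hc₀ : 0 < c₀) (htyp : Typ d p c₀ a) (hgood : IICGood ν a)
    {C : ℝ} (h2 : ∀ x : V d, x ≠ 0 → twoPoint p 0 x ≤ C * ‖x‖ ^ (2 - (d : ℝ)))
    (h1 : ∀ n : ℕ, 1 ≤ n → (percolation d p).real {S | ∃ y : V d, (n : ℝ) ≤ ‖y‖ ∧ Connected S 0 y} ≤ C / (n : ℝ) ^ 2) :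
    ∀ ε > (0 : ℝ), ∃ c > (0 : ℝ), ∃ R0 : ℕ, ∀ R ≥ R0, ν.real {S | (rad S (0 : V d) R : ℝ) < c * a R} ≤ ε := by
  have hC : 0 ≤ C := by
    have h3 := h1 1 le_rfl
    have h4 : 0 ≤ (percolation d p).real {S | ∃ y : V d, ((1 : ℕ) : ℝ) ≤ ‖y‖ ∧ Connected S 0 y} := measureReal_nonneg
    rw [Nat.cast_one, one_pow, div_one] at h3
    rw [Nat.cast_one] at h4
    exact h4.trans h3
  have h2' : ∀ x : V d, x ≠ 0 → tau (p : ℝ) x ≤ C * (dst 0 x : ℝ) ^ (2 - (d : ℝ)) := by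
    intro x hx
    have h3 := h2 x hx
    rwa [twoPoint_eq, sub_zero, norm_eq_dst] at h3
  have h1' : ∀ n : ℕ, 1 ≤ n → (perc p).real (Arm d n) ≤ C / (n : ℝ) ^ 2 := by
    intro n hn
    refine le_trans (le_of_eq ?_) (h1 n hn)
    congr 1
    ext S
    constructor
    · rintro ⟨y, h3, h4⟩
      exact ⟨y, by rw [norm_eq_dst]; exact_mod_cast h3, h4⟩
    · rintro ⟨y, h3, h4⟩
      rw [norm_eq_dst] at h3
      exact ⟨y, by exact_mod_cast h3, h4⟩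
  exact far_one (isIIC_of hν) hS ha hat hgood hC h2' (scale_le_sqrt hS hat hc₀ htyp h1')

/-- the main theorem: all three parts -/
theorem main_sixth (hd : 0 < d) (p : unitInterval) (hp : (p : ℝ) = criticalProbability d)
    (htri : TriangleCondition d p) (ν : Measure (Set (Sym2 (V d)))) (hν : IsIICLaw p ν) :
    (∃! Q : Measure (ℕ → V d), IsAnnealedLaw ν Q) ∧
    ∀ Q : Measure (ℕ → V d), IsAnnealedLaw ν Q →
      (∃ a : ℕ → ℝ, (∀ n, 0 < a n) ∧ Monotone a ∧ Tendsto a atTop atTop ∧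
        (∃ K : ℝ, ∀ n ≥ 1, a (2 * n) ≤ K * a n) ∧
        ∃ q > (0 : ℝ), ∀ φ : ℕ → ℕ, StrictMono φ → ∃ ψ : ℕ → ℕ, StrictMono ψ ∧
          ∃ μ : Measure C(ℝ≥0, Fin d → ℝ), IsProbabilityMeasure μ ∧
            ConvergesInLaw Q (fun k => scaled (a (φ (ψ k))) (φ (ψ k))) μ Cadlag.ofCont ∧
            q ≤ μ.real {f | ∀ t > (0 : ℝ≥0), ∃ s ≤ t, f s ≠ 0}) ∧
      (∃ a b : ℕ → ℝ, Tendsto a atTop atTop ∧ Tendsto b atTop atTop ∧
        ∃ μ : Measure C(ℝ≥0, Fin d → ℝ), IsProbabilityMeasure μ ∧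
          ConvergesInLaw Q (fun n => scaled (a n) (b n)) μ Cadlag.ofCont ∧ μ {f | ∀ t, f t = 0} < 1) ∧
      ∀ C : ℝ, (∀ x : V d, x ≠ 0 → twoPoint p 0 x ≤ C * ‖x‖ ^ (2 - (d : ℝ))) →
        (∀ n : ℕ, 1 ≤ n → (percolation d p).real {S | ∃ y : V d, (n : ℝ) ≤ ‖y‖ ∧ Connected S 0 y} ≤ C / (n : ℝ) ^ 2) →
        ∀ φ : ℕ → ℕ, StrictMono φ → ∃ ψ : ℕ → ℕ, StrictMono ψ ∧
          ∃ μ : Measure C(ℝ≥0, Fin d → ℝ), IsProbabilityMeasure μ ∧
            ConvergesInLaw Q (fun k => scaled ((φ (ψ k) : ℝ) ^ (1 / 6 : ℝ)) (φ (ψ k))) μ Cadlag.ofCont ∧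
            μ {f | ∀ t > (0 : ℝ≥0), ∃ s ≤ t, f s ≠ 0} = 1 := by
  obtain ⟨hS, a, ha0, ham, hal, ⟨K, hK, hdbl⟩, ⟨c₀, hc₀, htyp⟩, hgood⟩ := iic_typ_scale hd hp htri hν
  have hscale : IsScale a := ⟨ha0, ham, hal, K, hK, hdbl⟩
  obtain ⟨hex, hlim⟩ := final_scales hν.prob hscale hgood
  have hmonoc : Monotone cbrt := by
    intro m n hmn
    exact le_cbrt ((cbrt_pow_le m).trans hmn)
  refine ⟨hex, fun Q hQ => ?_⟩
  obtain ⟨⟨q, hq, hN⟩, hsub⟩ := hlim Q hQ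
  have hal' : Tendsto (fun n => a (cbrt n)) atTop atTop := hal.comp tendsto_cbrt
  have hself : Comparable (fun n => a (cbrt n)) (fun n => a (cbrt n)) :=
    ⟨1, one_pos, Eventually.of_forall fun n => ⟨by rw [one_mul], by rw [one_mul]⟩⟩
  refine ⟨⟨fun n => a (cbrt n), fun n => ha0 _, ham.comp hmonoc, hal', ⟨K * K, fun n hn => ?_⟩, q, hq, fun φ hφ => ?_⟩,
    ?_, fun C h2 h1 φ hφ => ?_⟩
  · have h1 : 1 ≤ cbrt n := le_cbrt (by simpa using hn)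
    have h2 := hdbl (cbrt n) h1
    have h3 := hdbl (2 * cbrt n) (by omega)
    have h4 := ham (cbrt_two hn)
    calc a (cbrt (2 * n)) ≤ a (2 * (2 * cbrt n)) := h4
      _ ≤ K * a (2 * cbrt n) := h3
      _ ≤ K * (K * a (cbrt n)) := mul_le_mul_of_nonneg_left h2 hK.le
      _ = K * K * a (cbrt n) := by ring
  · obtain ⟨ψ, hψ, μ, hμ, hconv, hq'⟩ := hsub _ hself φ hφ
    exact ⟨ψ, hψ, μ, hμ, hconv, hq' q hN⟩
  · obtain ⟨ψ, hψ, μ, hμ, hconv, hq'⟩ := hsub _ hself id strictMono_id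
    exact ⟨fun k => a (cbrt (ψ k)), fun k => ((ψ k : ℕ) : ℝ), hal'.comp hψ.tendsto_atTop,
      tendsto_natCast_atTop_atTop.comp hψ.tendsto_atTop, μ, hμ, hconv, zero_path_lt hμ hq (hq' q hN)⟩
  · obtain ⟨K₁, hK₁, n₀, hn₀⟩ := scale_sixth hS ha0 hal hc₀ htyp h2 h1
    have hcomp : Comparable (fun n : ℕ => (n : ℝ) ^ (1 / 6 : ℝ)) (fun n => a (cbrt n)) :=
      ⟨K₁, hK₁, eventually_atTop.2 ⟨n₀, fun n hn => ⟨(hn₀ n hn).2, (hn₀ n hn).1⟩⟩⟩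
    have hfar := far_of_bounds hν hS ha0 hal hc₀ htyp hgood h2 h1
    have hone := nondeg_one_of hν.prob hscale hgood hfar hQ
    obtain ⟨ψ, hψ, μ, hμ, hconv, hq'⟩ := hsub _ hcomp φ hφ
    refine ⟨ψ, hψ, μ, hμ, hconv, ?_⟩
    have h3 : (1 : ℝ) ≤ μ.real {f | ∀ t > (0 : ℝ≥0), ∃ s ≤ t, f s ≠ 0} :=
      le_of_forall_lt_imp_le_of_dense fun q' hq1 => hq' q' (hone q' hq1)
    refine le_antisymm prob_le_one ?_
    rw [Measure.real] at h3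
    have h4 := ENNReal.ofReal_le_ofReal h3
    rwa [ENNReal.ofReal_one, ENNReal.ofReal_toReal (measure_ne_top _ _)] at h4

end Pool.Agent.Lib.MP_06caae_pr
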